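import Pool.Agent.GTC.Defs

/-!
# [GTC-A1] internally graded vector spaces: linear maps
-/

set_option autoImplicit false

open CategoryTheory Module

namespace GTC

section
variable {k Γ V W : Type} [Field k] [AddCommGroup Γ] [DecidableEq Γ] [AddCommGroup V] [Module k V]
  [AddCommGroup W] [Module k W] {𝒱 : Γ → Submodule k V} (hV : DirectSum.IsInternal 𝒱)
include hV

/-- [A1] linear maps which agree on homogeneous elements are equal -/
theorem gext {f g : V →ₗ[k] W} (h : ∀ γ x, x ∈ 𝒱 γ → f x = g x) : f = g := by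
  have htop : iSup 𝒱 = ⊤ := hV.submodule_iSup_eq_top
  have hle : iSup 𝒱 ≤ LinearMap.eqLocus f g := iSup_le fun γ x hx => h γ x hx
  apply LinearMap.ext
  intro x
  exact hle (htop ▸ Submodule.mem_top)

/-- [A1] a linear map is given by its restrictions to the components -/
theorem glue (f : ∀ γ, 𝒱 γ →ₗ[k] W) : ∃ F : V →ₗ[k] W, ∀ γ (x : 𝒱 γ), F x = f γ x := by
  let e : (DirectSum Γ fun γ => 𝒱 γ) ≃ₗ[k] V :=
    LinearEquiv.ofBijective (DirectSum.coeLinearMap 𝒱) hV
  refine ⟨(DirectSum.toModule k Γ W f).comp e.symm.toLinearMap, ?_⟩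
  intro γ x
  have h1 : e (DirectSum.lof k Γ (fun γ => 𝒱 γ) γ x) = (x : V) :=
    DirectSum.coeLinearMap_lof 𝒱 γ x
  have h2 : e.symm (x : V) = DirectSum.lof k Γ (fun γ => 𝒱 γ) γ x := by
    rw [← h1, LinearEquiv.symm_apply_apply]
  rw [LinearMap.comp_apply, LinearEquiv.coe_coe, h2, DirectSum.toModule_lof]

/-- [A1] scaling of the components (`glue`) -/
theorem scale (c : Γ → k) : ∃ E : V →ₗ[k] V, ∀ γ x, x ∈ 𝒱 γ → E x = c γ • x := by
  obtain ⟨E, hE⟩ := glue hV (fun γ => c γ • (𝒱 γ).subtype)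
  exact ⟨E, fun γ x hx => hE γ ⟨x, hx⟩⟩

end

end GTC
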