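import Pool.Agent.GTC.A1

/-!
# [GTC-A4] graded subspaces
-/

set_option autoImplicit false

open CategoryTheory Module

namespace GTC

section
variable {k Γ V W : Type} [Field k] [AddCommGroup Γ] [DecidableEq Γ] [AddCommGroup V] [Module k V]
  [AddCommGroup W] [Module k W] {𝒱 : Γ → Submodule k V} (hV : DirectSum.IsInternal 𝒱)
include hV

/-- [A4] a subspace which is stable under the scalings is graded.
PROOF. Independence is inherited. `x ∈ N` is the sum of its components (finitely many are nonzero), which are the images of `x` under the scalings with `c` the indicator functions (`scale`). -/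
theorem int_sub (N : Submodule k V)
    (h : ∀ (E : V →ₗ[k] V) (c : Γ → k), (∀ γ y, y ∈ 𝒱 γ → E y = c γ • y) → ∀ x ∈ N, E x ∈ N) :
    DirectSum.IsInternal (fun γ => (𝒱 γ).comap N.subtype) := by
  classical
  rw [DirectSum.isInternal_submodule_iff_iSupIndep_and_iSup_eq_top]
  refine ⟨fun γ => ?_, ?_⟩
  · rw [Submodule.disjoint_def]
    intro x hx hx'
    have h1 : (x : V) ∈ ⨆ (j) (_ : j ≠ γ), 𝒱 j := by
      have h2 : (x : V) ∈ (⨆ (j) (_ : j ≠ γ), (𝒱 j).comap N.subtype).map N.subtype :=
        Submodule.mem_map_of_mem hx'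
      simp only [Submodule.map_iSup] at h2
      have h3 : (⨆ (j) (_ : j ≠ γ), ((𝒱 j).comap N.subtype).map N.subtype) ≤
          ⨆ (j) (_ : j ≠ γ), 𝒱 j :=
        iSup₂_mono fun j _ => Submodule.map_comap_le _ _
      exact h3 h2
    have h4 := Submodule.disjoint_def.1 (hV.submodule_iSupIndep γ) (x : V) hx h1
    exact Subtype.ext h4
  · rw [eq_top_iff]
    rintro ⟨x, hx⟩ -
    have h1 : x ∈ ⨆ γ, 𝒱 γ := by rw [hV.submodule_iSup_eq_top]; trivial
    obtain ⟨f, hf⟩ := (Submodule.mem_iSup_iff_exists_dfinsupp' 𝒱 x).1 h1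
    have h2 : ∀ γ, (f γ : V) ∈ N := by
      intro γ
      obtain ⟨E, hE⟩ := scale hV (fun δ => if δ = γ then (1 : k) else 0)
      have h3 : E x = f γ := by
        rw [← hf, DFinsupp.sum, map_sum]
        rw [Finset.sum_congr rfl fun δ _ => hE δ _ (f δ).2]
        simp only [ite_smul, one_smul, zero_smul, Finset.sum_ite_eq', DFinsupp.mem_support_toFun]
        split_ifs with h
        · rfl
        · rw [not_not] at h
          rw [h]
          rfl
      rw [← h3]
      exact h E _ hE x hx
    have h3 : (⟨x, hx⟩ : N) = ∑ γ ∈ f.support, ⟨(f γ : V), h2 γ⟩ := by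
      apply Subtype.ext
      rw [AddSubmonoidClass.coe_finsetSum]
      exact hf.symm
    rw [h3]
    refine Submodule.sum_mem _ fun γ _ => ?_
    exact Submodule.mem_iSup_of_mem γ (f γ).2

end

end GTC
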