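import Pool.Agent.GTC.A1

/-!
# [GTC-A5] homogeneous bases
-/

set_option autoImplicit false

open CategoryTheory Module

namespace GTC

section
variable {k Γ V W : Type} [Field k] [AddCommGroup Γ] [DecidableEq Γ] [AddCommGroup V] [Module k V]
  [AddCommGroup W] [Module k W] {𝒱 : Γ → Submodule k V} (hV : DirectSum.IsInternal 𝒱)
include hV

/-- [A5] homogeneous bases (`DirectSum.IsInternal.collectedBasis`, index set reindexed by `Fin n`) -/
theorem hbasis [FiniteDimensional k V] : ∃ (n : ℕ) (b : Basis (Fin n) k V) (φ : Fin n → Γ),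
    (∀ i, b i ∈ 𝒱 (φ i)) ∧
    ∀ γ, (Finset.univ.filter fun i => φ i = γ).card = finrank k (𝒱 γ) := by
  classical
  let b := hV.collectedBasis (fun γ => finBasis k (𝒱 γ))
  have : Fintype (Σ γ, Fin (finrank k (𝒱 γ))) := FiniteDimensional.fintypeBasisIndex b
  let e := Fintype.equivFin (Σ γ, Fin (finrank k (𝒱 γ)))
  refine ⟨Fintype.card (Σ γ, Fin (finrank k (𝒱 γ))), b.reindex e, fun i => (e.symm i).1, ?_, ?_⟩
  · intro i
    rw [Basis.reindex_apply]
    exact hV.collectedBasis_mem _ _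
  · intro γ
    rw [← Fintype.card_subtype]
    conv_rhs => rw [← Fintype.card_fin (finrank k (𝒱 γ))]
    refine (Fintype.card_of_bijective (f := fun j : Fin (finrank k (𝒱 γ)) =>
      (⟨e ⟨γ, j⟩, by simp⟩ : {i // (e.symm i).1 = γ})) ⟨?_, ?_⟩).symm
    · intro j j' h
      have h1 := e.injective (Subtype.ext_iff.1 h)
      simpa using h1
    · rintro ⟨i, hi⟩
      subst hi
      exact ⟨(e.symm i).2, Subtype.ext (e.apply_symm_apply i)⟩

/-- [A5] (`WellFoundedGT.finite_ne_bot_of_iSupIndep`) -/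
theorem fin_ne [FiniteDimensional k V] : {γ | 𝒱 γ ≠ ⊥}.Finite :=
  WellFoundedGT.finite_ne_bot_of_iSupIndep hV.submodule_iSupIndep

/-- [A5] (from `hbasis`) -/
theorem finrank_sum [FiniteDimensional k V] (S : Finset Γ) (hS : ∀ γ, 𝒱 γ ≠ ⊥ → γ ∈ S) :
    ∑ γ ∈ S, finrank k (𝒱 γ) = finrank k V := by
  classical
  obtain ⟨n, b, φ, hb, hc⟩ := hbasis hV
  have hφ : ∀ i, φ i ∈ S := by
    intro i
    refine hS _ fun h0 => b.ne_zero i ?_
    have h1 := hb i
    rw [h0, Submodule.mem_bot] at h1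
    exact h1
  rw [finrank_eq_card_basis b, ← Finset.card_univ,
    Finset.card_eq_sum_card_fiberwise (f := φ) (t := S) fun i _ => hφ i]
  exact Finset.sum_congr rfl fun γ _ => (hc γ).symm

end

end GTC
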