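import Pool.Agent.GTC.A1

/-!
# [GTC-A7] homogeneous linear forms
-/

set_option autoImplicit false

open CategoryTheory Module

namespace GTC

section
variable {k Γ V W : Type} [Field k] [AddCommGroup Γ] [DecidableEq Γ] [AddCommGroup V] [Module k V]
  [AddCommGroup W] [Module k W] {𝒱 : Γ → Submodule k V} (hV : DirectSum.IsInternal 𝒱)
include hV

/-- a linear map on one component, extended by zero -/
private theorem a7_one (η : Γ) (f : 𝒱 η →ₗ[k] W) : ∃ F : V →ₗ[k] W, (∀ x : 𝒱 η, F x = f x) ∧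
    ∀ γ, γ ≠ η → ∀ x ∈ 𝒱 γ, F x = 0 := by
  obtain ⟨F, hF⟩ := glue hV (fun γ => if h : γ = η then (f ∘ₗ (LinearEquiv.ofEq _ _ (by rw [h])).toLinearMap :
    𝒱 γ →ₗ[k] W) else 0)
  refine ⟨F, fun x => ?_, fun γ hγ x hx => ?_⟩
  · rw [hF η x, dif_pos rfl]
    rfl
  · have := hF γ ⟨x, hx⟩
    rw [dif_neg hγ] at this
    exact this

/-- [A7] the restriction to `𝒱 η` is an isomorphism of `Du 𝒱 η` with the dual of `𝒱 η` (`glue`, `gext`) -/
theorem finrank_Du [FiniteDimensional k V] (η : Γ) : finrank k (Du 𝒱 η) = finrank k (𝒱 η) := by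
  let R : Du 𝒱 η →ₗ[k] Module.Dual k (𝒱 η) :=
    { toFun := fun l => l.1 ∘ₗ (𝒱 η).subtype
      map_add' := fun l l' => rfl
      map_smul' := fun c l => rfl }
  have hR : Function.Bijective R := by
    constructor
    · intro l l' h
      apply Subtype.ext
      apply gext hV
      intro γ x hx
      by_cases hγ : γ = η
      · subst hγ
        exact LinearMap.congr_fun h ⟨x, hx⟩
      · rw [l.2 γ hγ x hx, l'.2 γ hγ x hx]
    · intro f
      obtain ⟨F, hF, hF0⟩ := a7_one hV η f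
      exact ⟨⟨F, fun γ hγ x hx => hF0 γ hγ x hx⟩, LinearMap.ext fun x => hF x⟩
  rw [(LinearEquiv.ofBijective R hR).finrank_eq]
  exact Subspace.dual_finrank_eq

/-- [A7] homogeneous linear forms extend.
PROOF. `l` restricted to `𝒱 η`; `j` restricts to an injection `𝒱 η → 𝒲 η`; extend the form to `𝒲 η` (vector spaces) and by zero on the other components (`glue`); `gext`. -/
theorem Du_ext {𝒲 : Γ → Submodule k W} (hW : DirectSum.IsInternal 𝒲) (j : V →ₗ[k] W)
    (hj : Function.Injective j) (hg : ∀ γ x, x ∈ 𝒱 γ → j x ∈ 𝒲 γ) (η : Γ) (l : V →ₗ[k] k)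
    (hl : l ∈ Du 𝒱 η) : ∃ l' ∈ Du 𝒲 η, ∀ x, l' (j x) = l x := by
  let jη : 𝒱 η →ₗ[k] 𝒲 η := (j ∘ₗ (𝒱 η).subtype).codRestrict (𝒲 η) fun x => hg η x x.2
  have hjη : LinearMap.ker jη = ⊥ := by
    rw [LinearMap.ker_eq_bot]
    intro x y h
    exact Subtype.ext (hj (congrArg Subtype.val h))
  obtain ⟨r, hr⟩ := jη.exists_leftInverse_of_injective hjη
  obtain ⟨F, hF, hF0⟩ := a7_one hW η ((l ∘ₗ (𝒱 η).subtype) ∘ₗ r)
  refine ⟨F, fun γ hγ x hx => hF0 γ hγ x hx, fun x => ?_⟩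
  have : F ∘ₗ j = l := by
    apply gext hV
    intro γ x hx
    rw [LinearMap.comp_apply]
    by_cases hγ : γ = η
    · subst hγ
      have h1 := hF (jη ⟨x, hx⟩)
      have h2 : r (jη ⟨x, hx⟩) = ⟨x, hx⟩ := LinearMap.congr_fun hr ⟨x, hx⟩
      rw [LinearMap.comp_apply, h2] at h1
      exact h1
    · rw [hF0 γ hγ _ (hg γ x hx), hl γ hγ x hx]
  exact LinearMap.congr_fun this x

end

end GTC
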