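import Pool.Agent.GTC.A1

/-!
# [GTC-A9] graded surjections and injections
-/

set_option autoImplicit false

open CategoryTheory Module

namespace GTC

section
variable {k Γ V W : Type} [Field k] [AddCommGroup Γ] [DecidableEq Γ] [AddCommGroup V] [Module k V]
  [AddCommGroup W] [Module k W] {𝒱 : Γ → Submodule k V} (hV : DirectSum.IsInternal 𝒱)
include hV

omit [AddCommGroup Γ] in
private theorem a9_mem (γ : Γ) (E : V →ₗ[k] V)
    (hE : ∀ δ x, x ∈ 𝒱 δ → E x = (if δ = γ then (1 : k) else 0) • x) (x : V) : E x ∈ 𝒱 γ := by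
  have h1 : ⨆ δ, 𝒱 δ ≤ (𝒱 γ).comap E := by
    refine iSup_le fun δ y hy => ?_
    rw [Submodule.mem_comap, hE δ y hy]
    split_ifs with h
    · subst h
      rw [one_smul]
      exact hy
    · rw [zero_smul]
      exact Submodule.zero_mem _
  rw [hV.submodule_iSup_eq_top] at h1
  exact h1 Submodule.mem_top

/-- [A9] a graded surjection is surjective on the components.
PROOF. `y = p x`; with the scalings by the indicator function of `γ` (`scale`) `E`, `E'` on `V` and `W`, `p ∘ E = E' ∘ p` (`gext`), so `y = E' y = p (E x)`; `E x ∈ 𝒱 γ` (the range of `E` is in `𝒱 γ`: `V = ⨆ 𝒱 γ`). -/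
theorem gsurj {𝒲 : Γ → Submodule k W} (hW : DirectSum.IsInternal 𝒲) (p : V →ₗ[k] W)
    (hp : Function.Surjective p) (hg : ∀ γ x, x ∈ 𝒱 γ → p x ∈ 𝒲 γ) {γ : Γ} {y : W}
    (hy : y ∈ 𝒲 γ) : ∃ x ∈ 𝒱 γ, p x = y := by
  obtain ⟨E, hE⟩ := scale hV (fun δ => if δ = γ then (1 : k) else 0)
  obtain ⟨E', hE'⟩ := scale hW (fun δ => if δ = γ then (1 : k) else 0)
  obtain ⟨x, rfl⟩ := hp y
  have h1 : p ∘ₗ E = E' ∘ₗ p := by
    apply gext hV
    intro δ z hz
    rw [LinearMap.comp_apply, LinearMap.comp_apply, hE δ z hz, map_smul, hE' δ _ (hg δ z hz)]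
  refine ⟨E x, a9_mem hV γ E hE x, ?_⟩
  have h2 := LinearMap.congr_fun h1 x
  rw [LinearMap.comp_apply, LinearMap.comp_apply, hE' γ _ hy, if_pos rfl, one_smul] at h2
  exact h2

/-- [A9] a graded injection reflects homogeneity.
PROOF. with the scalings `E` on `V` and `E'` on `W` by the indicator function of `γ`: `j (E x) = E' (j x) = j x`, so `x = E x ∈ 𝒱 γ`. -/
theorem ginj {𝒲 : Γ → Submodule k W} (hW : DirectSum.IsInternal 𝒲) (j : V →ₗ[k] W)
    (hj : Function.Injective j) (hg : ∀ γ x, x ∈ 𝒱 γ → j x ∈ 𝒲 γ) {γ : Γ} {x : V}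
    (hx : j x ∈ 𝒲 γ) : x ∈ 𝒱 γ := by
  obtain ⟨E, hE⟩ := scale hV (fun δ => if δ = γ then (1 : k) else 0)
  obtain ⟨E', hE'⟩ := scale hW (fun δ => if δ = γ then (1 : k) else 0)
  have h1 : j ∘ₗ E = E' ∘ₗ j := by
    apply gext hV
    intro δ z hz
    rw [LinearMap.comp_apply, LinearMap.comp_apply, hE δ z hz, map_smul, hE' δ _ (hg δ z hz)]
  have h2 := LinearMap.congr_fun h1 x
  rw [LinearMap.comp_apply, LinearMap.comp_apply, hE' γ _ hx, if_pos rfl, one_smul] at h2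
  rw [← hj h2]
  exact a9_mem hV γ E hE x

end

end GTC
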