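import Pool.Agent.GTC.A1

/-!
# [GTC-B1] free graded modules
-/

set_option autoImplicit false

open CategoryTheory Module

namespace GTC

section
variable {k Γ A : Type} [Field k] [AddCommGroup Γ] [DecidableEq Γ] [Ring A] [Algebra k A]
  {𝒜 : Γ → Submodule k A} {ε : Γ → Γ → k} {w : Γ →+ ℤ}

private theorem b1_int {V : Type} [AddCommGroup V] [Module k V] (p : Γ → Submodule k V) (E : Γ → V →ₗ[k] V)
    (h1 : ∀ γ, ∀ x ∈ p γ, E γ x = x) (h2 : ∀ γ δ, δ ≠ γ → ∀ x ∈ p δ, E γ x = 0) (htop : ⨆ γ, p γ = ⊤) :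
    DirectSum.IsInternal p := by
  rw [DirectSum.isInternal_submodule_iff_iSupIndep_and_iSup_eq_top]
  refine ⟨fun γ => ?_, htop⟩
  rw [Submodule.disjoint_def]
  intro x hx hx'
  have h3 : ⨆ (δ : Γ) (_ : δ ≠ γ), p δ ≤ LinearMap.ker (E γ) :=
    iSup₂_le fun δ hδ y hy => h2 γ δ hδ y hy
  have h4 := h3 hx'
  rw [LinearMap.mem_ker, h1 γ x hx] at h4
  exact h4

/-- [B1] PROOF. the component of degree `γ` of `v` is `i ↦` the component of degree `γ - φ i` of `v i`. -/
theorem fr_int (h : DirectSum.IsInternal 𝒜) {n : ℕ} (φ : Fin n → Γ) :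
    DirectSum.IsInternal (frGr 𝒜 φ) := by
  choose P hP using fun γ : Γ => scale h (fun δ => if δ = γ then (1 : k) else 0)
  refine b1_int (frGr 𝒜 φ) (fun γ => LinearMap.pi fun i => P (γ - φ i) ∘ₗ LinearMap.proj i) ?_ ?_ ?_
  · intro γ v hv
    funext i
    rw [LinearMap.pi_apply, LinearMap.comp_apply, LinearMap.proj_apply, hP _ _ _ (hv i), if_pos rfl, one_smul]
  · intro γ δ hδ v hv
    funext i
    rw [LinearMap.pi_apply, LinearMap.comp_apply, LinearMap.proj_apply, hP _ _ _ (hv i), if_neg, zero_smul]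
    · rfl
    · exact fun h => hδ (sub_left_injective h)
  · rw [eq_top_iff]
    rintro v -
    have h1 : ∀ i (a : A), Pi.single i a ∈ ⨆ γ, frGr 𝒜 φ γ := by
      intro i a
      have h2 : ⨆ γ, 𝒜 γ ≤ (⨆ γ, frGr 𝒜 φ γ).comap (LinearMap.single k (fun _ : Fin n => A) i) := by
        refine iSup_le fun γ b hb => ?_
        rw [Submodule.mem_comap, LinearMap.coe_single]
        refine Submodule.mem_iSup_of_mem (γ + φ i) ?_
        rw [mem_frGr]
        intro j
        by_cases hj : j = i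
        · subst hj
          rw [Pi.single_eq_same, add_sub_cancel_right]
          exact hb
        · rw [Pi.single_eq_of_ne hj]
          exact Submodule.zero_mem _
      rw [h.submodule_iSup_eq_top] at h2
      exact h2 (Submodule.mem_top (x := a))
    have h3 : v = ∑ i, Pi.single i (v i) := (Finset.univ_sum_single v).symm
    rw [h3]
    exact Submodule.sum_mem _ fun i _ => h1 i (v i)

/-- [B1] (`frGr 𝒜 φ γ` is the product of the `𝒜 (γ - φ i)`) -/
theorem finrank_fr [FiniteDimensional k A] {n : ℕ} (φ : Fin n → Γ) (γ : Γ) :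
    finrank k (frGr 𝒜 φ γ) = ∑ i, finrank k (𝒜 (γ - φ i)) := by
  let e : frGr 𝒜 φ γ ≃ₗ[k] ((i : Fin n) → 𝒜 (γ - φ i)) :=
    { toFun := fun v i => ⟨v.1 i, v.2 i⟩
      invFun := fun v => ⟨fun i => (v i : A), fun i => (v i).2⟩
      left_inv := fun v => rfl
      right_inv := fun v => rfl
      map_add' := fun v v' => rfl
      map_smul' := fun c v => rfl }
  rw [e.finrank_eq, finrank_pi_fintype]

end

end GTC
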