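import Pool.Agent.GTC.A7

/-!
# [GTC-B2] the graded dual
-/

set_option autoImplicit false

open CategoryTheory Module

namespace GTC

section
variable {k Γ A : Type} [Field k] [AddCommGroup Γ] [DecidableEq Γ] [Ring A] [Algebra k A]
  {𝒜 : Γ → Submodule k A} {ε : Γ → Γ → k} {w : Γ →+ ℤ}

omit [AddCommGroup Γ] in
private theorem b2_int {V : Type} [AddCommGroup V] [Module k V] (p : Γ → Submodule k V) (E : Γ → V →ₗ[k] V)
    (h1 : ∀ γ, ∀ x ∈ p γ, E γ x = x) (h2 : ∀ γ δ, δ ≠ γ → ∀ x ∈ p δ, E γ x = 0) (htop : ⨆ γ, p γ = ⊤) :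
    DirectSum.IsInternal p := by
  rw [DirectSum.isInternal_submodule_iff_iSupIndep_and_iSup_eq_top]
  refine ⟨fun γ => ?_, htop⟩
  rw [Submodule.disjoint_def]
  intro x hx hx'
  have h3 : ⨆ (δ : Γ) (_ : δ ≠ γ), p δ ≤ LinearMap.ker (E γ) :=
    iSup₂_le fun δ hδ y hy => h2 γ δ hδ y hy
  have h4 := h3 hx'
  rw [LinearMap.mem_ker, h1 γ x hx] at h4
  exact h4

/-- the equivalence of `D(A)` with the linear forms, linear -/
private noncomputable def b2_eq : NTC.DD k A ≃ₗ[k] (A →ₗ[k] k) where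
  toFun := NTC.DD.toFun
  invFun := NTC.DD.mk
  left_inv _ := rfl
  right_inv _ := rfl
  map_add' _ _ := rfl
  map_smul' _ _ := rfl

/-- precomposition -/
private noncomputable def b2_pre (P : A →ₗ[k] A) : NTC.DD k A →ₗ[k] NTC.DD k A where
  toFun ζ := ⟨ζ.toFun ∘ₗ P⟩
  map_add' _ _ := rfl
  map_smul' _ _ := rfl

/-- [B2] PROOF. `ζ ↦ ζ ∘ E`, `E` the scaling by the indicator function of `-γ`, is the projection to the component of degree `γ`; only finitely many components of `A` are nonzero (`WellFoundedGT.finite_ne_bot_of_iSupIndep`). -/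
theorem om_int (h : DirectSum.IsInternal 𝒜) [FiniteDimensional k A] :
    DirectSum.IsInternal (omGr 𝒜) := by
  choose P hP using fun γ : Γ => scale h (fun δ => if δ = γ then (1 : k) else 0)
  have hfin : {γ | 𝒜 γ ≠ ⊥}.Finite := WellFoundedGT.finite_ne_bot_of_iSupIndep h.submodule_iSupIndep
  have hmem : ∀ γ (ζ : NTC.DD k A), b2_pre (P (-γ)) ζ ∈ omGr 𝒜 γ := by
    intro γ ζ
    rw [mem_omGr]
    intro ν a ha hν
    change ζ.toFun (P (-γ) a) = 0
    rw [hP (-γ) ν a ha, if_neg hν, zero_smul, map_zero]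
  refine b2_int (omGr 𝒜) (fun γ => b2_pre (P (-γ))) ?_ ?_ ?_
  · intro γ ζ hζ
    rw [mem_omGr] at hζ
    apply NTC.DD.ext'
    have h1 : ζ.toFun ∘ₗ P (-γ) = ζ.toFun := by
      apply gext h
      intro ν a ha
      rw [LinearMap.comp_apply, hP (-γ) ν a ha]
      split_ifs with hν
      · rw [one_smul]
      · rw [zero_smul, map_zero, hζ ν a ha hν]
    exact fun x => LinearMap.congr_fun h1 x
  · intro γ δ hδ ζ hζ
    rw [mem_omGr] at hζ
    apply NTC.DD.ext'
    have h1 : ζ.toFun ∘ₗ P (-γ) = 0 := by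
      apply gext h
      intro ν a ha
      rw [LinearMap.comp_apply, hP (-γ) ν a ha, LinearMap.zero_apply]
      split_ifs with hν
      · rw [one_smul]
        refine hζ ν a ha fun h2 => hδ ?_
        rw [hν] at h2
        exact (neg_injective h2).symm
      · rw [zero_smul, map_zero]
    exact fun x => LinearMap.congr_fun h1 x
  · rw [eq_top_iff]
    rintro ζ -
    have h1 : ζ = ∑ γ ∈ hfin.toFinset, b2_pre (P (- -γ)) ζ := by
      have h2 : ζ.toFun = ∑ γ ∈ hfin.toFinset, ζ.toFun ∘ₗ P (- -γ) := by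
        apply gext h
        intro ν a ha
        rw [LinearMap.sum_apply]
        by_cases hν : 𝒜 ν = ⊥
        · rw [hν, Submodule.mem_bot] at ha
          rw [ha, map_zero]
          refine (Finset.sum_eq_zero fun γ _ => ?_).symm
          rw [map_zero]
        · rw [Finset.sum_eq_single ν]
          · rw [LinearMap.comp_apply, hP _ ν a ha, if_pos (neg_neg ν).symm, one_smul]
          · intro γ _ hγ
            rw [LinearMap.comp_apply, hP _ ν a ha, if_neg, zero_smul, map_zero]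
            rw [neg_neg]
            exact hγ.symm
          · intro hn
            exact absurd (hfin.mem_toFinset.2 hν) hn
      have h3 : b2_eq ζ = b2_eq (∑ γ ∈ hfin.toFinset, b2_pre (P (- -γ)) ζ) := by
        rw [map_sum]
        exact h2
      exact b2_eq.injective h3
    rw [h1]
    exact Submodule.sum_mem _ fun γ _ => Submodule.mem_iSup_of_mem (-γ) (hmem (-γ) ζ)

/-- [B2] (`DD k A` is linearly equivalent to the dual of `A`: `NTC.DD.eq`) -/
instance dd_fin [FiniteDimensional k A] : FiniteDimensional k (NTC.DD k A) :=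
  Module.Finite.equiv (b2_eq (k := k) (A := A)).symm

/-- [B2] (`omGr 𝒜 γ` is `Du 𝒜 (-γ)`, `finrank_Du`) -/
theorem finrank_omGr (h : DirectSum.IsInternal 𝒜) [FiniteDimensional k A] (γ : Γ) :
    finrank k (omGr 𝒜 γ) = finrank k (𝒜 (-γ)) := by
  rw [← finrank_Du h (-γ)]
  let e : omGr 𝒜 γ ≃ₗ[k] Du 𝒜 (-γ) :=
    { toFun := fun ζ => ⟨ζ.1.toFun, fun ν hν a ha => ζ.2 ν a ha hν⟩
      invFun := fun l => ⟨⟨l.1⟩, fun ν a ha hν => l.2 ν hν a ha⟩
      left_inv := fun _ => rfl
      right_inv := fun _ => rfl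
      map_add' := fun _ _ => rfl
      map_smul' := fun _ _ => rfl }
  exact e.finrank_eq

end

end GTC
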