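import Pool.Agent.GTC.A5
import Pool.Agent.GTC.A9
import Pool.Agent.GTC.A4
import Pool.Agent.GTC.B1
import Pool.Agent.GTC.B2

/-!
# [GTC-B] free modules and the dual (definitions, complete, no row)
-/

set_option autoImplicit false

open CategoryTheory Module

namespace GTC

section
variable {k Γ A : Type} [Field k] [AddCommGroup Γ] [DecidableEq Γ] [Ring A] [Algebra k A]
  {𝒜 : Γ → Submodule k A} {ε : Γ → Γ → k} {w : Γ →+ ℤ}

/-- the free module with generators of degrees `φ i` -/
def fr (hA : GA 𝒜 ε w) [FiniteDimensional k A] {n : ℕ} (φ : Fin n → Γ) : GM 𝒜 where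
  M := Fin n → A
  gr := frGr 𝒜 φ
  int := fr_int hA.int φ
  smul {α μ a m} ha hm i := by
    rw [add_sub_assoc]
    exact hA.mul ha (hm i)

/-- the module `D(A)` -/
def om (hA : GA 𝒜 ε w) [FiniteDimensional k A] : GM 𝒜 where
  M := NTC.DD k A
  gr := omGr 𝒜
  int := om_int hA.int
  smul {α μ a ζ} ha hζ ν b hb hν := by
    rw [NTC.DD.smul_toFun]
    refine hζ (ν + α) (b * a) (hA.mul hb ha) fun h => hν ?_
    rw [← eq_sub_iff_add_eq] at h
    rw [h]
    abel

/-- scalars in the second variable of a commutation factor -/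
theorem CF.add' (h : CF ε) (a b c : Γ) : ε a (b + c) = ε a b * ε a c := by
  have h1 := h.inv (b + c) a
  rw [h.add] at h1
  have h2 := h.inv b a
  have h3 := h.inv c a
  have h4 : ε b a * ε c a ≠ 0 := left_ne_zero_of_mul (a := ε b a * ε c a) (b := ε a (b + c))
    (by rw [h1]; exact one_ne_zero)
  apply mul_left_cancel₀ h4
  rw [h1]
  calc (1 : k) = (ε b a * ε a b) * (ε c a * ε a c) := by rw [h2, h3, one_mul]
    _ = ε b a * ε c a * (ε a b * ε a c) := by ring

theorem CF.ne (h : CF ε) (a b : Γ) : ε a b ≠ 0 :=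
  left_ne_zero_of_mul (by rw [h.inv a b]; exact one_ne_zero)

theorem CF.zl (h : CF ε) (a : Γ) : ε 0 a = 1 := by
  have h1 := h.add 0 0 a
  rw [add_zero] at h1
  exact (mul_eq_left₀ (h.ne 0 a)).1 h1.symm

theorem CF.zr (h : CF ε) (a : Γ) : ε a 0 = 1 := by
  have h1 := h.inv a 0
  rw [h.zl, mul_one] at h1
  exact h1

theorem CF.neg (h : CF ε) (a b : Γ) : ε (-a) b = ε b a := by
  have h1 := h.add (-a) a b
  rw [neg_add_cancel, h.zl] at h1
  have h2 := h.inv a b
  have h3 := h.ne a b
  apply mul_right_cancel₀ h3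
  rw [← h1, mul_comm, h2]

theorem CF.neg' (h : CF ε) (a b : Γ) : ε a (-b) = ε b a := by
  have h1 := h.inv a (-b)
  rw [h.neg] at h1
  have h2 := h.inv a b
  have h3 := h.ne a b
  apply mul_right_cancel₀ h3
  rw [h1, mul_comm, h2]

end

end GTC
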