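import Pool.Agent.GTC.B

/-!
# [GTC-B3] kernels of graded surjections
-/

set_option autoImplicit false

open CategoryTheory Module

namespace GTC

section
variable {k Γ A : Type} [Field k] [AddCommGroup Γ] [DecidableEq Γ] [Ring A] [Algebra k A]
  {𝒜 : Γ → Submodule k A} {ε : Γ → Γ → k} {w : Γ →+ ℤ}

/-- [B3] kernels.
PROOF. `Y` is the kernel of `p` with the components `Y ∩ F.gr γ` (`int_sub`: if `E`, `E'` are the scalings of `F` and `M` by the same `c` then `p ∘ E = E' ∘ p` (`gext`), and a linear map `E` with `E y = c γ • y` on the components is this one). -/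
theorem ses_of_surj (F M : GM 𝒜) (p : F.M →ₗ[A] M.M) (hp : Function.Surjective p)
    (hg : ∀ γ x, x ∈ F.gr γ → p x ∈ M.gr γ) : ∃ (Y : GM 𝒜) (s : Ses Y F M), s.p = p := by
  have hint : DirectSum.IsInternal (fun γ => (F.gr γ).comap ((LinearMap.ker p).restrictScalars k).subtype) := by
    refine int_sub F.int _ fun E c hE x hx => ?_
    obtain ⟨E', hE'⟩ := scale M.int c
    have h1 : (p.restrictScalars k) ∘ₗ E = E' ∘ₗ (p.restrictScalars k) := by
      apply gext F.int
      intro δ z hz
      rw [LinearMap.comp_apply, LinearMap.comp_apply, hE δ z hz, map_smul]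
      exact (hE' δ _ (hg δ z hz)).symm
    have h2 := LinearMap.congr_fun h1 x
    have h3 : p x = 0 := hx
    have h4 : p (E x) = E' (p x) := h2
    rw [h3, map_zero] at h4
    exact h4
  let _ : Module k (LinearMap.ker p) := Submodule.module' _
  have hfin : FiniteDimensional k (LinearMap.ker p) :=
    inferInstanceAs (FiniteDimensional k ((LinearMap.ker p).restrictScalars k))
  have htow : IsScalarTower k A (LinearMap.ker p) := ⟨fun c a x => Subtype.ext (smul_assoc c a x.1)⟩
  let Y : GM 𝒜 :=
    { M := LinearMap.ker p
      acg := Submodule.addCommGroup _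
      modk := Submodule.module' _
      modA := Submodule.module _
      tow := htow
      fin := hfin
      gr := fun γ => (F.gr γ).comap ((LinearMap.ker p).restrictScalars k).subtype
      int := hint
      smul := fun {α μ a m} ha hm => F.smul ha hm }
  let s : Ses Y F M :=
    { i := (LinearMap.ker p).subtype
      p := p
      inj := Subtype.val_injective
      sur := hp
      ex := Submodule.range_subtype _
      gi := fun {γ x} hx => hx
      gp := fun {γ x} hx => hg γ x hx }
  exact ⟨Y, s, rfl⟩

end

end GTC
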