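import Pool.Agent.GTC.B3

/-!
# [GTC-B4] covers
-/

set_option autoImplicit false

open CategoryTheory Module

namespace GTC

section
variable {k Γ A : Type} [Field k] [AddCommGroup Γ] [DecidableEq Γ] [Ring A] [Algebra k A]
  {𝒜 : Γ → Submodule k A} {ε : Γ → Γ → k} {w : Γ →+ ℤ}

/-- [B4] covers.
PROOF. Let `b i` be a homogeneous basis of `X`, of degrees `φ i` (`hbasis`), `p v = ∑ i, v i • b i` and `Y` the kernel (`ses_of_surj`). Let `c ≤ w γ` for the degrees `γ` of `X`; so `c ≤ w (φ i)` for all `i`. Let `0 ≠ x ∈ Y.gr γ`, `v = i x`,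
so `v i ∈ 𝒜 (γ - φ i)`. Suppose `w γ ≤ c`. If `v i ≠ 0` and `γ ≠ φ i` then `w (γ - φ i) > 0` (`hA.pos`), contradiction; so if `v i ≠ 0` then `γ = φ i`, `v i ∈ 𝒜 0`, so `v i` is a scalar `c i` (`hA.zero`) (also if `v i = 0`). So `∑ c i • b i = 0`,
so `c i = 0` for all `i` and `v = 0`, contradiction. -/
theorem cover (hA : GA 𝒜 ε w) [FiniteDimensional k A] (X : GM 𝒜) :
    ∃ (n : ℕ) (φ : Fin n → Γ) (Y : GM 𝒜) (_ : Ses Y (fr hA φ) X),
      (∀ γ, (Finset.univ.filter fun i => φ i = γ).card = finrank k (X.gr γ)) ∧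
      ∀ c, Wt w c X → Wt w (c + 1) Y := by
  obtain ⟨n, b, φ, hb, hcard⟩ := hbasis X.int
  let p : (fr hA φ).M →ₗ[A] X.M :=
    { toFun := fun v : Fin n → A => ∑ i, v i • b i
      map_add' := fun v v' => by
        change ∑ i, (v i + v' i) • b i = _
        rw [← Finset.sum_add_distrib]
        exact Finset.sum_congr rfl fun i _ => add_smul _ _ _
      map_smul' := fun a v => by
        change ∑ i, (a * v i) • b i = a • ∑ i, v i • b i
        rw [Finset.smul_sum]
        exact Finset.sum_congr rfl fun i _ => mul_smul _ _ _ }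
  have hpdef : ∀ v : Fin n → A, p v = ∑ i, v i • b i := fun v => rfl
  have hp : Function.Surjective p := by
    intro x
    refine ⟨(fun i => algebraMap k A (b.repr x i) : Fin n → A), ?_⟩
    rw [hpdef]
    conv_rhs => rw [← b.sum_repr x]
    exact Finset.sum_congr rfl fun i _ => algebraMap_smul A _ _
  have hg : ∀ γ x, x ∈ (fr hA φ).gr γ → p x ∈ X.gr γ := by
    intro γ v hv
    have hv' : ∀ i, (v : Fin n → A) i ∈ 𝒜 (γ - φ i) := hv
    change ∑ i, (v : Fin n → A) i • b i ∈ X.gr γ
    refine Submodule.sum_mem _ fun i _ => ?_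
    have h1 := X.smul (hv' i) (hb i)
    rw [sub_add_cancel] at h1
    exact h1
  obtain ⟨Y, s, hs⟩ := ses_of_surj (fr hA φ) X p hp hg
  refine ⟨n, φ, Y, s, hcard, fun c hc γ hγ => ?_⟩
  by_contra hlt
  rw [not_le] at hlt
  apply hγ
  rw [eq_bot_iff]
  intro x hx
  rw [Submodule.mem_bot]
  have hφ : ∀ i, c ≤ w (φ i) := by
    intro i
    refine hc (φ i) fun h0 => ?_
    have h1 := hb i
    rw [h0, Submodule.mem_bot] at h1
    exact b.ne_zero i h1
  have hv : ∀ i, (s.i x : Fin n → A) i ∈ 𝒜 (γ - φ i) := s.gi hx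
  set v : Fin n → A := s.i x with hvdef
  have hsc : ∀ i, ∃ e : k, v i = algebraMap k A e := by
    intro i
    by_cases h0 : v i = 0
    · exact ⟨0, by rw [h0, map_zero]⟩
    · have h1 : 𝒜 (γ - φ i) ≠ ⊥ := by
        intro h2
        have h3 := hv i
        rw [h2, Submodule.mem_bot] at h3
        exact h0 h3
      by_cases h4 : γ - φ i = 0
      · have h5 := hv i
        rw [h4] at h5
        exact hA.zero _ h5
      · have h6 := hA.pos _ h4 h1
        rw [map_sub] at h6
        have h7 := hφ i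
        omega
  choose e he using hsc
  have hpx : p (s.i x) = 0 := by
    have h1 : s.i x ∈ LinearMap.ker s.p := by
      rw [← s.ex]
      exact ⟨x, rfl⟩
    rw [hs] at h1
    exact h1
  have h8 : ∑ i, e i • b i = 0 := by
    have h9 : p (s.i x) = ∑ i, v i • b i := hpdef v
    rw [← hpx, h9]
    refine Finset.sum_congr rfl fun i _ => ?_
    rw [he i, algebraMap_smul]
  have h10 : ∀ i, e i = 0 := by
    have h11 := b.linearIndependent
    rw [Fintype.linearIndependent_iff] at h11
    exact h11 e h8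
  have h12 : s.i x = 0 := by
    change v = 0
    funext i
    rw [he i, h10 i, map_zero]
    rfl
  exact s.inj (by rw [h12, map_zero])

end

end GTC
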