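import Pool.Agent.GTC.B

/-!
# [GTC-B5a] dimensions of the components
-/

set_option autoImplicit false

open CategoryTheory Module

namespace GTC

section
variable {k Γ A : Type} [Field k] [AddCommGroup Γ] [DecidableEq Γ] [Ring A] [Algebra k A]
  {𝒜 : Γ → Submodule k A} {ε : Γ → Γ → k} {w : Γ →+ ℤ}

/-- [B5a] (`gsurj`, `ginj`: the sequence of the components is exact) -/
theorem finrank_gr {X F M : GM 𝒜} (s : Ses X F M) (γ : Γ) :
    finrank k (F.gr γ) = finrank k (X.gr γ) + finrank k (M.gr γ) := by
  let pK : F.M →ₗ[k] M.M := s.p.restrictScalars k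
  let iK : X.M →ₗ[k] F.M := s.i.restrictScalars k
  have hp : ∀ f, pK f = s.p f := fun _ => rfl
  have hi : ∀ x, iK x = s.i x := fun _ => rfl
  -- the maps of the components
  let pg : F.gr γ →ₗ[k] M.gr γ := (pK.comp (F.gr γ).subtype).codRestrict (M.gr γ)
    (fun f => s.gp f.2)
  let ig : X.gr γ →ₗ[k] F.gr γ := (iK.comp (X.gr γ).subtype).codRestrict (F.gr γ)
    (fun x => s.gi x.2)
  have hpg : ∀ f : F.gr γ, ((pg f : M.gr γ) : M.M) = s.p (f : F.M) := fun _ => rfl
  have hig : ∀ x : X.gr γ, ((ig x : F.gr γ) : F.M) = s.i (x : X.M) := fun _ => rfl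
  have hsur : Function.Surjective pg := by
    intro m
    obtain ⟨f, hf, hfm⟩ := gsurj F.int M.int pK s.sur (fun _ _ hx => s.gp hx) m.2
    refine ⟨⟨f, hf⟩, ?_⟩
    apply Subtype.ext
    exact hfm
  have hinj : Function.Injective ig := by
    intro x y hxy
    apply Subtype.ext
    apply s.inj
    have := congrArg Subtype.val hxy
    exact this
  have hker : LinearMap.ker pg = LinearMap.range ig := by
    ext f
    rw [LinearMap.mem_ker, LinearMap.mem_range]
    constructor
    · intro h
      have h1 : s.p (f : F.M) = 0 := by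
        rw [← hpg, h]
        rfl
      have h2 : (f : F.M) ∈ LinearMap.range s.i := by
        rw [s.ex, LinearMap.mem_ker]
        exact h1
      obtain ⟨x, hx⟩ := h2
      have h3 : x ∈ X.gr γ := by
        refine ginj X.int F.int iK s.inj (fun _ _ hx => s.gi hx) ?_
        show s.i x ∈ F.gr γ
        rw [hx]
        exact f.2
      refine ⟨⟨x, h3⟩, ?_⟩
      apply Subtype.ext
      exact hx
    · rintro ⟨x, rfl⟩
      apply Subtype.ext
      show s.p (s.i (x : X.M)) = 0
      have : s.i (x : X.M) ∈ LinearMap.ker s.p := by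
        rw [← s.ex]
        exact ⟨_, rfl⟩
      exact this
  have h1 := LinearMap.finrank_range_add_finrank_ker pg
  rw [LinearMap.range_eq_top.mpr hsur, finrank_top, hker,
    LinearMap.finrank_range_of_inj hinj] at h1
  omega

end


end GTC
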