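import Pool.Agent.GTC.B5a

/-!
# [GTC-B5b] dimensions of the components
-/

set_option autoImplicit false

open CategoryTheory Module

namespace GTC

section
variable {k Γ A : Type} [Field k] [AddCommGroup Γ] [DecidableEq Γ] [Ring A] [Algebra k A]
  {𝒜 : Γ → Submodule k A} {ε : Γ → Γ → k} {w : Γ →+ ℤ}

/-- [B5b] the weights of `D(A)` are bounded below (`fin_ne`: only finitely many components are nonzero) -/
theorem om_wt (hA : GA 𝒜 ε w) [FiniteDimensional k A] : ∃ c : ℤ, Wt w c (om hA) := by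
  have hfin := fin_ne (om hA).int
  obtain ⟨c, hc⟩ := (hfin.image (fun γ => w γ)).bddBelow
  refine ⟨c, fun γ hγ => ?_⟩
  exact hc ⟨γ, hγ, rfl⟩

/-- [B5b] homogeneous elements lift -/
theorem Ses.lift {X F M : GM 𝒜} (s : Ses X F M) {γ : Γ} {m : M.M} (hm : m ∈ M.gr γ) :
    ∃ f ∈ F.gr γ, s.p f = m := by
  obtain ⟨f, hf, hfm⟩ := gsurj F.int M.int (s.p.restrictScalars k) s.sur
    (fun _ _ hx => s.gp hx) hm
  exact ⟨f, hf, hfm⟩

/-- [B5b] -/
theorem Ses.p_i {X F M : GM 𝒜} (s : Ses X F M) (x : X.M) : s.p (s.i x) = 0 := by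
  have : s.i x ∈ LinearMap.ker s.p := by
    rw [← s.ex]
    exact ⟨x, rfl⟩
  exact this

/-- [B5b] -/
theorem Ses.ex' {X F M : GM 𝒜} (s : Ses X F M) {f : F.M} (hf : s.p f = 0) : ∃ x, s.i x = f := by
  have h2 : f ∈ LinearMap.range s.i := by
    rw [s.ex, LinearMap.mem_ker]
    exact hf
  exact h2

end


end GTC
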