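import Pool.Agent.GTC.B5

/-!
# [GTC-C1a] the swap
-/

set_option autoImplicit false

open CategoryTheory Module

namespace GTC

section
variable {k Γ A : Type} [Field k] [AddCommGroup Γ] [DecidableEq Γ] [Ring A] [Algebra k A]
  {𝒜 : Γ → Submodule k A} {ε : Γ → Γ → k} {w : Γ →+ ℤ}

/-- [C1a] the swap.
PROOF. `S β y x = β x (E y)` where `E` is the scaling of `Y` by `ν ↦ ε ν (δ - ν)` (`scale`). For `x ∈ X.gr μ`, `y ∈ Y.gr ν`: if `μ + ν = δ` then `S β y x = ε ν μ * β x y`, otherwise both sides are `0`. Balanced: let `a ∈ 𝒜 α`; then (for homogeneous `x`, then by `gext` for all `x`)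
`ε ν α * S β (a • y) x = ε ν α * ε (α + ν) μ * β x (a • y) = ε ν α * ε α μ * ε ν μ * ε μ α * β (a • x) y = ε ν α * ε ν μ * β (a • x) y = ε ν (α + μ) * β (a • x) y = S β y (a • x)` (`CF.add'`, `h.inv`). -/
theorem swap (h : CF ε) (X Y : GM 𝒜) (δ : Γ) :
    ∃ S : (X.M →ₗ[k] Y.M →ₗ[k] k) →ₗ[k] (Y.M →ₗ[k] X.M →ₗ[k] k), ∀ β ∈ Bf ε X Y δ,
      S β ∈ Bf ε Y X δ ∧ ∀ μ ν x y, x ∈ X.gr μ → y ∈ Y.gr ν → S β y x = ε ν μ * β x y := by
  obtain ⟨E, hE⟩ := scale Y.int (fun ν => ε ν (δ - ν))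
  have key : ∀ β ∈ Bf ε X Y δ, ∀ μ ν x y, x ∈ X.gr μ → y ∈ Y.gr ν →
      β x (E y) = ε ν μ * β x y := by
    intro β hβ μ ν x y hx hy
    rw [hE ν y hy, map_smul, smul_eq_mul]
    by_cases hd : μ + ν = δ
    · rw [← hd, add_sub_cancel_right]
    · rw [hβ.1 μ ν x y hx hy hd, mul_zero, mul_zero]
  refine ⟨{ toFun := fun β => β.flip ∘ₗ E
            map_add' := fun β β' => rfl
            map_smul' := fun c β => rfl }, fun β hβ => ⟨⟨?_, ?_⟩, ?_⟩⟩
  · intro μ ν y x hy hx hd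
    show β x (E y) = 0
    rw [key β hβ ν μ x y hx hy, hβ.1 ν μ x y hx hy (by rwa [add_comm]), mul_zero]
  · intro α μ a y x ha hy
    show ε μ α * β x (E (a • y)) = β (a • x) (E y)
    have h1 : ε μ α • (β.flip (E (a • y))) =
        (β.flip (E y)) ∘ₗ (Algebra.lsmul k k X.M a) := by
      refine gext X.int fun ρ z hz => ?_
      show ε μ α * β z (E (a • y)) = β (a • z) (E y)
      rw [key β hβ ρ (α + μ) z (a • y) hz (Y.smul ha hy),
        key β hβ (α + ρ) μ (a • z) y (X.smul ha hz) hy, ← hβ.2 α ρ a z y ha hz, h.add, h.add']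
      have h2 := h.inv ρ α
      calc ε μ α * (ε α ρ * ε μ ρ * (ε ρ α * β (a • z) y))
          = (ε ρ α * ε α ρ) * (ε μ α * ε μ ρ * β (a • z) y) := by ring
        _ = ε μ α * ε μ ρ * β (a • z) y := by rw [h2, one_mul]
    exact LinearMap.congr_fun h1 x
  · intro μ ν x y hx hy
    exact key β hβ μ ν x y hx hy

end


end GTC
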