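import Pool.Agent.GTC.C1a

/-!
# [GTC-C1b] the swap
-/

set_option autoImplicit false

open CategoryTheory Module

namespace GTC

section
variable {k Γ A : Type} [Field k] [AddCommGroup Γ] [DecidableEq Γ] [Ring A] [Algebra k A]
  {𝒜 : Γ → Submodule k A} {ε : Γ → Γ → k} {w : Γ →+ ℤ}

/-- [C1b] forms are determined by their values on homogeneous elements -/
theorem form_ext {X Y : GM 𝒜} {β β' : X.M →ₗ[k] Y.M →ₗ[k] k}
    (h : ∀ μ ν x y, x ∈ X.gr μ → y ∈ Y.gr ν → β x y = β' x y) : β = β' := by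
  refine gext X.int fun μ x hx => ?_
  exact gext Y.int fun ν y hy => h μ ν x y hx hy

omit [DecidableEq Γ] in
private theorem c1b_eps {ε : Γ → Γ → k} (h : CF ε) (a b : Γ) : ε a b ≠ 0 := by
  intro h0
  have h1 := h.inv a b
  rw [h0, zero_mul] at h1
  exact zero_ne_one h1

private theorem c1b_le {ε : Γ → Γ → k} (h : CF ε) (X Y : GM 𝒜) (δ : Γ) :
    finrank k (Bf ε X Y δ) ≤ finrank k (Bf ε Y X δ) := by
  obtain ⟨S, hS⟩ := swap h X Y δ
  let T : Bf ε X Y δ →ₗ[k] Bf ε Y X δ := S.restrict fun β hβ => (hS β hβ).1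
  refine LinearMap.finrank_le_finrank_of_injective (f := T) ?_
  rintro ⟨β, hβ⟩ ⟨β₁, hβ₁⟩ h0
  have h1 : S β = S β₁ := congrArg Subtype.val h0
  apply Subtype.ext
  refine form_ext fun μ ν x y hx hy => ?_
  have h2 := (hS β hβ).2 μ ν x y hx hy
  rw [h1, (hS β₁ hβ₁).2 μ ν x y hx hy] at h2
  exact (mul_left_cancel₀ (c1b_eps h ν μ) h2).symm

/-- [C1b] (`swap` in both directions is injective) -/
theorem finrank_swap (h : CF ε) (X Y : GM 𝒜) (δ : Γ) :
    finrank k (Bf ε X Y δ) = finrank k (Bf ε Y X δ) :=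
  le_antisymm (c1b_le h X Y δ) (c1b_le h Y X δ)

/-- [C1b] (`swap`) -/
theorem LE_iff_RE (h : CF ε) {X F M : GM 𝒜} (s : Ses X F M) (Y : GM 𝒜) :
    LE ε s Y ↔ RE ε s Y := by
  constructor
  · intro hL δ β hβ
    obtain ⟨S, hS⟩ := swap h Y X δ
    obtain ⟨S', hS'⟩ := swap h F Y δ
    obtain ⟨β', hβ', he⟩ := hL δ (S β) (hS β hβ).1
    refine ⟨S' β', (hS' β' hβ').1, ?_⟩
    intro y x
    have key : (S' β').compl₂ (s.i.restrictScalars k) = β := by
      refine form_ext (X := Y) (Y := X) fun μ ν y x hy hx => ?_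
      have e1 : ((S' β').compl₂ (s.i.restrictScalars k)) y x = S' β' y (s.i x) := rfl
      rw [e1, (hS' β' hβ').2 ν μ (s.i x) y (s.gi hx) hy, he x y, (hS β hβ).2 μ ν y x hy hx,
        ← mul_assoc, h.inv, one_mul]
    rw [← key]
    rfl
  · intro hR δ β hβ
    obtain ⟨S, hS⟩ := swap h X Y δ
    obtain ⟨S', hS'⟩ := swap h Y F δ
    obtain ⟨β', hβ', he⟩ := hR δ (S β) (hS β hβ).1
    refine ⟨S' β', (hS' β' hβ').1, ?_⟩
    intro x y
    have key : (S' β').comp (s.i.restrictScalars k) = β := by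
      refine form_ext (X := X) (Y := Y) fun μ ν x y hx hy => ?_
      have e1 : ((S' β').comp (s.i.restrictScalars k)) x y = S' β' (s.i x) y := rfl
      rw [e1, (hS' β' hβ').2 ν μ y (s.i x) hy (s.gi hx), he y x, (hS β hβ).2 μ ν x y hx hy,
        ← mul_assoc, h.inv, one_mul]
    rw [← key]
    rfl

end


end GTC
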