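import Pool.Agent.GTC.B5

/-!
# [GTC-C2] restriction of forms (complete, no row)
-/

set_option autoImplicit false

open CategoryTheory Module

namespace GTC

section
variable {k Γ A : Type} [Field k] [AddCommGroup Γ] [DecidableEq Γ] [Ring A] [Algebra k A]
  {𝒜 : Γ → Submodule k A} {ε : Γ → Γ → k} {w : Γ →+ ℤ}

/-- composition in the first variable -/
theorem Bf_pull {X X' Y : GM 𝒜} (f : X'.M →ₗ[A] X.M) (hf : ∀ γ x, x ∈ X'.gr γ → f x ∈ X.gr γ)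
    {δ : Γ} {β : X.M →ₗ[k] Y.M →ₗ[k] k} (hβ : β ∈ Bf ε X Y δ) :
    β ∘ₗ f.restrictScalars k ∈ Bf ε X' Y δ := by
  refine ⟨fun μ ν x y hx hy hd => ?_, fun α μ a x y ha hx => ?_⟩
  · exact hβ.1 μ ν (f x) y (hf μ x hx) hy hd
  · have h1 := hβ.2 α μ a (f x) y ha (hf μ x hx)
    rw [← map_smul] at h1
    exact h1

/-- composition in the second variable -/
theorem Bf_pull' {X Y Y' : GM 𝒜} (f : Y'.M →ₗ[A] Y.M) (hf : ∀ γ x, x ∈ Y'.gr γ → f x ∈ Y.gr γ)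
    {δ : Γ} {β : X.M →ₗ[k] Y.M →ₗ[k] k} (hβ : β ∈ Bf ε X Y δ) :
    β.compl₂ (f.restrictScalars k) ∈ Bf ε X Y' δ := by
  refine ⟨fun μ ν x y hx hy hd => ?_, fun α μ a x y ha hx => ?_⟩
  · exact hβ.1 μ ν x (f y) hx (hf ν y hy) hd
  · have h1 := hβ.2 α μ a x (f y) ha hx
    rw [← map_smul] at h1
    exact h1

end

end GTC
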