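import Pool.Agent.GTC.C2

/-!
# [GTC-C3] forms on quotients
-/

set_option autoImplicit false

open CategoryTheory Module

namespace GTC

section
variable {k Γ A : Type} [Field k] [AddCommGroup Γ] [DecidableEq Γ] [Ring A] [Algebra k A]
  {𝒜 : Γ → Submodule k A} {ε : Γ → Γ → k} {w : Γ →+ ℤ}

/-- factorisation through the surjection of a short exact sequence -/
private theorem c3_fac {X F M : GM 𝒜} (s : Ses X F M) {W : Type} [AddCommGroup W] [Module k W]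
    (φ : F.M →ₗ[k] W) (h0 : ∀ x, φ (s.i x) = 0) :
    ∃ ψ : M.M →ₗ[k] W, ∀ f, ψ (s.p f) = φ f := by
  let p' : F.M →ₗ[k] M.M := s.p.restrictScalars k
  have hp' : Function.Surjective p' := s.sur
  have hk : LinearMap.ker p' ≤ LinearMap.ker φ := by
    intro f hf
    have h1 : f ∈ LinearMap.ker s.p := by
      rw [LinearMap.mem_ker] at hf ⊢
      exact hf
    rw [← s.ex] at h1
    obtain ⟨x, rfl⟩ := h1
    exact LinearMap.mem_ker.2 (h0 x)
  let q : (F.M ⧸ LinearMap.ker p') ≃ₗ[k] M.M := p'.quotKerEquivOfSurjective hp'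
  refine ⟨((LinearMap.ker p').liftQ φ hk) ∘ₗ q.symm.toLinearMap, fun f => ?_⟩
  have h2 : q.symm (s.p f) = Submodule.Quotient.mk f := by
    rw [LinearEquiv.symm_apply_eq]
    rfl
  rw [LinearMap.comp_apply, LinearEquiv.coe_toLinearMap, h2, Submodule.liftQ_apply]

/-- [C3] PROOF. `β` factors through `s.p` (its kernel is the range of `s.i`); homogeneous elements lift to homogeneous elements (`Ses.lift`). -/
theorem descend {X F M Y : GM 𝒜} (s : Ses X F M) {δ : Γ} {β : F.M →ₗ[k] Y.M →ₗ[k] k}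
    (hβ : β ∈ Bf ε F Y δ) (h0 : ∀ x y, β (s.i x) y = 0) :
    ∃ β' ∈ Bf ε M Y δ, ∀ f y, β' (s.p f) y = β f y := by
  obtain ⟨ψ, hψ⟩ := c3_fac s β (fun x => LinearMap.ext fun y => h0 x y)
  refine ⟨ψ, ⟨fun μ ν x y hx hy hd => ?_, fun α μ a x y ha hx => ?_⟩, fun f y => by rw [hψ]⟩
  · obtain ⟨f, hf, rfl⟩ := s.lift hx
    rw [hψ]
    exact hβ.1 μ ν f y hf hy hd
  · obtain ⟨f, hf, rfl⟩ := s.lift hx
    rw [← map_smul, hψ, hψ]
    exact hβ.2 α μ a f y ha hf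

/-- [C3] in the same way -/
theorem descend' {X F M Y : GM 𝒜} (s : Ses X F M) {δ : Γ} {β : Y.M →ₗ[k] F.M →ₗ[k] k}
    (hβ : β ∈ Bf ε Y F δ) (h0 : ∀ y x, β y (s.i x) = 0) :
    ∃ β' ∈ Bf ε Y M δ, ∀ y f, β' y (s.p f) = β y f := by
  obtain ⟨ψ, hψ⟩ := c3_fac s β.flip (fun x => LinearMap.ext fun y => h0 y x)
  have hψ' : ∀ y f, ψ.flip y (s.p f) = β y f := by
    intro y f
    rw [LinearMap.flip_apply, hψ, LinearMap.flip_apply]
  refine ⟨ψ.flip, ⟨fun μ ν x y hx hy hd => ?_, fun α μ a x y ha hx => ?_⟩, hψ'⟩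
  · obtain ⟨f, hf, rfl⟩ := s.lift hy
    rw [hψ']
    exact hβ.1 μ ν x f hx hf hd
  · obtain ⟨f, rfl⟩ := s.sur y
    rw [← map_smul, hψ', hψ']
    exact hβ.2 α μ a x f ha hx

end

end GTC
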