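import Pool.Agent.GTC.C2

/-!
# [GTC-C5b] forms on free modules
-/

set_option autoImplicit false

open CategoryTheory Module

namespace GTC

section
variable {k Γ A : Type} [Field k] [AddCommGroup Γ] [DecidableEq Γ] [Ring A] [Algebra k A]
  {𝒜 : Γ → Submodule k A} {ε : Γ → Γ → k} {w : Γ →+ ℤ}

private theorem c5b_mem (hA : GA 𝒜 ε w) {n : ℕ} (φ : Fin n → Γ) (i : Fin n) :
    (Pi.single i (1 : A) : Fin n → A) ∈ frGr 𝒜 φ (φ i) := by
  rw [mem_frGr]
  intro j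
  by_cases h : j = i
  · subst h
    rw [Pi.single_eq_same, sub_self]
    exact hA.one
  · rw [Pi.single_eq_of_ne h]
    exact Submodule.zero_mem _

private theorem c5b_single {n : ℕ} (i : Fin n) (a : A) :
    (Pi.single i a : Fin n → A) = a • (Pi.single i (1 : A) : Fin n → A) := by
  rw [← Pi.single_smul, smul_eq_mul, mul_one]

/-- [C5b] PROOF. `v = ∑ i, v i • e i`, `v i` a sum of homogeneous elements and `ε (φ i) α * β (a • e i) y = β (e i) (a • y) = 0`. -/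
theorem fr_ext (hA : GA 𝒜 ε w) [FiniteDimensional k A] {n : ℕ} (φ : Fin n → Γ) (Y : GM 𝒜) (δ : Γ)
    {β : (fr hA φ).M →ₗ[k] Y.M →ₗ[k] k} (hβ : β ∈ Bf ε (fr hA φ) Y δ)
    (h0 : ∀ i y, β (Pi.single i (1 : A) : Fin n → A) y = 0) : β = 0 := by
  have h1 : ∀ (i : Fin n) (y : Y.M) (a : A), β (Pi.single i a : Fin n → A) y = 0 := by
    intro i y a
    let f : A →ₗ[k] k := (LinearMap.applyₗ y) ∘ₗ (β : (Fin n → A) →ₗ[k] Y.M →ₗ[k] k) ∘ₗ
      (LinearMap.single k (fun _ : Fin n => A) i)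
    have h2 : f = 0 := by
      refine gext hA.int fun γ b hb => ?_
      change β (Pi.single i b : Fin n → A) y = 0
      have h3 := hβ.2 γ (φ i) b (Pi.single i (1 : A) : Fin n → A) y hb (c5b_mem hA φ i)
      rw [h0 i (b • y)] at h3
      rw [c5b_single i b]
      exact (mul_eq_zero.1 h3).resolve_left (hA.cf.ne _ _)
    exact congrArg (fun g : A →ₗ[k] k => g a) h2
  refine LinearMap.ext fun v => LinearMap.ext fun y => ?_
  let g : (Fin n → A) →ₗ[k] k := (LinearMap.applyₗ y) ∘ₗ (β : (Fin n → A) →ₗ[k] Y.M →ₗ[k] k)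
  have h5 : ∀ u : Fin n → A, g u = 0 := by
    intro u
    rw [← Finset.univ_sum_single u, map_sum]
    exact Finset.sum_eq_zero fun i _ => h1 i y _
  exact h5 v

/-- [C5b] (`Pi.single i 1 ∈ frGr 𝒜 φ (φ i)`) -/
theorem fr_Du (hA : GA 𝒜 ε w) [FiniteDimensional k A] {n : ℕ} (φ : Fin n → Γ) (Y : GM 𝒜) (δ : Γ)
    {β : (fr hA φ).M →ₗ[k] Y.M →ₗ[k] k} (hβ : β ∈ Bf ε (fr hA φ) Y δ) (i : Fin n) :
    β (Pi.single i (1 : A) : Fin n → A) ∈ Du Y.gr (δ - φ i) := by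
  rw [mem_Du]
  intro γ hγ x hx
  refine hβ.1 (φ i) γ _ x (c5b_mem hA φ i) hx fun h => hγ ?_
  rw [← h]
  abel

end


end GTC
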