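import Pool.Agent.GTC.C2

/-!
# [GTC-C5a] forms on free modules
-/

set_option autoImplicit false

open CategoryTheory Module

namespace GTC

section
variable {k Γ A : Type} [Field k] [AddCommGroup Γ] [DecidableEq Γ] [Ring A] [Algebra k A]
  {𝒜 : Γ → Submodule k A} {ε : Γ → Γ → k} {w : Γ →+ ℤ}

/-- [C5a] PROOF. Let `E i` be the scaling of `A` by `α ↦ ε α (φ i)` (`scale`) and `β v y = ∑ i, l i (E i (v i) • y)`. Degree: `v ∈ frGr φ μ`, `y ∈ Y.gr ν`: `E i (v i) ∈ 𝒜 (μ - φ i)`, so `E i (v i) • y ∈ Y.gr (μ - φ i + ν)`. Balanced: for `a ∈ 𝒜 α`, `v ∈ frGr φ μ`: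
`β (a • v) y = ∑ i, ε (α + μ - φ i) (φ i) * l i ((a * v i) • y)`, `β v (a • y) = ∑ i, ε (μ - φ i) (φ i) * l i ((v i * a) • y)` and `v i * a = ε (μ - φ i) α • (a * v i)` (`hA.comm`), `ε μ α * ε α (φ i) = ε (μ - φ i) α` (`CF.add`, `CF.neg`, `CF.inv`). -/
theorem fr_mk (hA : GA 𝒜 ε w) [FiniteDimensional k A] {n : ℕ} (φ : Fin n → Γ) (Y : GM 𝒜) (δ : Γ)
    (l : Fin n → (Y.M →ₗ[k] k)) (hl : ∀ i, l i ∈ Du Y.gr (δ - φ i)) :
    ∃ β ∈ Bf ε (fr hA φ) Y δ, ∀ i y, β (Pi.single i (1 : A) : Fin n → A) y = l i y := by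
  classical
  have hc := hA.cf
  choose E hE using fun i : Fin n => scale hA.int (fun α => ε α (φ i))
  let β : (Fin n → A) →ₗ[k] Y.M →ₗ[k] k :=
    LinearMap.mk₂ k (fun v y => ∑ i, l i (E i (v i) • y))
      (fun v v' y => by
        rw [← Finset.sum_add_distrib]
        refine Finset.sum_congr rfl fun i _ => ?_
        rw [Pi.add_apply, map_add, add_smul, map_add])
      (fun c v y => by
        rw [Finset.smul_sum]
        refine Finset.sum_congr rfl fun i _ => ?_
        rw [Pi.smul_apply, (E i).map_smul, smul_assoc, (l i).map_smul])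
      (fun v y y' => by
        rw [← Finset.sum_add_distrib]
        refine Finset.sum_congr rfl fun i _ => ?_
        rw [smul_add, map_add])
      (fun c v y => by
        rw [Finset.smul_sum]
        refine Finset.sum_congr rfl fun i _ => ?_
        rw [smul_comm, (l i).map_smul])
  have hβ : ∀ v y, β v y = ∑ i, l i (E i (v i) • y) := fun v y => rfl
  refine ⟨β, ⟨fun μ ν v y hv hy hd => ?_, fun α μ a v y ha hv => ?_⟩, fun i y => ?_⟩
  · have hv' : ∀ i, (v : Fin n → A) i ∈ 𝒜 (μ - φ i) := hv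
    show ∑ i, l i (E i ((v : Fin n → A) i) • y) = 0
    refine Finset.sum_eq_zero fun i _ => ?_
    rw [hE i _ _ (hv' i), smul_assoc, (l i).map_smul]
    have h1 : (v : Fin n → A) i • y ∈ Y.gr (μ - φ i + ν) := Y.smul (hv' i) hy
    rw [hl i (μ - φ i + ν) (fun h => hd (by
      have h2 : μ + ν = (μ - φ i + ν) + φ i := by abel
      rw [h2, h, sub_add_cancel])) _ h1, smul_zero]
  · have hv' : ∀ i, (v : Fin n → A) i ∈ 𝒜 (μ - φ i) := hv
    have key : ∀ i (m : A), m ∈ 𝒜 (μ - φ i) →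
        ε μ α * l i (E i (a * m) • y) = l i (E i m • a • y) := by
      intro i m hm
      rw [hE i _ _ hm, hE i _ _ (hA.mul ha hm), smul_assoc, smul_assoc, (l i).map_smul,
        (l i).map_smul, ← mul_smul, hA.comm hm ha, smul_assoc, (l i).map_smul, smul_eq_mul,
        smul_eq_mul, smul_eq_mul, hc.add]
      have h1 : ε μ α = ε (μ - φ i) α * ε (φ i) α := by rw [← hc.add, sub_add_cancel]
      have h2 := hc.inv (φ i) α
      rw [h1]
      calc ε (μ - φ i) α * ε (φ i) α * (ε α (φ i) * ε (μ - φ i) (φ i) * l i ((a * m) • y))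
          = (ε (φ i) α * ε α (φ i)) * (ε (μ - φ i) (φ i) * (ε (μ - φ i) α *
            l i ((a * m) • y))) := by ring
        _ = _ := by rw [h2, one_mul]
    show ε μ α * ∑ i, l i (E i (a * (v : Fin n → A) i) • y) =
      ∑ i, l i (E i ((v : Fin n → A) i) • a • y)
    rw [Finset.mul_sum]
    exact Finset.sum_congr rfl fun i _ => key i _ (hv' i)
  · show ∑ j, l j (E j ((Pi.single i (1 : A) : Fin n → A) j) • y) = l i y
    rw [Finset.sum_eq_single i]
    · rw [Pi.single_eq_same, hE i 0 1 hA.one, hc.zl, one_smul, one_smul]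
    · intro j _ hj
      rw [Pi.single_eq_of_ne hj, map_zero, zero_smul, map_zero]
    · intro h
      exact absurd (Finset.mem_univ i) h

end


end GTC
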