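import Pool.Agent.GTC.C5

/-!
# [GTC-C6b] extension and dimension of forms on free modules
-/

set_option autoImplicit false

open CategoryTheory Module

namespace GTC

section
variable {k Γ A : Type} [Field k] [AddCommGroup Γ] [DecidableEq Γ] [Ring A] [Algebra k A]
  {𝒜 : Γ → Submodule k A} {ε : Γ → Γ → k} {w : Γ →+ ℤ}

/-- [C6b] (`fr_mk`, `fr_ext`, `fr_Du`: the space of forms is isomorphic to the product of the `Du Y.gr (δ - φ i)`; `finrank_Du`) -/
theorem finrank_Bf_fr (hA : GA 𝒜 ε w) [FiniteDimensional k A] {n : ℕ} (φ : Fin n → Γ) (Y : GM 𝒜)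
    (δ : Γ) : finrank k (Bf ε (fr hA φ) Y δ) = ∑ i, finrank k (Y.gr (δ - φ i)) := by
  let T : Bf ε (fr hA φ) Y δ →ₗ[k] (∀ i, Du Y.gr (δ - φ i)) :=
    { toFun := fun β i => ⟨β.1 (Pi.single i (1 : A) : Fin n → A), fr_Du hA φ Y δ β.2 i⟩
      map_add' := fun β β' => by
        funext i
        rfl
      map_smul' := fun c β => by
        funext i
        rfl }
  have hT : Function.Bijective T := by
    constructor
    · intro β β' hβ
      apply Subtype.ext
      have h0 : β.1 + (-1 : k) • β'.1 = 0 := by
        refine fr_ext hA φ Y δ (Submodule.add_mem _ β.2 (Submodule.smul_mem _ (-1 : k) β'.2))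
          fun i y => ?_
        have h1 := congrArg Subtype.val (congrFun hβ i)
        have h2 : β.1 (Pi.single i (1 : A) : Fin n → A) y =
          β'.1 (Pi.single i (1 : A) : Fin n → A) y := LinearMap.congr_fun h1 y
        show β.1 (Pi.single i (1 : A) : Fin n → A) y +
          (-1 : k) * β'.1 (Pi.single i (1 : A) : Fin n → A) y = 0
        rw [h2]
        ring
      refine LinearMap.ext fun v => LinearMap.ext fun y => ?_
      have h3 : β.1 v y + (-1 : k) * β'.1 v y = 0 :=
        LinearMap.congr_fun (LinearMap.congr_fun h0 v) y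
      linear_combination h3
    · intro l
      obtain ⟨β, hβ, h⟩ := fr_mk hA φ Y δ (fun i => (l i).1) fun i => (l i).2
      refine ⟨⟨β, hβ⟩, ?_⟩
      funext i
      apply Subtype.ext
      exact LinearMap.ext fun y => h i y
  have hfree : ∀ i, Module.Free k (Du Y.gr (δ - φ i)) := fun i => by
    have h := @Module.Free.of_divisionRing k (Du Y.gr (δ - φ i)) _ (Submodule.addCommGroup _)
      (Submodule.module _)
    exact h
  rw [(LinearEquiv.ofBijective T hT).finrank_eq, Module.finrank_pi_fintype]
  exact Finset.sum_congr rfl fun i _ => finrank_Du Y.int _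

end


end GTC
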