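import Pool.Agent.GTC.C5

/-!
# [GTC-C6a] extension and dimension of forms on free modules
-/

set_option autoImplicit false

open CategoryTheory Module

namespace GTC

section
variable {k Γ A : Type} [Field k] [AddCommGroup Γ] [DecidableEq Γ] [Ring A] [Algebra k A]
  {𝒜 : Γ → Submodule k A} {ε : Γ → Γ → k} {w : Γ →+ ℤ}

private theorem c6a_aux {X F M : GM 𝒜} (s : Ses X F M)
    {n : ℕ} (φ : Fin n → Γ) (δ : Γ) (f : Fin n → (X.M →ₗ[k] k))
    (hf : ∀ i, f i ∈ Du X.gr (δ - φ i)) :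
    ∃ l : Fin n → (F.M →ₗ[k] k), (∀ i, l i ∈ Du F.gr (δ - φ i)) ∧
      ∀ i x, l i (s.i x) = f i x := by
  have h : ∀ i, ∃ l' ∈ Du F.gr (δ - φ i), ∀ x, l' ((s.i.restrictScalars k) x) = f i x :=
    fun i => Du_ext X.int F.int (s.i.restrictScalars k) s.inj
      (fun γ x hx => s.gi hx) (δ - φ i) (f i) (hf i)
  choose l hl hl' using h
  exact ⟨l, hl, hl'⟩

/-- [C6a] PROOF. `β (e i) ∈ Du X.gr (δ - φ i)` (`fr_Du`) extends to `F` (`Du_ext` for `s.i`), `fr_mk` gives `β'`; `β' v (s.i x) = β v x` by `fr_ext` for the difference (`Bf_pull'`). -/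
theorem fr_RE (hA : GA 𝒜 ε w) [FiniteDimensional k A] {n : ℕ} (φ : Fin n → Γ)
    {X F M : GM 𝒜} (s : Ses X F M) : RE ε s (fr hA φ) := by
  intro δ β hβ
  obtain ⟨l, hl, hl'⟩ := c6a_aux s φ δ (fun i => β (Pi.single i (1 : A) : Fin n → A))
    (fun i => fr_Du hA φ X δ hβ i)
  obtain ⟨β', hβ', hb⟩ := fr_mk hA φ F δ l hl
  refine ⟨β', hβ', fun y x => ?_⟩
  have h0 : ∀ i y, (β'.compl₂ (s.i.restrictScalars k) - β)
      (Pi.single i (1 : A) : Fin n → A) y = 0 := by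
    intro i y
    have h3 := hb i (s.i y)
    rw [hl' i] at h3
    exact sub_eq_zero.2 h3
  have h5 : β'.compl₂ (s.i.restrictScalars k) ∈ Bf ε (fr hA φ) X δ :=
    Bf_pull' s.i (fun γ x hx => s.gi hx) hβ'
  have h6 : β'.compl₂ (s.i.restrictScalars k) - β ∈ Bf ε (fr hA φ) X δ :=
    Submodule.sub_mem (M := (fr hA φ).M →ₗ[k] X.M →ₗ[k] k) _ h5 hβ
  have h1 : β'.compl₂ (s.i.restrictScalars k) - β = 0 := fr_ext hA φ X δ h6 h0
  have h2 : (β'.compl₂ (s.i.restrictScalars k) - β) y x = 0 := by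
    rw [h1]
    rfl
  exact sub_eq_zero.1 h2

end


end GTC
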