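import Pool.Agent.GTC.C3

/-!
# [GTC-C9b] additivity of the dimension of the spaces of forms
-/

set_option autoImplicit false

open CategoryTheory Module

namespace GTC

section
variable {k Γ A : Type} [Field k] [AddCommGroup Γ] [DecidableEq Γ] [Ring A] [Algebra k A]
  {𝒜 : Γ → Submodule k A} {ε : Γ → Γ → k} {w : Γ →+ ℤ}

/-- [C9b] the degrees of nonzero forms -/
theorem Bf_supp {X Y : GM 𝒜} {δ : Γ} (h : Bf ε X Y δ ≠ ⊥) :
    ∃ μ ν, X.gr μ ≠ ⊥ ∧ Y.gr ν ≠ ⊥ ∧ μ + ν = δ := by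
  by_contra hne
  apply h
  rw [eq_bot_iff]
  intro β hβ
  rw [Submodule.mem_bot]
  refine gext X.int fun μ x hx => ?_
  refine gext Y.int fun ν y hy => ?_
  rw [LinearMap.zero_apply, LinearMap.zero_apply]
  by_cases hx0 : x = 0
  · rw [hx0, map_zero, LinearMap.zero_apply]
  by_cases hy0 : y = 0
  · rw [hy0, map_zero]
  refine hβ.1 μ ν x y hx hy fun hδ => hne ⟨μ, ν, ?_, ?_, hδ⟩
  · intro hb
    rw [hb, Submodule.mem_bot] at hx
    exact hx0 hx
  · intro hb
    rw [hb, Submodule.mem_bot] at hy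
    exact hy0 hy

end


end GTC
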