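import Pool.Agent.GTC.C3

/-!
# [GTC-C9a] additivity of the dimension of the spaces of forms
-/

set_option autoImplicit false

open CategoryTheory Module

namespace GTC

section
variable {k Γ A : Type} [Field k] [AddCommGroup Γ] [DecidableEq Γ] [Ring A] [Algebra k A]
  {𝒜 : Γ → Submodule k A} {ε : Γ → Γ → k} {w : Γ →+ ℤ}

/-- [C9a] PROOF. The restriction `Bf F Y δ → Bf X Y δ` is onto (`hLE`), its kernel is isomorphic to `Bf M Y δ` (`descend`, `Bf_pull`). -/
theorem finrank_add {X F M : GM 𝒜} (s : Ses X F M) (Y : GM 𝒜) (hLE : LE ε s Y) (δ : Γ) :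
    finrank k (Bf ε F Y δ) = finrank k (Bf ε X Y δ) + finrank k (Bf ε M Y δ) := by
  let ρ : Bf ε F Y δ →ₗ[k] Bf ε X Y δ :=
    (LinearMap.lcomp k (Y.M →ₗ[k] k) (s.i.restrictScalars k)).restrict
      fun β hβ => Bf_pull (X := F) (X' := X) s.i (fun γ x hx => s.gi hx) hβ
  let τ : Bf ε M Y δ →ₗ[k] Bf ε F Y δ :=
    (LinearMap.lcomp k (Y.M →ₗ[k] k) (s.p.restrictScalars k)).restrict
      fun β hβ => Bf_pull (X := M) (X' := F) s.p (fun γ x hx => s.gp hx) hβ
  have hρ : ∀ (β : Bf ε F Y δ) x y, (ρ β).1 x y = β.1 (s.i x) y := fun _ _ _ => rfl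
  have hτ : ∀ (β : Bf ε M Y δ) x y, (τ β).1 x y = β.1 (s.p x) y := fun _ _ _ => rfl
  have hρs : Function.Surjective ρ := by
    rintro ⟨β, hβ⟩
    obtain ⟨β', hβ', h⟩ := hLE δ β hβ
    refine ⟨⟨β', hβ'⟩, Subtype.ext (LinearMap.ext fun x => LinearMap.ext fun y => ?_)⟩
    rw [hρ]
    exact h x y
  have hτi : Function.Injective τ := by
    intro β β' h
    refine Subtype.ext (LinearMap.ext fun x => LinearMap.ext fun y => ?_)
    obtain ⟨f, rfl⟩ := s.sur x
    rw [← hτ, ← hτ, h]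
  have hr : LinearMap.range τ = LinearMap.ker ρ := by
    ext β
    rw [LinearMap.mem_range, LinearMap.mem_ker]
    constructor
    · rintro ⟨β', rfl⟩
      refine Subtype.ext (LinearMap.ext fun x => LinearMap.ext fun y => ?_)
      rw [hρ, hτ]
      have h0 : s.p (s.i x) = 0 := by
        have h1 : s.i x ∈ LinearMap.ker s.p := by
          rw [← s.ex]
          exact ⟨x, rfl⟩
        exact h1
      rw [h0, map_zero]
      rfl
    · intro h
      obtain ⟨β', hβ', h'⟩ := descend s β.2 fun x y => by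
        rw [← hρ, h]
        rfl
      refine ⟨⟨β', hβ'⟩, Subtype.ext (LinearMap.ext fun x => LinearMap.ext fun y => ?_)⟩
      rw [hτ]
      exact h' x y
  let i1 : AddCommGroup (Bf ε F Y δ) :=
    @Submodule.addCommGroup k (F.M →ₗ[k] Y.M →ₗ[k] k) _ _ _ (Bf ε F Y δ)
  let i2 : AddCommGroup (Bf ε X Y δ) :=
    @Submodule.addCommGroup k (X.M →ₗ[k] Y.M →ₗ[k] k) _ _ _ (Bf ε X Y δ)
  have h1 := LinearMap.finrank_range_add_finrank_ker (K := k) (V := Bf ε F Y δ)
    (V₂ := Bf ε X Y δ) ρ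
  rw [LinearMap.range_eq_top.2 hρs, finrank_top, ← hr, LinearMap.finrank_range_of_inj hτi] at h1
  exact h1.symm

end


end GTC
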