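import Pool.Agent.GTC.C1
import Pool.Agent.GTC.C3
import Pool.Agent.GTC.C6

/-!
# [GTC-D1b] propagation of the extension property
-/

set_option autoImplicit false

open CategoryTheory Module

namespace GTC

section
variable {k Γ A : Type} [Field k] [AddCommGroup Γ] [DecidableEq Γ] [Ring A] [Algebra k A]
  {𝒜 : Γ → Submodule k A} {ε : Γ → Γ → k} {w : Γ →+ ℤ}

/-- [D1b] shift.
PROOF. Let `g ∈ Bf X X' δ`; by `RE ε s' X` (`LE_iff_RE`) it extends to `X × fr φ'`, and by `LE ε s (fr φ')` (`fr_RE`, `LE_iff_RE`) to `F × fr φ'`. Restrict to `F × X'` (`Bf_pull'`). -/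
theorem LE_shift (hA : GA 𝒜 ε w) [FiniteDimensional k A] {n : ℕ} (φ' : Fin n → Γ)
    {X F M X' M' : GM 𝒜} (s : Ses X F M) (s' : Ses X' (fr hA φ') M') (h : LE ε s' X) :
    LE ε s X' := by
  intro δ β hβ
  -- extend to `X × fr φ'`
  obtain ⟨β1, hβ1, e1⟩ := (LE_iff_RE hA.cf s' X).mp h δ β hβ
  -- extend to `F × fr φ'`
  have hL : LE ε s (fr hA φ') := (LE_iff_RE hA.cf s (fr hA φ')).mpr (fr_RE hA φ' s)
  obtain ⟨β2, hβ2, e2⟩ := hL δ β1 hβ1
  refine ⟨β2.compl₂ (s'.i.restrictScalars k), Bf_pull' s'.i (fun _ _ hx => s'.gi hx) hβ2, fun x y => ?_⟩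
  show β2 (s.i x) (s'.i y) = β x y
  rw [e2, e1]

end


end GTC
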