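import Pool.Agent.GTC.C2

/-!
# [GTC-E1b] forms on X x D(A) and linear maps
-/

set_option autoImplicit false

open CategoryTheory Module

namespace GTC

section
variable {k Γ A : Type} [Field k] [AddCommGroup Γ] [DecidableEq Γ] [Ring A] [Algebra k A]
  {𝒜 : Γ → Submodule k A} {ε : Γ → Γ → k} {w : Γ →+ ℤ}

/-- [E1b] PROOF. `β x ζ = ζ (T (E x))`, `E` the scaling of `X` by `μ ↦ ε (-δ) μ`. Balanced: for `a ∈ 𝒜 α`, `x ∈ X.gr μ`: `ε μ α * β (a • x) ζ = ε μ α * ε (-δ) (α + μ) * ζ (a * T x)`,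
`β x (a • ζ) = ε (-δ) μ * ζ (T x * a) = ε (-δ) μ * ε (μ - δ) α * ζ (a * T x)`. -/
theorem of_hom (hA : GA 𝒜 ε w) [FiniteDimensional k A] (X : GM 𝒜) (δ : Γ) (T : X.M →ₗ[A] A)
    (hT : ∀ μ x, x ∈ X.gr μ → T x ∈ 𝒜 (μ - δ)) :
    ∃ β ∈ Bf ε X (om hA) δ, ∀ μ x, x ∈ X.gr μ → ∀ ζ : NTC.DD k A,
      β x ζ = ε (-δ) μ * ζ.toFun (T x) := by
  obtain ⟨E, hE⟩ := scale X.int (fun μ => ε (-δ) μ)
  let β : X.M →ₗ[k] (om hA).M →ₗ[k] k :=
    LinearMap.mk₂ k (fun x (ζ : NTC.DD k A) => ζ.toFun (T (E x)))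
      (fun x x' ζ => by rw [map_add, map_add, map_add])
      (fun c x ζ => by
        rw [map_smul, ← LinearMap.restrictScalars_apply k T, map_smul, map_smul,
          LinearMap.restrictScalars_apply])
      (fun x ζ ζ' => rfl) (fun c x ζ => rfl)
  have hβ : ∀ x (ζ : NTC.DD k A), β x ζ = ζ.toFun (T (E x)) := fun _ _ => rfl
  have key : ∀ μ x, x ∈ X.gr μ → ∀ ζ : NTC.DD k A, β x ζ = ε (-δ) μ * ζ.toFun (T x) := by
    intro μ x hx ζ
    rw [hβ, hE μ x hx, ← LinearMap.restrictScalars_apply k T, map_smul, map_smul,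
      LinearMap.restrictScalars_apply, smul_eq_mul]
  refine ⟨β, ⟨fun μ ν x ζ hx hζ hd => ?_, fun α μ a x (ζ : NTC.DD k A) ha hx => ?_⟩, key⟩
  · have h1 : ζ.toFun (T x) = 0 := hζ (μ - δ) (T x) (hT μ x hx) fun h => hd (by
      rw [sub_eq_iff_eq_add] at h
      rw [h]
      abel)
    exact (key μ x hx ζ).trans (by rw [h1, mul_zero])
  · have h1 : β (a • x) ζ = ε (-δ) (α + μ) * ζ.toFun (T (a • x)) := key _ _ (X.smul ha hx) ζ
    have h2 : β x (a • ζ) = ε (-δ) μ * (a • ζ).toFun (T x) := key μ x hx (a • ζ)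
    have h3 : (a • ζ).toFun (T x) = ζ.toFun (T x * a) := rfl
    have h4 : T x * a = ε (μ - δ) α • (a * T x) := hA.comm (hT μ x hx) ha
    have h5 : ε (μ - δ) α = ε μ α * ε (-δ) α := by rw [sub_eq_add_neg, hA.cf.add]
    have h6 : ε (-δ) (α + μ) = ε (-δ) α * ε (-δ) μ := hA.cf.add' _ _ _
    change ε μ α * β (a • x) ζ = β x (a • ζ)
    have h7 : T (a • x) = a * T x := T.map_smul a x
    have h8 : ∀ (c : k) (y : A), ζ.toFun (c • y) = c * ζ.toFun y := fun c y => ζ.toFun.map_smul c y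
    rw [h1, h2, h3, h4, h5, h6, h7, h8]
    ring

end


end GTC
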