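import Pool.Agent.GTC.B5

/-!
# [GTC-E3] homogeneous components of linear maps
-/

set_option autoImplicit false

open CategoryTheory Module

namespace GTC

section
variable {k Γ A : Type} [Field k] [AddCommGroup Γ] [DecidableEq Γ] [Ring A] [Algebra k A]
  {𝒜 : Γ → Submodule k A} {ε : Γ → Γ → k} {w : Γ →+ ℤ}

/-- the projections -/
private theorem e3_proj (hA : GA 𝒜 ε w) (γ : Γ) : ∃ E : A →ₗ[k] A, (∀ x, E x ∈ 𝒜 γ) ∧ (∀ x ∈ 𝒜 γ, E x = x) ∧
    ∀ β, β ≠ γ → ∀ x ∈ 𝒜 β, E x = 0 := by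
  obtain ⟨E, hE⟩ := scale hA.int (fun β => if β = γ then (1 : k) else 0)
  have h1 : ∀ x ∈ 𝒜 γ, E x = x := fun x hx => by rw [hE γ x hx, if_pos rfl, one_smul]
  have h2 : ∀ β, β ≠ γ → ∀ x ∈ 𝒜 β, E x = 0 := fun β hβ x hx => by rw [hE β x hx, if_neg hβ, zero_smul]
  refine ⟨E, fun x => ?_, h1, h2⟩
  have h3 : (𝒜 γ).mkQ ∘ₗ E = 0 := by
    refine gext hA.int fun β y hy => ?_
    rw [LinearMap.comp_apply, LinearMap.zero_apply, Submodule.mkQ_apply, Submodule.Quotient.mk_eq_zero]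
    by_cases h : β = γ
    · subst h
      rw [h1 y hy]
      exact hy
    · rw [h2 β h y hy]
      exact Submodule.zero_mem _
  have h4 := LinearMap.congr_fun h3 x
  rwa [LinearMap.comp_apply, LinearMap.zero_apply, Submodule.mkQ_apply, Submodule.Quotient.mk_eq_zero] at h4

/-- [E3] PROOF. Let `P γ : A → A` be the scaling by the indicator function of `γ` (`scale`), its range is in `𝒜 γ`, and `P (α + γ) (a * b) = a * P γ b` for `a ∈ 𝒜 α` (`gext`). `T'` is the linear map with `T' x = P (μ - δ) (T x)` on `X.gr μ` (`glue`). For `a ∈ 𝒜 α`, `x ∈ X.gr μ`: `T' (a • x) = P (α + μ - δ) (a * T x) = a * T' x`;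
so `T'` is `A`-linear (`gext` on `X` and on `A`). -/
theorem hom_component (hA : GA 𝒜 ε w) (X : GM 𝒜) (δ : Γ) (T : X.M →ₗ[A] A) :
    ∃ T' : X.M →ₗ[A] A, (∀ μ x, x ∈ X.gr μ → T' x ∈ 𝒜 (μ - δ)) ∧
      ∀ μ x, x ∈ X.gr μ → T x ∈ 𝒜 (μ - δ) → T' x = T x := by
  choose P hP1 hP2 hP3 using e3_proj hA
  obtain ⟨F, hF⟩ := glue X.int (fun μ => P (μ - δ) ∘ₗ (T.restrictScalars k) ∘ₗ (X.gr μ).subtype)
  have hF' : ∀ μ x, x ∈ X.gr μ → F x = P (μ - δ) (T x) := fun μ x hx => hF μ ⟨x, hx⟩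
  have hP4 : ∀ α γ a b, a ∈ 𝒜 α → P (α + γ) (a * b) = a * P γ b := by
    intro α γ a b ha
    have h1 : P (α + γ) ∘ₗ LinearMap.mulLeft k a = LinearMap.mulLeft k a ∘ₗ P γ := by
      refine gext hA.int fun β y hy => ?_
      rw [LinearMap.comp_apply, LinearMap.comp_apply, LinearMap.mulLeft_apply, LinearMap.mulLeft_apply]
      by_cases h : β = γ
      · subst h
        rw [hP2 _ _ (hA.mul ha hy), hP2 _ _ hy]
      · rw [hP3 (α + γ) (α + β) (fun h2 => h (add_left_cancel h2)) _ (hA.mul ha hy), hP3 γ β h _ hy, mul_zero]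
    exact LinearMap.congr_fun h1 b
  have hlin1 : ∀ α a, a ∈ 𝒜 α → ∀ x, F (a • x) = a * F x := by
    intro α a ha x
    let S : X.M →ₗ[k] X.M :=
      { toFun := fun x => a • x
        map_add' := smul_add a
        map_smul' := fun c x => smul_comm a c x }
    have h1 : F ∘ₗ S = LinearMap.mulLeft k a ∘ₗ F := by
      refine gext X.int fun μ y hy => ?_
      rw [LinearMap.comp_apply, LinearMap.comp_apply, LinearMap.mulLeft_apply]
      change F (a • y) = _
      rw [hF' _ _ (X.smul ha hy), hF' _ _ hy, map_smul, smul_eq_mul, add_sub_assoc, hP4 _ _ _ _ ha]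
    exact LinearMap.congr_fun h1 x
  have hlin : ∀ (a : A) (x : X.M), F (a • x) = a * F x := by
    intro a x
    have h1 : F ∘ₗ ((LinearMap.toSpanSingleton A X.M x).restrictScalars k) = LinearMap.mulRight k (F x) := by
      refine gext hA.int fun α b hb => ?_
      rw [LinearMap.comp_apply, LinearMap.mulRight_apply]
      exact hlin1 α b hb x
    exact LinearMap.congr_fun h1 a
  refine ⟨{ toFun := F, map_add' := F.map_add, map_smul' := hlin }, fun μ x hx => ?_, fun μ x hx hT => ?_⟩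
  · change F x ∈ _
    rw [hF' μ x hx]
    exact hP1 _ _
  · change F x = _
    rw [hF' μ x hx, hP2 _ _ hT]

end

end GTC
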