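import Pool.Agent.GTC.C1
import Pool.Agent.GTC.E1
import Pool.Agent.GTC.E3

/-!
# [GTC-E4] the extension property for D(A)
-/

set_option autoImplicit false

open CategoryTheory Module

namespace GTC

section
variable {k Γ A : Type} [Field k] [AddCommGroup Γ] [DecidableEq Γ] [Ring A] [Algebra k A]
  {𝒜 : Γ → Submodule k A} {ε : Γ → Γ → k} {w : Γ →+ ℤ}

/-- [E4] PROOF. `to_hom` gives `T : X → A`, `h` an extension `T1 : F → A`, `hom_component` a homogeneous `T'` with `T' (s.i x) = T x`, `of_hom` a form. Equality on homogeneous elements suffices (`form_ext`). -/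
theorem base_ext (hA : GA 𝒜 ε w) [FiniteDimensional k A] {X F M : GM 𝒜} (s : Ses X F M)
    (h : ∀ f : X.M →ₗ[A] A, ∃ g : F.M →ₗ[A] A, ∀ x, g (s.i x) = f x) : LE ε s (om hA) := by
  intro δ β hβ
  obtain ⟨T, hT1, hT2⟩ := to_hom hA X δ hβ
  obtain ⟨T1, hT1'⟩ := h T
  obtain ⟨T', h1, h2⟩ := hom_component hA F δ T1
  obtain ⟨β', hβ', h3⟩ := of_hom hA F δ T' h1
  refine ⟨β', hβ', fun x ζ => ?_⟩
  have h4 : β' ∘ₗ (s.i.restrictScalars k) = β := by
    refine gext X.int fun μ y hy => ?_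
    rw [LinearMap.comp_apply]
    change β' (s.i y) = β y
    ext η
    have h5 : T' (s.i y) = T y := by
      rw [h2 μ (s.i y) (s.gi hy) (by rw [hT1']; exact hT1 μ y hy), hT1']
    have h6 := h3 μ (s.i y) (s.gi hy) η
    have h7 := hT2 μ y hy η
    rw [h5] at h6
    exact h6.trans h7.symm
  exact LinearMap.congr_fun (LinearMap.congr_fun h4 x) ζ

end

end GTC
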