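import Pool.Agent.GTC.B5

/-!
# [GTC-H1] two independent linear forms give symmetric and skew symmetric forms
-/

set_option autoImplicit false

open CategoryTheory Module

namespace GTC

section
variable {k Γ A : Type} [Field k] [AddCommGroup Γ] [DecidableEq Γ] [Ring A] [Algebra k A]
  {𝒜 : Γ → Submodule k A} {ε : Γ → Γ → k} {w : Γ →+ ℤ}

/-- [H1] PROOF. `δ = γ₁ + γ₂`, `β x y = l₁ x * l₂ y + c * (swap of it)`: for `x ∈ X.gr μ`, `y ∈ X.gr ν`: `β x y = l₁ x * l₂ y + c * ε μ ν * (l₁ y * l₂ x)`, that is `l₁ x * l₂ y + c * ε γ₂ γ₁ * (l₁ y * l₂ x)` for all `x`, `y` (if `l₁ y * l₂ x ≠ 0` then `ν = γ₁`, `μ = γ₂`): define it like this.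
Balanced: for `a ∈ 𝒜 α`: if `α ≠ 0` both sides are `0`; if `α = 0` then `a` is a scalar (`hA.zero`) and `ε μ 0 = 1`. `β ∈ Sf c` (`c * c = 1`, `ε γ₂ γ₁ * ε γ₁ γ₂ = 1`). `β x₁ x₂ = l₂ x₂ = 1`, so `β ≠ 0`. -/
theorem two_forms (hA : GA 𝒜 ε w) (X : GM 𝒜) {γ₁ γ₂ : Γ} {l₁ l₂ : X.M →ₗ[k] k}
    (h1 : l₁ ∈ Du X.gr γ₁) (h2 : l₂ ∈ Du X.gr γ₂)
    (h3 : ∀ α, α ≠ 0 → ∀ a ∈ 𝒜 α, ∀ x, l₁ (a • x) = 0)
    (h4 : ∀ α, α ≠ 0 → ∀ a ∈ 𝒜 α, ∀ x, l₂ (a • x) = 0) {x₁ x₂ : X.M}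
    (h5 : l₁ x₁ = 1) (h6 : l₂ x₁ = 0) (h7 : l₂ x₂ = 1) (c : k) (hc : c * c = 1) :
    ∃ δ, Sf ε c X δ ≠ ⊥ := by
  obtain ⟨β, hβ⟩ : ∃ β : X.M →ₗ[k] X.M →ₗ[k] k,
      ∀ x y, β x y = l₁ x * l₂ y + c * ε γ₂ γ₁ * (l₂ x * l₁ y) :=
    ⟨l₁.smulRight l₂ + (c * ε γ₂ γ₁) • l₂.smulRight l₁, fun x y => rfl⟩
  have hmem : β ∈ Sf ε c X (γ₁ + γ₂) := by
    refine ⟨⟨fun μ ν x y hx hy hd => ?_, fun α μ a x y ha hx => ?_⟩, fun μ ν x y hx hy => ?_⟩
    · have e1 : l₁ x * l₂ y = 0 := by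
        by_cases hμ : μ = γ₁
        · have hν : ν ≠ γ₂ := fun hν => hd (by rw [hμ, hν])
          rw [h2 ν hν y hy, mul_zero]
        · rw [h1 μ hμ x hx, zero_mul]
      have e2 : l₂ x * l₁ y = 0 := by
        by_cases hμ : μ = γ₂
        · have hν : ν ≠ γ₁ := fun hν => hd (by rw [hμ, hν, add_comm])
          rw [h1 ν hν y hy, mul_zero]
        · rw [h2 μ hμ x hx, zero_mul]
      rw [hβ, e1, e2, mul_zero, add_zero]
    · rw [hβ, hβ]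
      by_cases hα : α = 0
      · subst hα
        obtain ⟨c', rfl⟩ := hA.zero a ha
        rw [algebraMap_smul, algebraMap_smul, map_smul, map_smul, map_smul, map_smul,
          hA.cf.zr, smul_eq_mul, smul_eq_mul, smul_eq_mul, smul_eq_mul]
        ring
      · rw [h3 α hα a ha, h3 α hα a ha, h4 α hα a ha, h4 α hα a ha]
        ring
    · rw [hβ, hβ]
      have e1 : c * ε γ₂ γ₁ * (l₂ y * l₁ x) = c * ε ν μ * (l₁ x * l₂ y) := by
        by_cases hμ : μ = γ₁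
        · by_cases hν : ν = γ₂
          · rw [hμ, hν]
            ring
          · rw [h2 ν hν y hy]
            ring
        · rw [h1 μ hμ x hx]
          ring
      have e2 : l₁ y * l₂ x = c * ε ν μ * (c * ε γ₂ γ₁ * (l₂ x * l₁ y)) := by
        by_cases hμ : μ = γ₂
        · by_cases hν : ν = γ₁
          · rw [hμ, hν]
            have h8 := hA.cf.inv γ₁ γ₂
            calc l₁ y * l₂ x = (c * c) * (ε γ₁ γ₂ * ε γ₂ γ₁) * (l₁ y * l₂ x) := by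
                  rw [hc, h8]; ring
              _ = _ := by ring
          · rw [h1 ν hν y hy]
            ring
        · rw [h2 μ hμ x hx]
          ring
      rw [mul_add, ← e1, ← e2]
      ring
  refine ⟨γ₁ + γ₂, fun hb => ?_⟩
  rw [hb, Submodule.mem_bot] at hmem
  have h8 := hβ x₁ x₂
  rw [hmem, LinearMap.zero_apply, LinearMap.zero_apply, h5, h6, h7] at h8
  apply one_ne_zero (α := k)
  rw [h8]
  ring

end

end GTC
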