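import Pool.Agent.GTC.B5

/-!
# [GTC-H2] cyclic modules
-/

set_option autoImplicit false

open CategoryTheory Module

namespace GTC

section
variable {k Γ A : Type} [Field k] [AddCommGroup Γ] [DecidableEq Γ] [Ring A] [Algebra k A]
  {𝒜 : Γ → Submodule k A} {ε : Γ → Γ → k} {w : Γ →+ ℤ}

/-- the span of the products `a • x`, `a` homogeneous of nonzero degree -/
private def h2_N (X : GM 𝒜) : Submodule k X.M :=
  Submodule.span k {y | ∃ (α μ : Γ) (a : A) (x : X.M), α ≠ 0 ∧ a ∈ 𝒜 α ∧ x ∈ X.gr μ ∧ y = a • x}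

private theorem h2_top (X : GM 𝒜) (S : Submodule k X.M) (h : ∀ γ, X.gr γ ≤ S) (x : X.M) :
    x ∈ S := by
  have h1 : (⨆ γ, X.gr γ) ≤ S := iSup_le h
  rw [X.int.submodule_iSup_eq_top] at h1
  exact h1 trivial

private theorem h2_smul (X : GM 𝒜) {α : Γ} (hα : α ≠ 0) {a : A} (ha : a ∈ 𝒜 α) (x : X.M) :
    a • x ∈ h2_N X := by
  let L : X.M →ₗ[k] X.M :=
    { toFun := fun x => a • x
      map_add' := fun x y => smul_add a x y
      map_smul' := fun c x => by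
        rw [RingHom.id_apply]
        rw [← algebraMap_smul A c x, ← algebraMap_smul A c (a • x), smul_smul, smul_smul,
          Algebra.commutes] }
  have h1 : ∀ x, x ∈ (h2_N X).comap L := h2_top X _ (fun μ y hy => by
    rw [Submodule.mem_comap]
    exact Submodule.subset_span ⟨α, μ, a, y, hα, ha, hy, rfl⟩)
  exact h1 x

private theorem h2_proj (X : GM 𝒜) (γ : Γ) : ∃ E : X.M →ₗ[k] X.M,
    (∀ x ∈ X.gr γ, E x = x) ∧ (∀ μ, μ ≠ γ → ∀ x ∈ X.gr μ, E x = 0) ∧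
      ∀ x ∈ h2_N X, E x ∈ h2_N X := by
  obtain ⟨E, hE⟩ := scale X.int (fun μ => if μ = γ then (1 : k) else 0)
  refine ⟨E, fun x hx => ?_, fun μ hμ x hx => ?_, fun x hx => ?_⟩
  · rw [hE γ x hx, if_pos rfl, one_smul]
  · rw [hE μ x hx, if_neg hμ, zero_smul]
  · unfold h2_N at hx
    induction hx using Submodule.span_induction with
    | mem y hy =>
      obtain ⟨α, μ, a, x, hα, ha, hx, rfl⟩ := hy
      rw [hE (α + μ) _ (X.smul ha hx)]
      exact Submodule.smul_mem _ _ (h2_smul X hα ha x)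
    | zero => rw [map_zero]; exact Submodule.zero_mem _
    | add y z _ _ hy hz => rw [map_add]; exact Submodule.add_mem _ hy hz
    | smul c y _ hy => rw [map_smul]; exact Submodule.smul_mem _ _ hy

private theorem h2_cyc (hA : GA 𝒜 ε w) (X : GM 𝒜) (γ₁ : Γ) (ξ : X.M) (hξ : ξ ∈ X.gr γ₁)
    (h : ∀ γ, ∀ x ∈ X.gr γ, ∃ c : k, x - c • ξ ∈ h2_N X) (x : X.M) : ∃ a : A, x = a • ξ := by
  classical
  let S : Submodule k X.M := (Submodule.span A {ξ}).restrictScalars k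
  have hS : ∀ y, y ∈ S ↔ ∃ a : A, a • ξ = y := fun y => by
    change y ∈ Submodule.span A {ξ} ↔ _
    exact Submodule.mem_span_singleton
  obtain ⟨c, hc⟩ := ((fin_ne X.int).image w).bddBelow
  have hlow : ∀ γ, X.gr γ ≠ ⊥ → c ≤ w γ := fun γ hγ => hc ⟨γ, hγ, rfl⟩
  have hind : ∀ n : ℕ, ∀ γ, w γ < c + n → X.gr γ ≤ S := by
    intro n
    induction n with
    | zero =>
      intro γ hγ
      have h1 : X.gr γ = ⊥ := by
        by_contra h2
        have h3 := hlow γ h2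
        push_cast at hγ
        omega
      rw [h1]
      exact bot_le
    | succ n ih =>
      intro γ hγ x hx
      obtain ⟨E, hE1, hE2, -⟩ := h2_proj X γ
      obtain ⟨d, hd⟩ := h γ x hx
      have h1 : x = d • E ξ + E (x - d • ξ) := by
        rw [map_sub, map_smul, hE1 x hx]
        abel
      rw [h1]
      refine Submodule.add_mem _ (Submodule.smul_mem _ _ ?_) ?_
      · by_cases h2 : γ₁ = γ
        · rw [hE1 ξ (h2 ▸ hξ)]
          exact (hS ξ).2 ⟨1, one_smul _ _⟩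
        · rw [hE2 γ₁ h2 ξ hξ]
          exact Submodule.zero_mem _
      · have h3 : ∀ y ∈ h2_N X, E y ∈ S := by
          intro y hy
          unfold h2_N at hy
          induction hy using Submodule.span_induction with
          | mem y hy =>
            obtain ⟨α, μ, a, z, hα, ha, hz, rfl⟩ := hy
            by_cases h4 : α + μ = γ
            · rw [hE1 _ (h4 ▸ X.smul ha hz)]
              by_cases h5 : a = 0
              · rw [h5, zero_smul]
                exact Submodule.zero_mem _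
              · have h6 : 𝒜 α ≠ ⊥ := fun h7 => h5 (by
                  rw [h7] at ha
                  exact ha)
                have h8 := hA.pos α hα h6
                have h9 : w γ = w α + w μ := by rw [← h4, map_add]
                have h10 : w μ < c + n := by
                  push_cast at hγ
                  omega
                obtain ⟨b, hb⟩ := (hS z).1 (ih μ h10 hz)
                exact (hS _).2 ⟨a * b, by rw [mul_smul, hb]⟩
            · rw [hE2 _ h4 _ (X.smul ha hz)]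
              exact Submodule.zero_mem _
          | zero => rw [map_zero]; exact Submodule.zero_mem _
          | add y z _ _ hy hz => rw [map_add]; exact Submodule.add_mem _ hy hz
          | smul c y _ hy => rw [map_smul]; exact Submodule.smul_mem _ _ hy
        exact h3 _ hd
  obtain ⟨a, ha⟩ := (hS x).1 (h2_top X S (fun γ => hind (w γ - c + 1).toNat γ (by omega)) x)
  exact ⟨a, ha.symm⟩

/-- [H2] PROOF. Let `N` be the span of the `a • x`, `a ∈ 𝒜 α`, `α ≠ 0`, `x` homogeneous. `N` is graded. Suppose there is a homogeneous `x₁` with `X = k x₁ + N`, or `X = N` (then `x₁ = 0`). Then `X = A x₁`: the component `X.gr γ` is in `A x₁` by strong induction on `w γ` (the weights of `X` are bounded below: `fin_ne`):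
`X.gr γ ≤ k x₁ + ∑ 𝒜 α • X.gr (γ - α)` over `α ≠ 0` with `𝒜 α ≠ ⊥`, and `w (γ - α) < w γ`. Otherwise there is a homogeneous `x₁ ∉ N` of degree `γ₁` and a homogeneous `x₂ ∉ k x₁ + N` of degree `γ₂`. Let `l₁` be a linear form on `X.gr γ₁` which is `1` at `x₁` and `0` on `N ∩ X.gr γ₁`, extended by `0` on the other components (`glue`),
`l₂` a linear form on `X.gr γ₂` which is `1` at `x₂` and `0` on `(N + k x₁) ∩ X.gr γ₂`, extended by `0`. -/
theorem cyc_or (hA : GA 𝒜 ε w) (X : GM 𝒜) :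
    (∃ ξ : X.M, ∀ x : X.M, ∃ a : A, x = a • ξ) ∨
    ∃ (γ₁ γ₂ : Γ) (l₁ l₂ : X.M →ₗ[k] k) (x₁ x₂ : X.M), l₁ ∈ Du X.gr γ₁ ∧ l₂ ∈ Du X.gr γ₂ ∧
      (∀ α, α ≠ 0 → ∀ a ∈ 𝒜 α, ∀ x, l₁ (a • x) = 0) ∧
      (∀ α, α ≠ 0 → ∀ a ∈ 𝒜 α, ∀ x, l₂ (a • x) = 0) ∧ l₁ x₁ = 1 ∧ l₂ x₁ = 0 ∧ l₂ x₂ = 1 := by
  classical
  by_cases h1 : ∀ γ, ∀ x ∈ X.gr γ, x ∈ h2_N X
  · left
    refine ⟨0, h2_cyc hA X 0 0 (Submodule.zero_mem _) fun γ x hx => ⟨0, ?_⟩⟩
    rw [zero_smul, sub_zero]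
    exact h1 γ x hx
  push Not at h1
  obtain ⟨γ₁, x₁, hx₁, hn₁⟩ := h1
  by_cases h2 : ∀ γ, ∀ x ∈ X.gr γ, ∃ c : k, x - c • x₁ ∈ h2_N X
  · exact Or.inl ⟨x₁, h2_cyc hA X γ₁ x₁ hx₁ h2⟩
  push Not at h2
  obtain ⟨γ₂, x₂, hx₂, hn₂⟩ := h2
  right
  obtain ⟨f₁, hf₁, hf₁'⟩ := LinearMap.exists_extend_of_notMem (0 : h2_N X →ₗ[k] k) hn₁ 1
  have hn₂' : x₂ ∉ h2_N X ⊔ Submodule.span k {x₁} := by
    intro h3
    obtain ⟨y, hy, z, hz, hyz⟩ := Submodule.mem_sup.1 h3
    obtain ⟨c, rfl⟩ := Submodule.mem_span_singleton.1 hz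
    apply hn₂ c
    rw [← hyz, add_sub_cancel_right]
    exact hy
  obtain ⟨f₂, hf₂, hf₂'⟩ := LinearMap.exists_extend_of_notMem
    (0 : (h2_N X ⊔ Submodule.span k {x₁} : Submodule k X.M) →ₗ[k] k) hn₂' 1
  have hg₁ : ∀ y ∈ h2_N X, f₁ y = 0 := fun y hy => by
    have h3 := LinearMap.congr_fun hf₁ ⟨y, hy⟩
    exact h3
  have hg₂ : ∀ y ∈ h2_N X ⊔ Submodule.span k {x₁}, f₂ y = 0 := fun y hy => by
    have h3 := LinearMap.congr_fun hf₂ ⟨y, hy⟩
    exact h3
  obtain ⟨E₁, a1, a2, a3⟩ := h2_proj X γ₁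
  obtain ⟨E₂, b1, b2, b3⟩ := h2_proj X γ₂
  refine ⟨γ₁, γ₂, f₁ ∘ₗ E₁, f₂ ∘ₗ E₂, x₁, x₂, ?_, ?_, ?_, ?_, ?_, ?_, ?_⟩
  · intro γ hγ x hx
    rw [LinearMap.comp_apply, a2 γ hγ x hx, map_zero]
  · intro γ hγ x hx
    rw [LinearMap.comp_apply, b2 γ hγ x hx, map_zero]
  · intro α hα a ha x
    rw [LinearMap.comp_apply]
    exact hg₁ _ (a3 _ (h2_smul X hα ha x))
  · intro α hα a ha x
    rw [LinearMap.comp_apply]
    exact hg₂ _ (Submodule.mem_sup_left (b3 _ (h2_smul X hα ha x)))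
  · rw [LinearMap.comp_apply, a1 x₁ hx₁]
    exact hf₁'
  · rw [LinearMap.comp_apply]
    by_cases h3 : γ₁ = γ₂
    · rw [b1 x₁ (h3 ▸ hx₁)]
      exact hg₂ _ (Submodule.mem_sup_right (Submodule.mem_span_singleton_self _))
    · rw [b2 γ₁ h3 x₁ hx₁, map_zero]
  · rw [LinearMap.comp_apply, b1 x₂ hx₂]
    exact hf₂'

end

end GTC
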