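import Pool.Agent.RGS.Q
import Pool.Agent.GTC.B2

/-!
# [GTC-H3] if `D(A)` is cyclic then `A` is selfinjective
-/

set_option autoImplicit false

open CategoryTheory Module

namespace GTC

/-- [H3] PROOF. `A → D(A)`, `a ↦ a • ξ` is surjective, the dimensions are equal, so `D(A)` is free; `RGS.injective_of_dd`. -/
theorem inj_of_cyclic {k A : Type} [Field k] [Ring A] [Algebra k A] [FiniteDimensional k A]
    (ξ : NTC.DD k A) (h : ∀ x : NTC.DD k A, ∃ a : A, x = a • ξ) : Module.Injective A A := by
  let f : A →ₗ[A] NTC.DD k A := LinearMap.toSpanSingleton A (NTC.DD k A) ξ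
  have hs : Function.Surjective f := fun x => by
    obtain ⟨a, ha⟩ := h x
    exact ⟨a, ha.symm⟩
  let E : NTC.DD k A ≃ₗ[k] (A →ₗ[k] k) := NTC.DD.eq.linearEquiv k
  have hfr : finrank k (NTC.DD k A) = finrank k A := by
    rw [E.finrank_eq]
    exact Subspace.dual_finrank_eq
  let g : A →ₗ[k] NTC.DD k A := f.restrictScalars k
  have hi : Function.Injective f := by
    have h1 : Function.Injective g :=
      (LinearMap.injective_iff_surjective_of_finrank_eq_finrank hfr.symm).2 hs
    exact h1
  have hp : Module.Projective A (NTC.DD k A) :=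
    Module.Projective.of_equiv (LinearEquiv.ofBijective f ⟨hi, hs⟩)
  exact RGS.injective_of_dd inferInstance hp

end GTC
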