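import Pool.Agent.GTC.G8

/-!
# [GTC-H4] the forms on D(A) are all symmetric or all skew symmetric
-/

set_option autoImplicit false

open CategoryTheory Module

namespace GTC

section
variable {k Γ A : Type} [Field k] [AddCommGroup Γ] [DecidableEq Γ] [Ring A] [Algebra k A]
  {𝒜 : Γ → Submodule k A} {ε : Γ → Γ → k} {w : Γ →+ ℤ}

private theorem h4_bot (X : GM 𝒜) (δ : Γ) (s : k) (h : finrank k (Sf ε s X δ) = 0) :
    Sf ε s X δ = ⊥ := by
  have h1 : FiniteDimensional k (X.M →ₗ[k] X.M →ₗ[k] k) := inferInstance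
  exact (@Submodule.finrank_eq_zero k (X.M →ₗ[k] X.M →ₗ[k] k) _ _ _ _ _ _ _ _).1 h

/-- [H4] PROOF. Let `P`, `N` be the sums of the dimensions of the `Sf 1`, `Sf (-1)` over all degrees (finitely many are nonzero). `P + N = aug (Bt)` (`Sf_add`), `P - N = aug (Tr)`. So `P + N = e`, `(P - N)^2 = e^2` and `P * N = 0`. -/
theorem forms_dicho (hc : CF ε) (h2 : (2 : k) ≠ 0) (X : GM 𝒜) (e : ℤ)
    (h3 : aug (Bt ε X X) = e) (h4 : aug (Tr ε X) * aug (Tr ε X) = e * e) :
    (∀ δ, Sf ε 1 X δ = ⊥) ∨ ∀ δ, Sf ε (-1) X δ = ⊥ := by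
  classical
  have hsum : ∀ (x : AddMonoidAlgebra ℤ Γ) (S : Finset Γ), x.coeff.support ⊆ S →
      aug x = ∑ γ ∈ S, x.coeff γ := by
    intro x S hS
    rw [aug_apply]
    exact Finsupp.sum_of_support_subset _ hS _ (fun _ _ => rfl)
  let S : Finset Γ := (Bt ε X X).coeff.support ∪ (Tr ε X).coeff.support
  let p : Γ → ℤ := fun δ => (finrank k (Sf ε 1 X δ) : ℤ)
  let n : Γ → ℤ := fun δ => (finrank k (Sf ε (-1) X δ) : ℤ)
  have hp0 : ∀ δ, 0 ≤ p δ := fun δ => Int.natCast_nonneg _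
  have hn0 : ∀ δ, 0 ≤ n δ := fun δ => Int.natCast_nonneg _
  have hB : ∀ δ, (Bt ε X X).coeff δ = p δ + n δ := by
    intro δ
    rw [Bt_coeff, ← Sf_add hc h2 X δ]
    push_cast
    rfl
  have hT : ∀ δ, (Tr ε X).coeff δ = p δ - n δ := fun δ => Tr_coeff X δ
  have h5 : (∑ δ ∈ S, p δ) + (∑ δ ∈ S, n δ) = e := by
    rw [← h3, hsum _ S Finset.subset_union_left, ← Finset.sum_add_distrib]
    exact Finset.sum_congr rfl fun δ _ => (hB δ).symm
  have h6 : aug (Tr ε X) = (∑ δ ∈ S, p δ) - (∑ δ ∈ S, n δ) := by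
    rw [hsum _ S Finset.subset_union_right, ← Finset.sum_sub_distrib]
    exact Finset.sum_congr rfl fun δ _ => hT δ
  have h7 : (∑ δ ∈ S, p δ) * (∑ δ ∈ S, n δ) = 0 := by
    rw [h6, ← h5] at h4
    nlinarith [h4]
  have hout : ∀ δ, δ ∉ S → p δ + n δ = 0 := by
    intro δ hδ
    rw [← hB δ]
    by_contra h8
    exact hδ (Finset.mem_union_left _ (Finsupp.mem_support_iff.2 h8))
  rcases mul_eq_zero.1 h7 with h8 | h8
  · left
    intro δ
    have h9 : p δ = 0 := by
      by_cases hδ : δ ∈ S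
      · exact (Finset.sum_eq_zero_iff_of_nonneg fun δ _ => hp0 δ).1 h8 δ hδ
      · have := hout δ hδ
        have := hp0 δ
        have := hn0 δ
        omega
    have h10 : finrank k (Sf ε 1 X δ) = 0 := Int.natCast_eq_zero.1 h9
    exact h4_bot X δ _ h10
  · right
    intro δ
    have h9 : n δ = 0 := by
      by_cases hδ : δ ∈ S
      · exact (Finset.sum_eq_zero_iff_of_nonneg fun δ _ => hn0 δ).1 h8 δ hδ
      · have := hout δ hδ
        have := hp0 δ
        have := hn0 δ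
        omega
    have h10 : finrank k (Sf ε (-1) X δ) = 0 := Int.natCast_eq_zero.1 h9
    exact h4_bot X δ _ h10

end

end GTC
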