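import Pool.Agent.GTC.B4
import Pool.Agent.GTC.D1
import Pool.Agent.GTC.E4
import Pool.Agent.GTC.H1
import Pool.Agent.GTC.H2
import Pool.Agent.GTC.H3
import Pool.Agent.GTC.H4

/-!
# [GTC-Core] the main theorem for a connected graded algebra (assembly, complete)
-/

set_option autoImplicit false

open CategoryTheory Module

namespace GTC

section
variable {k Γ A : Type} [Field k] [AddCommGroup Γ] [DecidableEq Γ] [Ring A] [Algebra k A]
  {𝒜 : Γ → Submodule k A} {ε : Γ → Γ → k} {w : Γ →+ ℤ}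

/-- a cover of `X` -/
structure Cov (hA : GA 𝒜 ε w) [FiniteDimensional k A] (X : GM 𝒜) where
  /-- the number of generators -/
  n : ℕ
  /-- the degrees of the generators -/
  φ : Fin n → Γ
  /-- the kernel -/
  Y : GM 𝒜
  /-- the sequence -/
  s : Ses Y (fr hA φ) X
  card : ∀ γ, (Finset.univ.filter fun i => φ i = γ).card = finrank k (X.gr γ)
  wt : ∀ c, Wt w c X → Wt w (c + 1) Y

/-- a cover of `X` -/
noncomputable def cov (hA : GA 𝒜 ε w) [FiniteDimensional k A] (X : GM 𝒜) : Cov hA X :=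
  Classical.choice (by
    obtain ⟨n, φ, Y, s, h1, h2⟩ := cover hA X
    exact ⟨⟨n, φ, Y, s, h1, h2⟩⟩)

/-- the syzygies of `D(A)` -/
noncomputable def ch (hA : GA 𝒜 ε w) [FiniteDimensional k A] : ℕ → GM 𝒜
  | 0 => om hA
  | n + 1 => (cov hA (ch hA n)).Y

/-- the sequences -/
noncomputable def sq (hA : GA 𝒜 ε w) [FiniteDimensional k A] (n : ℕ) :
    Ses (ch hA (n + 1)) (fr hA (cov hA (ch hA n)).φ) (ch hA n) := (cov hA (ch hA n)).s

variable (hA : GA 𝒜 ε w) [FiniteDimensional k A]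

theorem LE_all (m : ℕ)
    (hext : ∀ n, n + 1 ≤ m → ∀ f : (ch hA (n + 1)).M →ₗ[A] A,
      ∃ g : (fr hA (cov hA (ch hA n)).φ).M →ₗ[A] A, ∀ x, g ((sq hA n).i x) = f x) (n : ℕ) :
    ∀ l, l + n + 1 ≤ m → LE ε (sq hA l) (ch hA n) := by
  induction n with
  | zero => exact fun l hl => base_ext hA (sq hA l) (hext l (by omega))
  | succ n ih =>
    intro l hl
    exact LE_shift hA _ (sq hA l) (sq hA n)
      (LE_symm hA _ (sq hA (l + 1)) (sq hA n) (ih (l + 1) (by omega)))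

theorem ch_wt {c : ℤ} (hc : Wt w c (om hA)) : ∀ n : ℕ, Wt w (c + n) (ch hA n) := by
  intro n
  induction n with
  | zero =>
    show Wt w (c + ((0 : ℕ) : ℤ)) (om hA)
    rw [Nat.cast_zero, add_zero]
    exact hc
  | succ n ih =>
    have h := (cov hA (ch hA n)).wt _ ih
    push_cast
    rw [← add_assoc]
    exact h

include hA in
omit [FiniteDimensional k A] in
theorem HA_zero [Nontrivial A] : finrank k (𝒜 0) = 1 := by
  have h1 : 𝒜 0 = k ∙ (1 : A) := by
    apply le_antisymm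
    · intro a ha
      obtain ⟨c, rfl⟩ := hA.zero a ha
      rw [Algebra.algebraMap_eq_smul_one]
      exact Submodule.smul_mem _ _ (Submodule.mem_span_singleton_self _)
    · rw [Submodule.span_singleton_le_iff_mem]
      exact hA.one
  rw [h1]
  exact finrank_span_singleton one_ne_zero

include hA in
theorem s_nonneg [Nontrivial A] {s : ℤ} (hs : ∀ γ, 𝒜 γ ≠ ⊥ → w γ ≤ s) : 0 ≤ s := by
  have h1 := hs 0 (fun h0 => by
    have h2 := HA_zero hA
    rw [h0, finrank_bot] at h2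
    exact zero_ne_one h2)
  rwa [map_zero] at h1

theorem om_gr_ne {γ : Γ} (h : (om hA).gr γ ≠ ⊥) : 𝒜 (-γ) ≠ ⊥ := by
  intro h0
  have h1 := finrank_omGr hA.int γ
  rw [h0, finrank_bot] at h1
  exact h (Submodule.finrank_eq_zero.1 h1)

theorem om_wt_lo {s : ℤ} (hs : ∀ γ, 𝒜 γ ≠ ⊥ → w γ ≤ s) : Wt w (-s) (om hA) := by
  intro γ h
  have h1 := hs _ (om_gr_ne hA h)
  rw [map_neg] at h1
  omega

theorem om_wt_up : Wt (-w) 0 (om hA) := by
  intro γ h
  have h1 := om_gr_ne hA h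
  rw [AddMonoidHom.neg_apply]
  by_cases h0 : -γ = 0
  · rw [neg_eq_zero] at h0
    rw [h0, map_zero]
    exact le_rfl
  · have h2 := hA.pos _ h0 h1
    rw [map_neg] at h2
    omega

include hA in
theorem HA_lo : WB w 0 (HA 𝒜) := by
  intro γ hγ
  rw [HA_coeff hA.int] at hγ
  by_cases h0 : γ = 0
  · rw [h0, map_zero]
  · refine (hA.pos γ h0 fun hb => hγ ?_).le
    rw [hb, finrank_bot]
    rfl

include hA in
theorem HA_up {s : ℤ} (hs : ∀ γ, 𝒜 γ ≠ ⊥ → w γ ≤ s) : WB (-w) (-s) (HA 𝒜) := by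
  intro γ hγ
  rw [HA_coeff hA.int] at hγ
  have h1 := hs γ fun hb => hγ (by
    rw [hb, finrank_bot]
    rfl)
  rw [AddMonoidHom.neg_apply]
  omega

/-- **Theorem.** the first Tachikawa conjecture for a connected graded algebra which is colour
commutative, characteristic not two -/
theorem core (h2 : (2 : k) ≠ 0) (s : ℕ) (hs : ∀ γ, 𝒜 γ ≠ ⊥ → w γ ≤ s)
    (hext : ∀ n, n + 1 ≤ 4 * s + 2 → ∀ f : (ch hA (n + 1)).M →ₗ[A] A,
      ∃ g : (fr hA (cov hA (ch hA n)).φ).M →ₗ[A] A, ∀ x, g ((sq hA n).i x) = f x) :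
    Module.Injective A A := by
  rcases subsingleton_or_nontrivial A with hst | hn
  · refine ⟨fun X Y _ _ _ _ f hf g => ⟨0, fun x => Subsingleton.elim _ _⟩⟩
  · have hLE := LE_all hA _ hext
    have hlo := om_wt_lo hA hs
    have hup := om_wt_up hA
    have hw := ch_wt hA hlo
    have hc0' : ch hA 0 = om hA := rfl
    have hx1 : ∀ n, Hm (ch hA (n + 1)) + Hm (ch hA n) = HA 𝒜 * Hm (ch hA n) := fun n =>
      Hm_cover hA (sq hA n) (cov hA (ch hA n)).card
    have hb1 : ∀ n, n < 3 * s + 1 → Bt ε (ch hA (n + 1)) (ch hA 0) + Bt ε (ch hA n) (ch hA 0) =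
        Hm (ch hA n) * Hm (ch hA 0) := fun n hn =>
      Bt_cover hA (sq hA n) (cov hA (ch hA n)).card (ch hA 0) (hLE 0 n (by omega))
    have ht1 : ∀ n, n < 2 * s + 1 → Tr ε (ch hA (n + 1)) + Tr ε (ch hA n) =
        HA 𝒜 * psi (sg ε) (sg_zero hA.cf) (sg_add hA.cf h2) (Hm (ch hA n)) := fun n hn =>
      Tr_cover hA h2 (sq hA n) (cov hA (ch hA n)).card (hLE (n + 1) n (by omega))
        (hLE n n (by omega))
    have hB := num1 (w := w) (HA 𝒜) (s : ℤ) (HA_lo hA) (HA_up hA hs) (fun n => Hm (ch hA n))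
      (fun n => Bt ε (ch hA n) (ch hA 0)) (3 * s + 1) (by push_cast; omega)
      (fun n _ => hx1 n) hb1 (Hm_wb (hw _)) (Hm_wb hlo) (Hm_wb hup)
      (Bt_wb (hw _) hlo) ((Bt_wb hup hup).mono (by omega))
    have hT := num2 (w := w) (sg ε) (sg_zero hA.cf) (sg_add hA.cf h2) (HA 𝒜) (s : ℤ)
      (by omega) (HA_lo hA) (HA_up hA hs) (fun n => Hm (ch hA n)) (fun n => Tr ε (ch hA n))
      (2 * s + 1) (by push_cast; omega) (fun n _ => hx1 n) ht1 (Hm_wb (hw _)) (Hm_wb hup)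
      (Tr_wb (hw _)) ((Tr_wb hup).mono (by omega))
    have he0 : (finrank k A : ℤ) ≠ 0 := by
      have : 0 < finrank k A := finrank_pos
      omega
    simp only [hc0'] at hB hT
    rw [Hm_om] at hB hT
    have hB2 : aug (Bt ε (om hA) (om hA)) = (finrank k A : ℤ) := by
      have h3 := congrArg aug hB
      rw [map_mul, map_mul, aug_ng, aug_HA hA.int] at h3
      exact mul_left_cancel₀ he0 h3
    have hT2 : aug (Tr ε (om hA)) * aug (Tr ε (om hA)) = (finrank k A : ℤ) * (finrank k A : ℤ) := by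
      have h3 := aug_sq (w := w) (sg ε) (sg_zero hA.cf) (sg_add hA.cf h2) (fun a => sg_sq a)
        (HA 𝒜) (Tr ε (om hA)) (by
          rw [HA_coeff hA.int, HA_zero hA]
          rfl) (fun γ h0 hγ => by
            rw [HA_coeff hA.int] at hγ
            refine hA.pos γ h0 fun hb => hγ ?_
            rw [hb, finrank_bot]
            rfl) hT
      rw [h3, aug_HA hA.int]
    have hd := forms_dicho hA.cf h2 (om hA) _ hB2 hT2
    rcases cyc_or hA (om hA) with ⟨ξ, hξ⟩ | ⟨γ₁, γ₂, l₁, l₂, x₁, x₂, a1, a2, a3, a4, a5, a6, a7⟩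
    · exact inj_of_cyclic (k := k) ξ hξ
    · exfalso
      rcases hd with hd | hd
      · obtain ⟨δ, hδ⟩ := two_forms hA (om hA) a1 a2 a3 a4 a5 a6 a7 1 (by ring)
        exact hδ (hd δ)
      · obtain ⟨δ, hδ⟩ := two_forms hA (om hA) a1 a2 a3 a4 a5 a6 a7 (-1) (by ring)
        exact hδ (hd δ)

end

end GTC
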