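import Pool.Agent.GTC.C1
import Pool.Agent.GTC.C3
import Pool.Agent.GTC.C6

/-!
# [GTC-D1a] propagation of the extension property
-/

set_option autoImplicit false

open CategoryTheory Module

namespace GTC

section
variable {k Γ A : Type} [Field k] [AddCommGroup Γ] [DecidableEq Γ] [Ring A] [Algebra k A]
  {𝒜 : Γ → Submodule k A} {ε : Γ → Γ → k} {w : Γ →+ ℤ}

/-- [D1a] symmetry.
PROOF. By `LE_iff_RE` we show `RE ε s' M`. Let `g ∈ Bf M X' δ`, `g1 = g ∘ s.p ∈ Bf (fr φ) X' δ` (`Bf_pull`), extended to `d ∈ Bf (fr φ) F' δ` by `fr_RE`. `d ∘ s.i ∈ Bf X F' δ` vanishes on `X × X'`, so it is `e1 (x, s'.p f')` with `e1 ∈ Bf X M' δ` (`descend'`), extended to `e2 ∈ Bf (fr φ) M' δ` (`h`).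
Let `e3 = e2 (·, s'.p ·) ∈ Bf (fr φ) F' δ`. `d - e3` vanishes on `X × F'`, so `d - e3 = z (s.p ·, ·)`, `z ∈ Bf M F' δ` (`descend`), and `z (s.p f, s'.i x') = d (f, s'.i x') = g (s.p f, x')`. -/
theorem LE_symm (hA : GA 𝒜 ε w) [FiniteDimensional k A] {n : ℕ} (φ : Fin n → Γ)
    {X M X' F' M' : GM 𝒜} (s : Ses X (fr hA φ) M) (s' : Ses X' F' M') (h : LE ε s M') :
    LE ε s' M := by
  rw [LE_iff_RE hA.cf]
  intro δ g hg
  obtain ⟨d, hd, hd1⟩ := fr_RE hA φ s' δ (g ∘ₗ s.p.restrictScalars k)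
    (Bf_pull s.p (fun γ x hx => s.gp hx) hg)
  have h1 : d ∘ₗ s.i.restrictScalars k ∈ Bf ε X F' δ := Bf_pull s.i (fun γ x hx => s.gi hx) hd
  obtain ⟨e1, he1, he1'⟩ := descend' s' h1 (fun y x => by
    show d (s.i y) (s'.i x) = 0
    rw [hd1]
    show g (s.p (s.i y)) x = 0
    rw [s.p_i, map_zero, LinearMap.zero_apply])
  obtain ⟨e2, he2, he2'⟩ := h δ e1 he1
  have h3 : e2.compl₂ (s'.p.restrictScalars k) ∈ Bf ε (fr hA φ) F' δ :=
    Bf_pull' s'.p (fun γ x hx => s'.gp hx) he2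
  have h4 : d - e2.compl₂ (s'.p.restrictScalars k) ∈ Bf ε (fr hA φ) F' δ :=
    Submodule.sub_mem (M := (fr hA φ).M →ₗ[k] F'.M →ₗ[k] k) _ hd h3
  have h5 : ∀ x y, (d - e2.compl₂ (s'.p.restrictScalars k)) (s.i x) y = 0 := by
    intro x y
    have h6 : (d - e2.compl₂ (s'.p.restrictScalars k)) (s.i x) y =
        d (s.i x) y - e2 (s.i x) (s'.p y) := rfl
    have h7 : (d ∘ₗ s.i.restrictScalars k) x y = d (s.i x) y := rfl
    rw [h6, he2', he1', h7, sub_self]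
  obtain ⟨z, hz, hz'⟩ := descend s h4 h5
  refine ⟨z, hz, fun m x => ?_⟩
  obtain ⟨f, rfl⟩ := s.sur m
  rw [hz']
  show d f (s'.i x) - e2 f (s'.p (s'.i x)) = g (s.p f) x
  rw [s'.p_i, map_zero, sub_zero, hd1]
  rfl

end


end GTC
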