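import Pool.Agent.NTC.D0

/-!
# [GTC] MP_68f647_al: graded colour commutative algebras and the first Tachikawa conjecture

Definitions (complete, no row).

`A` is an algebra over a field `k`, graded by an abelian group `Γ`, `a b = ε(α, β) b a` for
homogeneous `a`, `b` of degrees `α`, `β`. `GM 𝒜`: finite-dimensional graded left modules.
`Bf ε X Y δ`: the balanced bilinear forms `X × Y → k` of degree `δ`.
`Sf ε s X δ`: the forms on `X × X` with `β(y, x) = s ε(|y|, |x|) β(x, y)`.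
-/

set_option autoImplicit false

open CategoryTheory Module

namespace GTC

/-- `ε` is a commutation factor -/
structure CF {k Γ : Type} [Field k] [AddCommGroup Γ] (ε : Γ → Γ → k) : Prop where
  add : ∀ a b c, ε (a + b) c = ε a c * ε b c
  inv : ∀ a b, ε a b * ε b a = 1

section
variable {k Γ A : Type} [Field k] [AddCommGroup Γ] [DecidableEq Γ] [Ring A] [Algebra k A]

/-- `A` is graded by `𝒜`, commutative up to `ε`, positively graded for the weight `w`, and its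
component of degree zero is `k` -/
structure GA (𝒜 : Γ → Submodule k A) (ε : Γ → Γ → k) (w : Γ →+ ℤ) : Prop where
  cf : CF ε
  int : DirectSum.IsInternal 𝒜
  one : (1 : A) ∈ 𝒜 0
  mul : ∀ {α β : Γ} {a b : A}, a ∈ 𝒜 α → b ∈ 𝒜 β → a * b ∈ 𝒜 (α + β)
  comm : ∀ {α β : Γ} {a b : A}, a ∈ 𝒜 α → b ∈ 𝒜 β → a * b = ε α β • (b * a)
  zero : ∀ a ∈ 𝒜 0, ∃ c : k, a = algebraMap k A c
  pos : ∀ γ, γ ≠ 0 → 𝒜 γ ≠ ⊥ → 0 < w γ

/-- bundled finite-dimensional graded left modules -/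
structure GM (𝒜 : Γ → Submodule k A) : Type 1 where
  /-- the module -/
  M : Type
  [acg : AddCommGroup M]
  [modk : Module k M]
  [modA : Module A M]
  [tow : IsScalarTower k A M]
  [fin : FiniteDimensional k M]
  /-- the homogeneous components -/
  gr : Γ → Submodule k M
  int : DirectSum.IsInternal gr
  smul : ∀ {α μ : Γ} {a : A} {m : M}, a ∈ 𝒜 α → m ∈ gr μ → a • m ∈ gr (α + μ)

attribute [instance] GM.acg GM.modk GM.modA GM.tow GM.fin

variable {𝒜 : Γ → Submodule k A}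

/-- graded short exact sequences `0 → X → F → M → 0` -/
structure Ses (X F M : GM 𝒜) where
  /-- the injection -/
  i : X.M →ₗ[A] F.M
  /-- the surjection -/
  p : F.M →ₗ[A] M.M
  inj : Function.Injective i
  sur : Function.Surjective p
  ex : LinearMap.range i = LinearMap.ker p
  gi : ∀ {γ : Γ} {x : X.M}, x ∈ X.gr γ → i x ∈ F.gr γ
  gp : ∀ {γ : Γ} {x : F.M}, x ∈ F.gr γ → p x ∈ M.gr γ

/-- the balanced forms of degree `δ` on `X × Y` -/
def Bf (ε : Γ → Γ → k) (X Y : GM 𝒜) (δ : Γ) : Submodule k (X.M →ₗ[k] Y.M →ₗ[k] k) where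
  carrier := {β | (∀ μ ν x y, x ∈ X.gr μ → y ∈ Y.gr ν → μ + ν ≠ δ → β x y = 0) ∧
    ∀ α μ a x y, a ∈ 𝒜 α → x ∈ X.gr μ → ε μ α * β (a • x) y = β x (a • y)}
  zero_mem' := by simp
  add_mem' {β β'} h h' := by
    refine ⟨fun μ ν x y hx hy hd => ?_, fun α μ a x y ha hx => ?_⟩
    · rw [LinearMap.add_apply, LinearMap.add_apply, h.1 μ ν x y hx hy hd,
        h'.1 μ ν x y hx hy hd, add_zero]
    · rw [LinearMap.add_apply, LinearMap.add_apply, LinearMap.add_apply, LinearMap.add_apply,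
        mul_add, h.2 α μ a x y ha hx, h'.2 α μ a x y ha hx]
  smul_mem' c β h := by
    refine ⟨fun μ ν x y hx hy hd => ?_, fun α μ a x y ha hx => ?_⟩
    · rw [LinearMap.smul_apply, LinearMap.smul_apply, h.1 μ ν x y hx hy hd, smul_zero]
    · rw [LinearMap.smul_apply, LinearMap.smul_apply, LinearMap.smul_apply, LinearMap.smul_apply,
        smul_eq_mul, smul_eq_mul, mul_left_comm, h.2 α μ a x y ha hx]

theorem mem_Bf {ε : Γ → Γ → k} {X Y : GM 𝒜} {δ : Γ} {β : X.M →ₗ[k] Y.M →ₗ[k] k} :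
    β ∈ Bf ε X Y δ ↔ (∀ μ ν x y, x ∈ X.gr μ → y ∈ Y.gr ν → μ + ν ≠ δ → β x y = 0) ∧
    ∀ α μ a x y, a ∈ 𝒜 α → x ∈ X.gr μ → ε μ α * β (a • x) y = β x (a • y) := Iff.rfl

/-- the (skew) symmetric balanced forms of degree `δ` on `X × X` -/
def Sf (ε : Γ → Γ → k) (s : k) (X : GM 𝒜) (δ : Γ) : Submodule k (X.M →ₗ[k] X.M →ₗ[k] k) where
  carrier := {β | β ∈ Bf ε X X δ ∧
    ∀ μ ν x y, x ∈ X.gr μ → y ∈ X.gr ν → β y x = s * ε ν μ * β x y}
  zero_mem' := ⟨Submodule.zero_mem _, by simp⟩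
  add_mem' {β β'} h h' := by
    refine ⟨Submodule.add_mem _ h.1 h'.1, fun μ ν x y hx hy => ?_⟩
    rw [LinearMap.add_apply, LinearMap.add_apply, LinearMap.add_apply, LinearMap.add_apply,
      mul_add, h.2 μ ν x y hx hy, h'.2 μ ν x y hx hy]
  smul_mem' c β h := by
    refine ⟨Submodule.smul_mem _ _ h.1, fun μ ν x y hx hy => ?_⟩
    rw [LinearMap.smul_apply, LinearMap.smul_apply, LinearMap.smul_apply, LinearMap.smul_apply,
      smul_eq_mul, smul_eq_mul, mul_left_comm, h.2 μ ν x y hx hy]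

theorem mem_Sf {ε : Γ → Γ → k} {s : k} {X : GM 𝒜} {δ : Γ} {β : X.M →ₗ[k] X.M →ₗ[k] k} :
    β ∈ Sf ε s X δ ↔ β ∈ Bf ε X X δ ∧
    ∀ μ ν x y, x ∈ X.gr μ → y ∈ X.gr ν → β y x = s * ε ν μ * β x y := Iff.rfl

/-- forms on `X × Y` extend to `F × Y` -/
def LE (ε : Γ → Γ → k) {X F M : GM 𝒜} (s : Ses X F M) (Y : GM 𝒜) : Prop :=
  ∀ δ, ∀ β ∈ Bf ε X Y δ, ∃ β' ∈ Bf ε F Y δ, ∀ x y, β' (s.i x) y = β x y

/-- forms on `Y × X` extend to `Y × F` -/
def RE (ε : Γ → Γ → k) {X F M : GM 𝒜} (s : Ses X F M) (Y : GM 𝒜) : Prop :=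
  ∀ δ, ∀ β ∈ Bf ε Y X δ, ∃ β' ∈ Bf ε Y F δ, ∀ y x, β' y (s.i x) = β y x

/-- the weights of `X` are at least `c` -/
def Wt (w : Γ →+ ℤ) (c : ℤ) (X : GM 𝒜) : Prop := ∀ γ, X.gr γ ≠ ⊥ → c ≤ w γ

/-- the components of the free module with generators of degrees `φ i` -/
def frGr (𝒜 : Γ → Submodule k A) {n : ℕ} (φ : Fin n → Γ) (γ : Γ) : Submodule k (Fin n → A) where
  carrier := {v | ∀ i, v i ∈ 𝒜 (γ - φ i)}
  zero_mem' _ := Submodule.zero_mem _
  add_mem' h h' i := Submodule.add_mem _ (h i) (h' i)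
  smul_mem' c _ h i := Submodule.smul_mem _ c (h i)

theorem mem_frGr {n : ℕ} {φ : Fin n → Γ} {γ : Γ} {v : Fin n → A} :
    v ∈ frGr 𝒜 φ γ ↔ ∀ i, v i ∈ 𝒜 (γ - φ i) := Iff.rfl

/-- the components of `D(A)` -/
def omGr (𝒜 : Γ → Submodule k A) (γ : Γ) : Submodule k (NTC.DD k A) where
  carrier := {ζ | ∀ ν a, a ∈ 𝒜 ν → ν ≠ -γ → ζ.toFun a = 0}
  zero_mem' ν a _ _ := rfl
  add_mem' {ζ ζ'} h h' ν a ha hν := by
    rw [NTC.DD.add_toFun, LinearMap.add_apply, h ν a ha hν, h' ν a ha hν, add_zero]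
  smul_mem' c ζ h ν a ha hν := by
    rw [NTC.DD.smulK_toFun, LinearMap.smul_apply, h ν a ha hν, smul_zero]

theorem mem_omGr {γ : Γ} {ζ : NTC.DD k A} :
    ζ ∈ omGr 𝒜 γ ↔ ∀ ν a, a ∈ 𝒜 ν → ν ≠ -γ → ζ.toFun a = 0 := Iff.rfl

/-- the linear forms which vanish on all components except the one of degree `η` -/
def Du {V : Type} [AddCommGroup V] [Module k V] (𝒱 : Γ → Submodule k V) (η : Γ) :
    Submodule k (V →ₗ[k] k) where
  carrier := {l | ∀ γ, γ ≠ η → ∀ x ∈ 𝒱 γ, l x = 0}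
  zero_mem' γ _ x _ := rfl
  add_mem' {l l'} h h' γ hγ x hx := by
    rw [LinearMap.add_apply, h γ hγ x hx, h' γ hγ x hx, add_zero]
  smul_mem' c l h γ hγ x hx := by
    rw [LinearMap.smul_apply, h γ hγ x hx, smul_zero]

theorem mem_Du {V : Type} [AddCommGroup V] [Module k V] {𝒱 : Γ → Submodule k V} {η : Γ}
    {l : V →ₗ[k] k} : l ∈ Du 𝒱 η ↔ ∀ γ, γ ≠ η → ∀ x ∈ 𝒱 γ, l x = 0 := Iff.rfl

open Classical in
/-- the sign `ε(γ, γ)` as an integer -/
noncomputable def sg (ε : Γ → Γ → k) (γ : Γ) : ℤ := if ε γ γ = 1 then 1 else -1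

end

end GTC
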