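import Pool.Agent.GTC.C2
import Pool.Agent.GTC.A1
import Pool.Agent.RGS.Q

/-!
# [GTC-E1a] forms on X x D(A) and linear maps
-/

set_option autoImplicit false

open CategoryTheory Module

namespace GTC

section
variable {k Γ V W : Type} [Field k] [AddCommGroup Γ] [DecidableEq Γ] [AddCommGroup V] [Module k V]
  [AddCommGroup W] [Module k W] {𝒱 : Γ → Submodule k V}

private theorem e1a_mem (hV : DirectSum.IsInternal 𝒱) (a : V) (η : Γ)
    (h : ∀ ν, ν ≠ η → ∀ E : V →ₗ[k] V,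
      (∀ γ x, x ∈ 𝒱 γ → E x = (if γ = ν then (1 : k) else 0) • x) → E a = 0) : a ∈ 𝒱 η := by
  classical
  let : DirectSum.Decomposition 𝒱 := DirectSum.IsInternal.chooseDecomposition 𝒱 hV
  have hs := DirectSum.sum_support_decompose 𝒱 a
  have hz : ∀ ν, ν ≠ η → ((DirectSum.decompose 𝒱 a ν : 𝒱 ν) : V) = 0 := by
    intro ν hν
    obtain ⟨E, hE⟩ := scale hV (fun γ => if γ = ν then (1 : k) else 0)
    have h1 := h ν hν E hE
    rw [← hs, map_sum] at h1
    have h2 : ∀ i ∈ (DirectSum.decompose 𝒱 a).support,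
        E ((DirectSum.decompose 𝒱 a i : 𝒱 i) : V) =
          if i = ν then ((DirectSum.decompose 𝒱 a i : 𝒱 i) : V) else 0 := by
      intro i _
      rw [hE i _ (DirectSum.decompose 𝒱 a i).2]
      split_ifs <;> simp
    rw [Finset.sum_congr rfl h2, Finset.sum_ite_eq'] at h1
    by_cases hm : ν ∈ (DirectSum.decompose 𝒱 a).support
    · rw [if_pos hm] at h1
      exact h1
    · rw [DFinsupp.notMem_support_iff.1 hm]
      rfl
  rw [← hs]
  apply Submodule.sum_mem
  intro i _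
  by_cases hi : i = η
  · rw [← hi]
    exact (DirectSum.decompose 𝒱 a i).2
  · rw [hz i hi]
    exact Submodule.zero_mem _

end

section
variable {k Γ A : Type} [Field k] [AddCommGroup Γ] [DecidableEq Γ] [Ring A] [Algebra k A]
  {𝒜 : Γ → Submodule k A} {ε : Γ → Γ → k} {w : Γ →+ ℤ}

/-- [E1a] PROOF. `β x ∈ D(A)* = A`: there is a unique `t x ∈ A` with `β x ζ = ζ (t x)` for all `ζ`, linear in `x` (`Module.evalEquiv`; compare `RGS.eval_surj`, `RGS.eval_inj` in Pool/Agent/RGS/Q.lean). Let `x ∈ X.gr μ`. `t x ∈ 𝒜 (μ - δ)` (degree of `β`; a form in `omGr 𝒜 ν` vanishes outside `𝒜 (-ν)`).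
`T` is the linear map with `T x = ε μ (-δ) • t x` on `X.gr μ` (`t ∘` scaling); `ε μ (-δ) * ε (-δ) μ = 1`. `A`-linear: for `a ∈ 𝒜 α`: `ζ (t x * a) = (a • ζ) (t x) = β x (a • ζ) = ε μ α * β (a • x) ζ = ε μ α * ζ (t (a • x))`, and
`t x * a = ε (μ - δ) α • (a * t x)`, so `t (a • x) = ε (-δ) α • (a * t x)` and `T (a • x) = ε (α + μ) (-δ) * ε (-δ) α • (a * t x) = a * T x`. -/
theorem to_hom (hA : GA 𝒜 ε w) [FiniteDimensional k A] (X : GM 𝒜) (δ : Γ)
    {β : X.M →ₗ[k] (om hA).M →ₗ[k] k} (hβ : β ∈ Bf ε X (om hA) δ) :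
    ∃ T : X.M →ₗ[A] A, (∀ μ x, x ∈ X.gr μ → T x ∈ 𝒜 (μ - δ)) ∧
      ∀ μ x, x ∈ X.gr μ → ∀ ζ : NTC.DD k A, β x ζ = ε (-δ) μ * ζ.toFun (T x) := by
  classical
  have hfd : FiniteDimensional k A := inferInstance
  have hex : ∀ x : X.M, ∃ c : A, ∀ ζ : NTC.DD k A, β x ζ = ζ.toFun c := fun x =>
    RGS.eval_surj hfd (β x)
  choose t₀ ht₀ using hex
  let t : X.M →ₗ[k] A :=
    { toFun := t₀
      map_add' := fun x y => by
        apply RGS.eval_inj hfd
        intro ζ
        have h1 : β (x + y) ζ = β x ζ + β y ζ := LinearMap.congr_fun (map_add β x y) ζ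
        rw [← ht₀, h1, map_add, ← ht₀, ← ht₀]
      map_smul' := fun c x => by
        apply RGS.eval_inj hfd
        intro ζ
        have h1 : β (c • x) ζ = c • β x ζ := LinearMap.congr_fun (map_smul β c x) ζ
        rw [← ht₀, h1, RingHom.id_apply, map_smul, ← ht₀] }
  have ht : ∀ x (ζ : NTC.DD k A), β x ζ = ζ.toFun (t x) := ht₀
  have htg : ∀ μ x, x ∈ X.gr μ → t x ∈ 𝒜 (μ - δ) := by
    intro μ x hx
    apply e1a_mem hA.int
    intro ν hν E hE
    apply RGS.eval_inj hfd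
    intro ζ
    rw [map_zero]
    have h1 : (⟨ζ.toFun ∘ₗ E⟩ : NTC.DD k A) ∈ (om hA).gr (-ν) := by
      show (⟨ζ.toFun ∘ₗ E⟩ : NTC.DD k A) ∈ omGr 𝒜 (-ν)
      intro ν' a ha hne
      rw [neg_neg] at hne
      show ζ.toFun (E a) = 0
      rw [hE ν' a ha, if_neg hne, zero_smul, map_zero]
    have h2 := hβ.1 μ (-ν) x _ hx h1 (by
      intro h
      apply hν
      rw [← h]
      abel)
    rw [ht] at h2
    exact h2
  have hinv : ∀ a b, ε a b ≠ 0 := fun a b h => by
    have := hA.cf.inv a b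
    rw [h, zero_mul] at this
    exact zero_ne_one this
  have hbal : ∀ α μ a x, a ∈ 𝒜 α → x ∈ X.gr μ → t (a • x) = ε (-δ) α • (a * t x) := by
    intro α μ a x ha hx
    have h1 : ε μ α • t (a • x) = t x * a := by
      apply RGS.eval_inj hfd
      intro ζ
      have h2 : ε μ α * β (a • x) ζ = β x (a • ζ : NTC.DD k A) := hβ.2 α μ a x ζ ha hx
      rw [ht, ht, NTC.DD.smul_toFun] at h2
      rw [map_smul, smul_eq_mul, h2]
    rw [hA.comm (htg μ x hx) ha, sub_eq_add_neg, hA.cf.add, mul_smul] at h1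
    exact smul_right_injective A (hinv μ α) h1
  obtain ⟨E, hE⟩ := scale X.int (fun μ => ε μ (-δ))
  have hlin1 : ∀ α μ a x, a ∈ 𝒜 α → x ∈ X.gr μ → t (E (a • x)) = a * t (E x) := by
    intro α μ a x ha hx
    rw [hE _ _ (X.smul ha hx), hE _ _ hx, map_smul t (ε (α + μ) (-δ)) (a • x),
      map_smul t (ε μ (-δ)) x, hbal α μ a x ha hx, smul_smul, hA.cf.add, mul_smul_comm]
    congr 1
    have := hA.cf.inv α (-δ)
    linear_combination (ε μ (-δ)) * this
  have hlin2 : ∀ μ x, x ∈ X.gr μ → ∀ a, t (E (a • x)) = a * t (E x) := by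
    intro μ x hx a
    have h1 : (t ∘ₗ E) ∘ₗ ((LinearMap.toSpanSingleton A X.M x).restrictScalars k) =
        LinearMap.mulRight k (t (E x)) := by
      apply gext hA.int
      intro α b hb
      show t (E (b • x)) = b * t (E x)
      exact hlin1 α μ b x hb hx
    exact LinearMap.congr_fun h1 a
  have hlin3 : ∀ (a : A) (x : X.M), t (E (a • x)) = a * t (E x) := by
    intro a x
    have h1 : (t ∘ₗ E) ∘ₗ (Module.toModuleEnd k (S := A) X.M a : X.M →ₗ[k] X.M) =
        LinearMap.mulLeft k a ∘ₗ (t ∘ₗ E) := by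
      apply gext X.int
      intro μ y hy
      show t (E (a • y)) = a * t (E y)
      exact hlin2 μ y hy a
    exact LinearMap.congr_fun h1 x
  let T : X.M →ₗ[A] A :=
    { toFun := fun x => t (E x)
      map_add' := fun x y => by rw [map_add, map_add]
      map_smul' := fun a x => by rw [hlin3 a x]; rfl }
  refine ⟨T, fun μ x hx => ?_, fun μ x hx ζ => ?_⟩
  · show t (E x) ∈ _
    rw [hE μ x hx, map_smul]
    exact Submodule.smul_mem _ _ (htg μ x hx)
  · show β x ζ = ε (-δ) μ * ζ.toFun (t (E x))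
    rw [hE μ x hx, map_smul, map_smul, smul_eq_mul, ← mul_assoc, hA.cf.inv, one_mul]
    exact ht x ζ

end


end GTC
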