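import Pool.Agent.NTC.E0a

/-!
# [GTC-E5] extension of linear maps along the syzygies
-/

set_option autoImplicit false

open CategoryTheory

namespace GTC

/-- if `Ext^j(Z 0, N) = 0` for `1 ≤ j ≤ m` then linear maps from the `n`-th syzygy extend, `n ≤ m` -/
theorem chain_ext {R : Type} [Ring R] [HasExt.{1} (ModuleCat.{0} R)] (N : Type) [AddCommGroup N]
    [Module R N] (Z F : ℕ → ModuleCat.{0} R) (i : ∀ n, Z (n + 1) →ₗ[R] F n)
    (p : ∀ n, F n →ₗ[R] Z n) (hi : ∀ n, Function.Injective (i n))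
    (hp : ∀ n, Function.Surjective (p n)) (hx : ∀ n, LinearMap.range (i n) = LinearMap.ker (p n))
    (hF : ∀ n, Module.Projective R (F n)) (m : ℕ)
    (h0 : ∀ j : ℕ, 1 ≤ j → j ≤ m → Subsingleton (Abelian.Ext.{1} (Z 0) (ModuleCat.of R N) j)) :
    ∀ n, n + 1 ≤ m → ∀ f : Z (n + 1) →ₗ[R] N, ∃ g : F n →ₗ[R] N, ∀ x, g (i n x) = f x := by
  have h1 : ∀ n j : ℕ, 1 ≤ j → j + n ≤ m → NTC.Ev R (Z n) N j := by
    intro n
    induction n with
    | zero => exact fun j hj hj' => h0 j hj (by omega)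
    | succ n ih =>
      intro j hj hj'
      obtain ⟨l, rfl⟩ : ∃ l, j = l + 1 := ⟨j - 1, by omega⟩
      exact NTC.ses_shift' (i n) (p n) (hi n) (hp n) (hx n) (NTC.ev_proj (hF n) l)
        (ih (l + 1 + 1) (by omega) (by omega))
  intro n hn f
  obtain ⟨g, hg⟩ := NTC.ses_ext (i n) (p n) (hi n) (hp n) (hx n) (h1 n 1 le_rfl (by omega)) f
  exact ⟨g, fun x => (LinearMap.congr_fun hg x).symm⟩

end GTC
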