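import Pool.Agent.GTC.F1

/-!
# [GTC-F0] the intermediate space (complete, no row)
-/

set_option autoImplicit false

open CategoryTheory Module

namespace GTC

section
variable {k Γ A : Type} [Field k] [AddCommGroup Γ] [DecidableEq Γ] [Ring A] [Algebra k A]
  {𝒜 : Γ → Submodule k A} {ε : Γ → Γ → k} {w : Γ →+ ℤ}

/-- the forms on `F × X` whose restriction to `X × X` is (skew) symmetric -/
def Gs (ε : Γ → Γ → k) (c : k) {X F M : GM 𝒜} (s : Ses X F M) (δ : Γ) :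
    Submodule k (F.M →ₗ[k] X.M →ₗ[k] k) where
  carrier := {g | g ∈ Bf ε F X δ ∧ g ∘ₗ s.i.restrictScalars k ∈ Sf ε c X δ}
  zero_mem' := ⟨Submodule.zero_mem _, by
    rw [LinearMap.zero_comp]
    exact Submodule.zero_mem _⟩
  add_mem' {g g'} h h' := ⟨Submodule.add_mem _ h.1 h'.1, by
    rw [LinearMap.add_comp]
    exact Submodule.add_mem _ h.2 h'.2⟩
  smul_mem' r g h := ⟨Submodule.smul_mem _ _ h.1, by
    rw [LinearMap.smul_comp]
    exact Submodule.smul_mem _ _ h.2⟩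

theorem mem_Gs {c : k} {X F M : GM 𝒜} {s : Ses X F M} {δ : Γ} {g : F.M →ₗ[k] X.M →ₗ[k] k} :
    g ∈ Gs ε c s δ ↔ g ∈ Bf ε F X δ ∧ g ∘ₗ s.i.restrictScalars k ∈ Sf ε c X δ := Iff.rfl

end

end GTC
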