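import Pool.Agent.GTC.C1
import Pool.Agent.GTC.C3

/-!
# [GTC-F1] extension of (skew) symmetric forms
-/

set_option autoImplicit false

open CategoryTheory Module

namespace GTC

section
variable {k Γ A : Type} [Field k] [AddCommGroup Γ] [DecidableEq Γ] [Ring A] [Algebra k A]
  {𝒜 : Γ → Submodule k A} {ε : Γ → Γ → k} {w : Γ →+ ℤ}

/-- [F1] PROOF. By `hR` there is `b1 ∈ Bf F F δ` which extends `g`. Let `g2 = c • swap g ∈ Bf X F δ`: `g2 x f = c * ε μ ν * g f x`. `g2 - b1 ∘ s.i ∈ Bf X F δ` vanishes on `X × X` by `hg`, so it is `e1 (x, s.p f)`, `e1 ∈ Bf X M δ` (`descend'`), extended to `e2 ∈ Bf F M δ` (`hM`).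
Let `b2 = b1 + e2 (·, s.p ·) ∈ Bf F F δ`: `b2 f (s.i x) = g f x` and `b2 (s.i x) f = g2 x f`. Let `β = (1/2) • (b2 + c • swap b2)`. (`swap hc F F δ`, `Bf_pull`, `Bf_pull'`, `form_ext`; identities are checked on homogeneous elements.) -/
theorem sf_ext (hc : CF ε) (h2 : (2 : k) ≠ 0) {X F M : GM 𝒜} (s : Ses X F M) {c : k}
    (hcc : c * c = 1) (hM : LE ε s M) (hR : RE ε s F) {δ : Γ} {g : F.M →ₗ[k] X.M →ₗ[k] k}
    (hg : g ∈ Bf ε F X δ) (hg2 : g ∘ₗ s.i.restrictScalars k ∈ Sf ε c X δ) :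
    ∃ β ∈ Sf ε c F δ, ∀ f x, β f (s.i x) = g f x := by
  obtain ⟨b1, hb1, hb1e⟩ := hR δ g hg
  obtain ⟨S1, hS1⟩ := swap hc F X δ
  obtain ⟨hS1m, hS1v⟩ := hS1 g hg
  have hgi : ∀ γ x, x ∈ X.gr γ → s.i x ∈ F.gr γ := fun γ x hx => s.gi hx
  have hgp : ∀ γ x, x ∈ F.gr γ → s.p x ∈ M.gr γ := fun γ x hx => s.gp hx
  have hdd1 : c • S1 g ∈ Bf ε X F δ := Submodule.smul_mem _ _ hS1m
  have hdd2 : b1 ∘ₗ s.i.restrictScalars k ∈ Bf ε X F δ := Bf_pull s.i hgi hb1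
  have hd : c • S1 g - b1 ∘ₗ s.i.restrictScalars k ∈ Bf ε X F δ := by
    have h9 : c • S1 g - b1 ∘ₗ s.i.restrictScalars k =
        c • S1 g + (-1 : k) • (b1 ∘ₗ s.i.restrictScalars k) := by
      refine LinearMap.ext fun x => LinearMap.ext fun y => ?_
      show c * S1 g x y - b1 (s.i x) y = c * S1 g x y + (-1) * b1 (s.i x) y
      ring
    rw [h9]
    exact Submodule.add_mem _ hdd1 (Submodule.smul_mem _ _ hdd2)
  have hd0 : ∀ x x', (c • S1 g - b1 ∘ₗ s.i.restrictScalars k) x (s.i x') = 0 := by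
    have h0 : (c • S1 g - b1 ∘ₗ s.i.restrictScalars k).compl₂ (s.i.restrictScalars k) = 0 := by
      refine form_ext fun μ ν x x' hx hx' => ?_
      show c * S1 g x (s.i x') - b1 (s.i x) (s.i x') = 0
      rw [hb1e, hS1v ν μ (s.i x') x (s.gi hx') hx]
      have h3 := hg2.2 ν μ x' x hx' hx
      have h4 : g (s.i x) x' = c * ε μ ν * g (s.i x') x := h3
      rw [h4]
      ring
    intro x x'
    exact LinearMap.congr_fun (LinearMap.congr_fun h0 x) x'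
  obtain ⟨e1, he1, he1v⟩ := descend' s hd hd0
  obtain ⟨e2, he2, he2v⟩ := hM δ e1 he1
  have hb2 : b1 + e2.compl₂ (s.p.restrictScalars k) ∈ Bf ε F F δ :=
    Submodule.add_mem _ hb1 (Bf_pull' s.p hgp he2)
  obtain ⟨b2, hb2d⟩ : ∃ b2, b2 = b1 + e2.compl₂ (s.p.restrictScalars k) := ⟨_, rfl⟩
  rw [← hb2d] at hb2
  have hb2a : ∀ f x, b2 f (s.i x) = g f x := by
    intro f x
    rw [hb2d]
    show b1 f (s.i x) + e2 f (s.p (s.i x)) = g f x
    rw [hb1e, s.p_i, map_zero, add_zero]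
  have hb2b : ∀ x f, b2 (s.i x) f = c * S1 g x f := by
    intro x f
    rw [hb2d]
    show b1 (s.i x) f + e2 (s.i x) (s.p f) = c * S1 g x f
    rw [he2v, he1v]
    show b1 (s.i x) f + (c * S1 g x f - b1 (s.i x) f) = c * S1 g x f
    ring
  obtain ⟨S2, hS2⟩ := swap hc F F δ
  obtain ⟨hS2m, hS2v⟩ := hS2 b2 hb2
  refine ⟨(2 : k)⁻¹ • (b2 + c • S2 b2), ⟨Submodule.smul_mem _ _ (Submodule.add_mem _ hb2
    (Submodule.smul_mem _ _ hS2m)), fun μ ν x y hx hy => ?_⟩, fun f x => ?_⟩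
  · show (2 : k)⁻¹ * (b2 y x + c * S2 b2 y x) = c * ε ν μ * ((2 : k)⁻¹ * (b2 x y + c * S2 b2 x y))
    rw [hS2v μ ν x y hx hy, hS2v ν μ y x hy hx]
    have h5 := hc.inv μ ν
    have h6 : c * ε ν μ * ((2 : k)⁻¹ * (b2 x y + c * (ε μ ν * b2 y x))) =
        (2 : k)⁻¹ * ((c * c) * (ε μ ν * ε ν μ) * b2 y x + c * (ε ν μ * b2 x y)) := by ring
    rw [h6, hcc, h5, one_mul, one_mul]
  · have h0 : ((2 : k)⁻¹ • (b2 + c • S2 b2)).compl₂ (s.i.restrictScalars k) = g := by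
      refine form_ext fun ν μ f x hf hx => ?_
      show (2 : k)⁻¹ * (b2 f (s.i x) + c * S2 b2 f (s.i x)) = g f x
      rw [hS2v μ ν (s.i x) f (s.gi hx) hf, hb2a, hb2b, hS1v ν μ f x hf hx]
      have h5 := hc.inv μ ν
      have h6 : (2 : k)⁻¹ * (g f x + c * (ε ν μ * (c * (ε μ ν * g f x)))) =
        (2 : k)⁻¹ * (g f x + (c * c) * (ε μ ν * ε ν μ) * g f x) := by ring
      rw [h6, hcc, h5, one_mul, one_mul, ← two_mul, ← mul_assoc, inv_mul_cancel₀ h2, one_mul]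
    exact LinearMap.congr_fun (LinearMap.congr_fun h0 f) x

end

end GTC
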