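import Pool.Agent.GTC.F0

/-!
# [GTC-F2] dimension count, first part
-/

set_option autoImplicit false

open CategoryTheory Module

namespace GTC

section
variable {k Γ A : Type} [Field k] [AddCommGroup Γ] [DecidableEq Γ] [Ring A] [Algebra k A]
  {𝒜 : Γ → Submodule k A} {ε : Γ → Γ → k} {w : Γ →+ ℤ}

theorem finrank_aux {V W U : Type} [AddCommGroup V] [Module k V] [AddCommGroup W] [Module k W]
    [AddCommGroup U] [Module k U] [FiniteDimensional k V] (S : Submodule k V) (G : Submodule k W)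
    (K : Submodule k U) (R : V →ₗ[k] W) (P : U →ₗ[k] V) (h1 : ∀ x ∈ S, R x ∈ G)
    (h2 : ∀ g ∈ G, ∃ x ∈ S, R x = g) (h3 : ∀ u ∈ K, P u ∈ S) (h4 : ∀ u ∈ K, R (P u) = 0)
    (h5 : ∀ u ∈ K, P u = 0 → u = 0) (h6 : ∀ x ∈ S, R x = 0 → ∃ u ∈ K, P u = x) :
    finrank k S = finrank k G + finrank k K := by
  have e1 := LinearMap.finrank_range_add_finrank_ker (R.restrict h1)
  have e2 : LinearMap.range (R.restrict h1) = ⊤ := by
    rw [LinearMap.range_eq_top]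
    rintro ⟨g, hg⟩
    obtain ⟨x, hx, hxg⟩ := h2 g hg
    exact ⟨⟨x, hx⟩, Subtype.ext hxg⟩
  rw [e2, finrank_top] at e1
  rw [← e1]
  congr 1
  have h7 : ∀ u : K, (P.restrict h3) u ∈ LinearMap.ker (R.restrict h1) := by
    rintro ⟨u, hu⟩
    rw [LinearMap.mem_ker]
    exact Subtype.ext (h4 u hu)
  have h8 : Function.Bijective ((P.restrict h3).codRestrict (LinearMap.ker (R.restrict h1)) h7) := by
    refine ⟨(injective_iff_map_eq_zero _).2 ?_, ?_⟩
    · rintro ⟨u, hu⟩ h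
      exact Subtype.ext (h5 u hu (congrArg Subtype.val (congrArg Subtype.val h)))
    · rintro ⟨⟨x, hx⟩, hx0⟩
      obtain ⟨u, hu, hux⟩ := h6 x hx (congrArg Subtype.val (LinearMap.mem_ker.1 hx0))
      exact ⟨⟨u, hu⟩, Subtype.ext (Subtype.ext hux)⟩
  exact (LinearEquiv.ofBijective _ h8).finrank_eq.symm

/-- [F2] PROOF. `β ↦ β (·, s.i ·)` maps `Sf F` onto `Gs` (`sf_ext`; it maps to `Gs`: `Bf_pull'` and the symmetry of `β`). The kernel consists of the `β` which vanish on `F × X`, and so on `X × F`; it is isomorphic to `Sf M` by `β' ↦ β' (s.p ·, s.p ·)` (`descend`, `descend'`, `Ses.lift`). -/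
theorem finrank_Sf_Gs (hc : CF ε) (h2 : (2 : k) ≠ 0) {X F M : GM 𝒜} (s : Ses X F M) {c : k}
    (hcc : c * c = 1) (hM : LE ε s M) (hR : RE ε s F) (δ : Γ) :
    finrank k (Sf ε c F δ) = finrank k (Gs ε c s δ) + finrank k (Sf ε c M δ) := by
  have hgi : ∀ γ x, x ∈ X.gr γ → s.i x ∈ F.gr γ := fun γ x hx => s.gi hx
  have hgp : ∀ γ x, x ∈ F.gr γ → s.p x ∈ M.gr γ := fun γ x hx => s.gp hx
  let R : (F.M →ₗ[k] F.M →ₗ[k] k) →ₗ[k] (F.M →ₗ[k] X.M →ₗ[k] k) :=
    { toFun := fun β => β.compl₂ (s.i.restrictScalars k)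
      map_add' := fun β β' => rfl
      map_smul' := fun r β => rfl }
  let P : (M.M →ₗ[k] M.M →ₗ[k] k) →ₗ[k] (F.M →ₗ[k] F.M →ₗ[k] k) :=
    { toFun := fun β => (β ∘ₗ s.p.restrictScalars k).compl₂ (s.p.restrictScalars k)
      map_add' := fun β β' => rfl
      map_smul' := fun r β => rfl }
  refine finrank_aux (V := F.M →ₗ[k] F.M →ₗ[k] k) (W := F.M →ₗ[k] X.M →ₗ[k] k)
    (U := M.M →ₗ[k] M.M →ₗ[k] k) (Sf ε c F δ) (Gs ε c s δ) (Sf ε c M δ) R P ?_ ?_ ?_ ?_ ?_ ?_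
  · intro β hβ
    have h3 : R β ∈ Bf ε F X δ := Bf_pull' s.i hgi hβ.1
    refine ⟨h3, Bf_pull s.i hgi h3, fun μ ν x y hx hy => ?_⟩
    exact hβ.2 μ ν (s.i x) (s.i y) (s.gi hx) (s.gi hy)
  · intro g hg
    obtain ⟨β, hβ, hβe⟩ := sf_ext hc h2 s hcc hM hR hg.1 hg.2
    exact ⟨β, hβ, LinearMap.ext fun f => LinearMap.ext fun x => hβe f x⟩
  · intro u hu
    refine ⟨Bf_pull' s.p hgp (Bf_pull s.p hgp hu.1), fun μ ν x y hx hy => ?_⟩
    exact hu.2 μ ν (s.p x) (s.p y) (s.gp hx) (s.gp hy)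
  · intro u hu
    refine LinearMap.ext fun f => LinearMap.ext fun x => ?_
    show u (s.p f) (s.p (s.i x)) = 0
    rw [s.p_i, map_zero]
  · intro u hu h
    refine LinearMap.ext fun f => LinearMap.ext fun x => ?_
    obtain ⟨f, rfl⟩ := s.sur f
    obtain ⟨x, rfl⟩ := s.sur x
    exact LinearMap.congr_fun (LinearMap.congr_fun h f) x
  · intro β hβ h
    have h0 : ∀ f x, β f (s.i x) = 0 := fun f x =>
      LinearMap.congr_fun (LinearMap.congr_fun h f) x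
    have h0' : ∀ x f, β (s.i x) f = 0 := by
      have h9 : β ∘ₗ s.i.restrictScalars k = 0 := by
        refine form_ext fun μ ν x f hx hf => ?_
        show β (s.i x) f = 0
        rw [hβ.2 ν μ f (s.i x) hf (s.gi hx), h0, mul_zero]
      intro x f
      exact LinearMap.congr_fun (LinearMap.congr_fun h9 x) f
    obtain ⟨β1, hβ1, hβ1e⟩ := descend s hβ.1 h0'
    have h1 : ∀ m x, β1 m (s.i x) = 0 := by
      intro m x
      obtain ⟨f, rfl⟩ := s.sur m
      rw [hβ1e, h0]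
    obtain ⟨β2, hβ2, hβ2e⟩ := descend' s hβ1 h1
    refine ⟨β2, ⟨hβ2, fun μ ν x y hx hy => ?_⟩, ?_⟩
    · obtain ⟨x', hx', rfl⟩ := s.lift hx
      obtain ⟨y', hy', rfl⟩ := s.lift hy
      rw [hβ2e, hβ2e, hβ1e, hβ1e]
      exact hβ.2 μ ν x' y' hx' hy'
    · refine LinearMap.ext fun f => LinearMap.ext fun x => ?_
      show β2 (s.p f) (s.p x) = β f x
      rw [hβ2e, hβ1e]

end

end GTC
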