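import Pool.Agent.GTC.F0

/-!
# [GTC-F3] dimension count, second part
-/

set_option autoImplicit false

open CategoryTheory Module

namespace GTC

section
variable {k Γ A : Type} [Field k] [AddCommGroup Γ] [DecidableEq Γ] [Ring A] [Algebra k A]
  {𝒜 : Γ → Submodule k A} {ε : Γ → Γ → k} {w : Γ →+ ℤ}

private theorem f3_rank {V W U : Type} [AddCommGroup V] [Module k V] [AddCommGroup W] [Module k W]
    [AddCommGroup U] [Module k U] [FiniteDimensional k V] (P : Submodule k V) (Q : Submodule k W)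
    (R : Submodule k U) (T : V →ₗ[k] W) (T' : U →ₗ[k] V) (hT' : Function.Injective T')
    (h1 : ∀ v ∈ P, T v ∈ Q) (h2 : ∀ x ∈ Q, ∃ v ∈ P, T v = x)
    (h3 : ∀ u ∈ R, T' u ∈ P) (h4 : ∀ u ∈ R, T (T' u) = 0)
    (h5 : ∀ v ∈ P, T v = 0 → ∃ u ∈ R, T' u = v) :
    finrank k P = finrank k Q + finrank k R := by
  have h6 := LinearMap.finrank_range_add_finrank_ker (T.domRestrict P)
  have h7 : LinearMap.range (T.domRestrict P) = Q := by
    apply le_antisymm
    · rintro _ ⟨v, rfl⟩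
      exact h1 v.1 v.2
    · intro x hx
      obtain ⟨v, hv, hvx⟩ := h2 x hx
      exact ⟨⟨v, hv⟩, hvx⟩
  let L : R →ₗ[k] P := (T'.domRestrict R).codRestrict P fun u => h3 u.1 u.2
  have hL : Function.Injective L := by
    intro u u' huu
    apply Subtype.ext
    exact hT' (congrArg (fun q : P => q.1) huu)
  have h8 : LinearMap.range L = LinearMap.ker (T.domRestrict P) := by
    apply le_antisymm
    · rintro _ ⟨u, rfl⟩
      exact h4 u.1 u.2
    · intro v hv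
      obtain ⟨u, hu, huv⟩ := h5 v.1 v.2 hv
      exact ⟨⟨u, hu⟩, Subtype.ext huv⟩
  have h9 := LinearMap.finrank_range_of_inj hL
  rw [h7, ← h8, h9] at h6
  exact h6.symm

/-- [F3] PROOF. `g ↦ g ∘ s.i` maps `Gs` onto `Sf X` (`hX`); the kernel is isomorphic to `Bf M X` (`descend`, `Bf_pull`). -/
theorem finrank_Gs {X F M : GM 𝒜} (s : Ses X F M) (c : k) (hX : LE ε s X) (δ : Γ) :
    finrank k (Gs ε c s δ) = finrank k (Sf ε c X δ) + finrank k (Bf ε M X δ) := by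
  obtain ⟨T, hT⟩ : ∃ T : (F.M →ₗ[k] X.M →ₗ[k] k) →ₗ[k] (X.M →ₗ[k] X.M →ₗ[k] k),
      ∀ g, T g = g ∘ₗ s.i.restrictScalars k :=
    ⟨LinearMap.lcomp k (X.M →ₗ[k] k) (s.i.restrictScalars k), fun g => rfl⟩
  obtain ⟨T', hT'⟩ : ∃ T' : (M.M →ₗ[k] X.M →ₗ[k] k) →ₗ[k] (F.M →ₗ[k] X.M →ₗ[k] k),
      ∀ g, T' g = g ∘ₗ s.p.restrictScalars k :=
    ⟨LinearMap.lcomp k (X.M →ₗ[k] k) (s.p.restrictScalars k), fun g => rfl⟩
  refine f3_rank (V := F.M →ₗ[k] X.M →ₗ[k] k) (W := X.M →ₗ[k] X.M →ₗ[k] k)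
    (U := M.M →ₗ[k] X.M →ₗ[k] k) (Gs ε c s δ) (Sf ε c X δ) (Bf ε M X δ) T T' ?_ ?_ ?_ ?_ ?_ ?_
  · intro b b' hbb
    rw [hT', hT'] at hbb
    refine LinearMap.ext fun m => ?_
    obtain ⟨f, rfl⟩ := s.sur m
    exact LinearMap.congr_fun hbb f
  · intro g hg
    rw [hT]
    exact hg.2
  · intro β hβ
    obtain ⟨β', h1, h2⟩ := hX δ β hβ.1
    have h3 : β' ∘ₗ s.i.restrictScalars k = β :=
      LinearMap.ext fun x => LinearMap.ext fun y => h2 x y
    exact ⟨β', ⟨h1, by rw [h3]; exact hβ⟩, (hT β').trans h3⟩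
  · intro b hb
    have h0 : (b ∘ₗ s.p.restrictScalars k) ∘ₗ s.i.restrictScalars k = 0 := by
      refine LinearMap.ext fun x => ?_
      show b (s.p (s.i x)) = 0
      rw [s.p_i, map_zero]
    rw [hT']
    refine ⟨Bf_pull s.p (fun γ x hx => s.gp hx) hb, ?_⟩
    show (b ∘ₗ s.p.restrictScalars k) ∘ₗ s.i.restrictScalars k ∈ Sf ε c X δ
    rw [h0]
    exact Submodule.zero_mem _
  · intro b hb
    rw [hT', hT]
    refine LinearMap.ext fun x => ?_
    show b (s.p (s.i x)) = 0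
    rw [s.p_i, map_zero]
  · intro g hg hg0
    rw [hT] at hg0
    obtain ⟨β', h1, h2⟩ := descend s hg.1 (fun x y => by
      have h3 := LinearMap.congr_fun (LinearMap.congr_fun hg0 x) y
      exact h3)
    exact ⟨β', h1, (hT' β').trans (LinearMap.ext fun f => LinearMap.ext fun y => h2 f y)⟩

end

end GTC
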