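import Pool.Agent.GTC.F2
import Pool.Agent.GTC.F3

/-!
# [GTC-F4] the trace is additive (complete, no row)
-/

set_option autoImplicit false

open CategoryTheory Module

namespace GTC

section
variable {k Γ A : Type} [Field k] [AddCommGroup Γ] [DecidableEq Γ] [Ring A] [Algebra k A]
  {𝒜 : Γ → Submodule k A} {ε : Γ → Γ → k} {w : Γ →+ ℤ}

/-- the trace of the swap on the forms of degree `δ` -/
noncomputable def trI (ε : Γ → Γ → k) (X : GM 𝒜) (δ : Γ) : ℤ :=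
  (finrank k (Sf ε 1 X δ) : ℤ) - (finrank k (Sf ε (-1) X δ) : ℤ)

theorem trI_add (hc : CF ε) (h2 : (2 : k) ≠ 0) {X F M : GM 𝒜} (s : Ses X F M)
    (hX : LE ε s X) (hM : LE ε s M) (hR : RE ε s F) (δ : Γ) :
    trI ε F δ = trI ε X δ + trI ε M δ := by
  have h3 := finrank_Sf_Gs hc h2 s (c := 1) (by ring) hM hR δ
  have h4 := finrank_Sf_Gs hc h2 s (c := -1) (by ring) hM hR δ
  have h5 := finrank_Gs s (1 : k) hX δ
  have h6 := finrank_Gs s (-1 : k) hX δ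
  unfold trI
  omega

theorem LE_of_retract {X F M : GM 𝒜} (s : Ses X F M) (r : F.M →ₗ[A] X.M)
    (hr : ∀ x, r (s.i x) = x) (hg : ∀ γ f, f ∈ F.gr γ → r f ∈ X.gr γ) (Y : GM 𝒜) :
    LE ε s Y ∧ RE ε s Y := by
  refine ⟨fun δ β hβ => ⟨β ∘ₗ r.restrictScalars k, Bf_pull r hg hβ, fun x y => ?_⟩,
    fun δ β hβ => ⟨β.compl₂ (r.restrictScalars k), Bf_pull' r hg hβ, fun y x => ?_⟩⟩
  · show β (r (s.i x)) y = β x y
    rw [hr]
  · show β y (r (s.i x)) = β y x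
    rw [hr]

end

end GTC
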