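import Pool.Agent.GTC.C6
import Pool.Agent.GTC.C1

/-!
# [GTC-F5a] forms on free modules of rank one
-/

set_option autoImplicit false

open CategoryTheory Module

namespace GTC

section
variable {k Γ A : Type} [Field k] [AddCommGroup Γ] [DecidableEq Γ] [Ring A] [Algebra k A]
  {𝒜 : Γ → Submodule k A} {ε : Γ → Γ → k} {w : Γ →+ ℤ}

/-- [F5a] PROOF. `M = Fin 1 → A`, `e = Pi.single 0 1` of degree `f = φ 0`, `p = ε f f`. For `a ∈ 𝒜 α`, `b ∈ 𝒜 γ`: `ε f α * β (a • e) (b • e) = β e ((a * b) • e)`, so `β (a • e) (b • e) = ε α f * β e ((a * b) • e)`; in the same way `β (b • e) (a • e) = ε γ f * β e ((b * a) • e)`, `b * a = ε γ α • (a * b)`;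
and `ε (γ + f) (α + f) = ε γ α * ε γ f * ε f α * p`. So `β y x = p * ε ν μ * β x y` for `x = a • e`, `y = b • e`. Every homogeneous element of `Fin 1 → A` is `a • e` with `a` homogeneous. -/
theorem fr_one_symm (hA : GA 𝒜 ε w) [FiniteDimensional k A] (φ : Fin 1 → Γ) (δ : Γ) :
    Bf ε (fr hA φ) (fr hA φ) δ = Sf ε (ε (φ 0) (φ 0)) (fr hA φ) δ := by
  have hc := hA.cf
  refine le_antisymm (fun β hβ => ⟨hβ, fun μ ν x y hx hy => ?_⟩) (fun β hβ => hβ.1)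
  have hx' : ∀ i, (x : Fin 1 → A) i ∈ 𝒜 (μ - φ i) := hx
  have hy' : ∀ i, (y : Fin 1 → A) i ∈ 𝒜 (ν - φ i) := hy
  obtain ⟨a, ha⟩ : ∃ a : A, a = (x : Fin 1 → A) 0 := ⟨_, rfl⟩
  obtain ⟨b, hb⟩ : ∃ b : A, b = (y : Fin 1 → A) 0 := ⟨_, rfl⟩
  obtain ⟨e, he⟩ : ∃ e : (fr hA φ).M, e = (Pi.single 0 (1 : A) : Fin 1 → A) := ⟨_, rfl⟩
  have hae : x = a • e := by
    rw [he]
    show x = ((a • (Pi.single 0 (1 : A) : Fin 1 → A) : Fin 1 → A))
    funext i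
    fin_cases i
    show (x : Fin 1 → A) 0 = a • (Pi.single 0 (1 : A) : Fin 1 → A) 0
    rw [Pi.single_eq_same, smul_eq_mul, mul_one, ha]
  have hbe : y = b • e := by
    rw [he]
    show y = ((b • (Pi.single 0 (1 : A) : Fin 1 → A) : Fin 1 → A))
    funext i
    fin_cases i
    show (y : Fin 1 → A) 0 = b • (Pi.single 0 (1 : A) : Fin 1 → A) 0
    rw [Pi.single_eq_same, smul_eq_mul, mul_one, hb]
  have ha1 : a ∈ 𝒜 (μ - φ 0) := by rw [ha]; exact hx' 0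
  have hb1 : b ∈ 𝒜 (ν - φ 0) := by rw [hb]; exact hy' 0
  have hed : e ∈ (fr hA φ).gr (φ 0) := by
    rw [he]
    intro i
    fin_cases i
    show (Pi.single 0 (1 : A) : Fin 1 → A) 0 ∈ 𝒜 (φ 0 - φ 0)
    rw [Pi.single_eq_same, sub_self]
    exact hA.one
  have hab := hβ.2 (μ - φ 0) (φ 0) a e (b • e) ha1 hed
  have hba := hβ.2 (ν - φ 0) (φ 0) b e (a • e) hb1 hed
  rw [← hbe, ← hae] at hab
  rw [← hae, ← hbe] at hba
  have h1 : b • x = ε (ν - φ 0) (μ - φ 0) • (a • y) := by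
    rw [hae, hbe, ← mul_smul, ← mul_smul, hA.comm hb1 ha1, smul_assoc]
  rw [h1, map_smul, ← hab, smul_eq_mul] at hba
  have e1 := hc.inv (ν - φ 0) (φ 0)
  have e2 : ε (ν - φ 0) μ = ε (ν - φ 0) (μ - φ 0) * ε (ν - φ 0) (φ 0) := by
    rw [← hc.add', sub_add_cancel]
  have e3 : ε ν μ = ε (ν - φ 0) μ * ε (φ 0) μ := by
    rw [← hc.add, sub_add_cancel]
  have e4 : ε (φ 0) μ = ε (φ 0) (μ - φ 0) * ε (φ 0) (φ 0) := by
    rw [← hc.add', sub_add_cancel]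
  have e5 := hc.inv (φ 0) (φ 0)
  rw [e3, e2, e4]
  calc (β y) x = (ε (ν - φ 0) (φ 0) * ε (φ 0) (ν - φ 0)) * (β y) x := by rw [e1, one_mul]
    _ = ε (ν - φ 0) (φ 0) * (ε (φ 0) (ν - φ 0) * (β y) x) := by ring
    _ = ε (ν - φ 0) (φ 0) * (ε (ν - φ 0) (μ - φ 0) * (ε (φ 0) (μ - φ 0) * (β x) y)) := by
        rw [hba]
    _ = (ε (φ 0) (φ 0) * ε (φ 0) (φ 0)) * (ε (ν - φ 0) (φ 0) *
        (ε (ν - φ 0) (μ - φ 0) * (ε (φ 0) (μ - φ 0) * (β x) y))) := by rw [e5, one_mul]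
    _ = _ := by ring

end


end GTC
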