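import Pool.Agent.GTC.F5a

/-!
# [GTC-F5b] forms on free modules of rank one
-/

set_option autoImplicit false

open CategoryTheory Module

namespace GTC

section
variable {k Γ A : Type} [Field k] [AddCommGroup Γ] [DecidableEq Γ] [Ring A] [Algebra k A]
  {𝒜 : Γ → Submodule k A} {ε : Γ → Γ → k} {w : Γ →+ ℤ}

/-- [F5b] a form which is both symmetric and skew symmetric is zero (`form_ext`) -/
theorem Sf_inf (h2 : (2 : k) ≠ 0) (X : GM 𝒜) (δ : Γ) (c : k) :
    Sf ε c X δ ⊓ Sf ε (-c) X δ = ⊥ := by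
  rw [eq_bot_iff]
  rintro β ⟨h1, h3⟩
  rw [Submodule.mem_bot]
  refine form_ext fun μ ν x y hx hy => ?_
  have e1 := (mem_Sf.1 h1).2 ν μ y x hy hx
  have e2 := (mem_Sf.1 h3).2 ν μ y x hy hx
  have e3 : (2 : k) * β x y = 0 := by
    calc (2 : k) * β x y = β x y + β x y := by ring
      _ = c * ε μ ν * β y x + (-c) * ε μ ν * β y x := by rw [← e1, ← e2]
      _ = 0 := by ring
  have e4 := (mul_eq_zero.1 e3).resolve_left h2
  rw [e4]
  rfl

/-- [F5b] PROOF. `p = ε (φ 0) (φ 0)` satisfies `p * p = 1` (`hA.cf.inv`), so `p = 1` or `p = -1`. `Sf p = Bf` (`fr_one_symm`) has dimension `finrank (𝒜 (δ - (φ 0 + φ 0)))` (`finrank_Bf_fr`, `finrank_fr`), and `Sf (-p) ≤ Bf = Sf p`, so it is `⊥` (`Sf_inf`). -/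
theorem tr_one (hA : GA 𝒜 ε w) (h2 : (2 : k) ≠ 0) [FiniteDimensional k A] (φ : Fin 1 → Γ) (δ : Γ) :
    (finrank k (Sf ε 1 (fr hA φ) δ) : ℤ) - (finrank k (Sf ε (-1) (fr hA φ) δ) : ℤ) =
      sg ε (φ 0) * (finrank k (𝒜 (δ - (φ 0 + φ 0))) : ℤ) := by
  have hne : (-1 : k) ≠ 1 := by
    intro h
    apply h2
    have : (2 : k) = 1 - (-1) := by ring
    rw [this, h, sub_self]
  have hfr : finrank k (Bf ε (fr hA φ) (fr hA φ) δ) = finrank k (𝒜 (δ - (φ 0 + φ 0))) := by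
    rw [finrank_Bf_fr, Fin.sum_univ_one]
    have : finrank k ((fr hA φ).gr (δ - φ 0)) = finrank k (frGr 𝒜 φ (δ - φ 0)) := rfl
    rw [this, finrank_fr, Fin.sum_univ_one, sub_sub]
  have hB := fr_one_symm hA φ δ
  have hle : ∀ c : k, Sf ε c (fr hA φ) δ ≤ Bf ε (fr hA φ) (fr hA φ) δ := fun c β hβ => hβ.1
  have hp : ε (φ 0) (φ 0) = 1 ∨ ε (φ 0) (φ 0) = -1 := by
    have h := hA.cf.inv (φ 0) (φ 0)
    have h1 : (ε (φ 0) (φ 0) - 1) * (ε (φ 0) (φ 0) + 1) = 0 := by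
      rw [← sub_eq_zero] at h
      rw [← h]
      ring
    rcases mul_eq_zero.1 h1 with h2 | h2
    · left
      exact sub_eq_zero.1 h2
    · right
      exact eq_neg_of_add_eq_zero_left h2
  have hinf := Sf_inf (ε := ε) h2 (fr hA φ) δ 1
  rcases hp with hp | hp
  · rw [hp] at hB
    have h0 : Sf ε (-1) (fr hA φ) δ = ⊥ := by
      rw [eq_bot_iff, ← hinf]
      exact le_inf (le_trans (hle (-1)) hB.le) le_rfl
    have hs : sg ε (φ 0) = 1 := by
      unfold sg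
      rw [if_pos hp]
    rw [h0, ← hB, hfr, hs, finrank_bot]
    simp
  · rw [hp] at hB
    have h0 : Sf ε 1 (fr hA φ) δ = ⊥ := by
      rw [eq_bot_iff, ← hinf]
      exact le_inf le_rfl (le_trans (hle 1) hB.le)
    have hs : sg ε (φ 0) = -1 := by
      unfold sg
      rw [if_neg]
      rw [hp]
      exact hne
    rw [h0, ← hB, hfr, hs, finrank_bot]
    simp

end


end GTC
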