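import Pool.Agent.GTC.F4
import Pool.Agent.GTC.F5

/-!
# [GTC-F6a] the trace of a free module
-/

set_option autoImplicit false

open CategoryTheory Module

namespace GTC

section
variable {k Γ A : Type} [Field k] [AddCommGroup Γ] [DecidableEq Γ] [Ring A] [Algebra k A]
  {𝒜 : Γ → Submodule k A} {ε : Γ → Γ → k} {w : Γ →+ ℤ}

/-- [F6a] PROOF. `s.i v` is `v 0` at `0` and `0` elsewhere, `s.p v = fun i => v i.succ`, `r v = fun _ => v 0`. -/
theorem fr_ses (hA : GA 𝒜 ε w) [FiniteDimensional k A] {n : ℕ} (φ : Fin (n + 1) → Γ) :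
    ∃ (s : Ses (fr hA (fun _ : Fin 1 => φ 0)) (fr hA φ) (fr hA (fun i : Fin n => φ i.succ)))
      (r : (fr hA φ).M →ₗ[A] (fr hA (fun _ : Fin 1 => φ 0)).M), (∀ x, r (s.i x) = x) ∧
      ∀ γ f, f ∈ (fr hA φ).gr γ → r f ∈ (fr hA (fun _ : Fin 1 => φ 0)).gr γ := by
  let i0 : (Fin 1 → A) →ₗ[A] (Fin (n + 1) → A) :=
    LinearMap.single A (fun _ : Fin (n + 1) => A) 0 ∘ₗ LinearMap.proj 0
  let p0 : (Fin (n + 1) → A) →ₗ[A] (Fin n → A) := LinearMap.funLeft A A Fin.succ
  let r0 : (Fin (n + 1) → A) →ₗ[A] (Fin 1 → A) := LinearMap.pi fun _ => LinearMap.proj 0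
  have hi0 : ∀ v : Fin 1 → A, i0 v 0 = v 0 := fun v =>
    Pi.single_eq_same (M := fun _ : Fin (n + 1) => A) 0 (v 0)
  have hi1 : ∀ (v : Fin 1 → A) (j : Fin n), i0 v j.succ = 0 := fun v j =>
    Pi.single_eq_of_ne (M := fun _ : Fin (n + 1) => A) (Fin.succ_ne_zero j) (v 0)
  have hr : ∀ v : Fin (n + 1) → A, r0 v 0 = v 0 := fun v => rfl
  have hp : ∀ (v : Fin (n + 1) → A) (j : Fin n), p0 v j = v j.succ := fun v j => rfl
  have hri : ∀ v, r0 (i0 v) = v := by
    intro v
    funext j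
    obtain rfl : j = 0 := Subsingleton.elim _ _
    rw [hr, hi0]
  have hgi : ∀ (γ : Γ) (v : Fin 1 → A), v 0 ∈ 𝒜 (γ - φ 0) → ∀ j, i0 v j ∈ 𝒜 (γ - φ j) := by
    intro γ v hv j
    refine Fin.cases ?_ (fun j => ?_) j
    · rw [hi0]
      exact hv
    · rw [hi1]
      exact Submodule.zero_mem _
  have hex : LinearMap.range i0 = LinearMap.ker p0 := by
    apply le_antisymm
    · rintro _ ⟨v, rfl⟩
      rw [LinearMap.mem_ker]
      funext j
      rw [hp, hi1]
      rfl
    · intro v hv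
      rw [LinearMap.mem_ker] at hv
      refine ⟨fun _ => v 0, ?_⟩
      funext j
      refine Fin.cases ?_ (fun j => ?_) j
      · rw [hi0]
      · rw [hi1]
        exact (congrFun hv j).symm
  refine ⟨{ i := i0
            p := p0
            inj := fun v v' h => ((hri v).symm.trans (congrArg r0 h)).trans (hri v')
            sur := fun v => ⟨(Fin.cons (0 : A) v : Fin (n + 1) → A), by
              funext j
              exact (hp _ j).trans (Fin.cons_succ _ _ _)⟩
            ex := hex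
            gi := fun {γ v} hv => hgi γ v (hv 0)
            gp := fun {γ v} hv j => hv j.succ }, r0, hri, fun γ v hv j => hv 0⟩

end


end GTC
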