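import Pool.Agent.GTC.F6a

/-!
# [GTC-F6b] the trace of a free module
-/

set_option autoImplicit false

open CategoryTheory Module

namespace GTC

section
variable {k Γ A : Type} [Field k] [AddCommGroup Γ] [DecidableEq Γ] [Ring A] [Algebra k A]
  {𝒜 : Γ → Submodule k A} {ε : Γ → Γ → k} {w : Γ →+ ℤ}

/-- [F6b] PROOF. Induction on `n`. `n = 0`: the module is zero. `n + 1`: `fr_ses`, `LE_of_retract`, `trI_add`, `tr_one`, `Fin.sum_univ_succ`. -/
theorem tr_fr (hA : GA 𝒜 ε w) (h2 : (2 : k) ≠ 0) [FiniteDimensional k A] {n : ℕ} (φ : Fin n → Γ)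
    (δ : Γ) : trI ε (fr hA φ) δ =
      ∑ i, sg ε (φ i) * (finrank k (𝒜 (δ - (φ i + φ i))) : ℤ) := by
  induction n with
  | zero =>
    have hs : Subsingleton (fr hA φ).M := inferInstanceAs (Subsingleton (Fin 0 → A))
    have h0 : ∀ c : k, finrank k (Sf ε c (fr hA φ) δ) = 0 := by
      intro c
      have h1 : Sf ε c (fr hA φ) δ = ⊥ := by
        rw [Submodule.eq_bot_iff]
        intro β _
        refine LinearMap.ext fun x => ?_
        rw [Subsingleton.elim x 0, map_zero, map_zero]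
      rw [h1]
      exact finrank_bot k _
    unfold trI
    rw [h0, h0, Finset.univ_eq_empty, Finset.sum_empty]
    rfl
  | succ n ih =>
    obtain ⟨s, r, h1, h3⟩ := fr_ses hA φ
    rw [trI_add hA.cf h2 s (LE_of_retract s r h1 h3 _).1 (LE_of_retract s r h1 h3 _).1
      (LE_of_retract s r h1 h3 _).2 δ, ih, Fin.sum_univ_succ]
    congr 1
    exact tr_one hA h2 (fun _ : Fin 1 => φ 0) δ

end


end GTC
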