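import Pool.Agent.GTC.F4

/-!
# [GTC-F7b] decomposition of the forms, signs
-/

set_option autoImplicit false

open CategoryTheory Module

namespace GTC

section
variable {k Γ A : Type} [Field k] [AddCommGroup Γ] [DecidableEq Γ] [Ring A] [Algebra k A]
  {𝒜 : Γ → Submodule k A} {ε : Γ → Γ → k} {w : Γ →+ ℤ}

/-- [F7b] -/
theorem sg_zero (hc : CF ε) : sg ε 0 = 1 := by
  have h1 : ε 0 0 = ε 0 0 * ε 0 0 := by
    have := hc.add 0 0 0
    rwa [add_zero] at this
  have h2 : ε 0 0 = 1 := by rw [h1]; exact hc.inv 0 0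
  unfold sg
  rw [if_pos h2]

private theorem f7b_cases (hc : CF ε) (a : Γ) : ε a a = 1 ∨ ε a a = -1 := by
  have h := hc.inv a a
  have h1 : (ε a a - 1) * (ε a a + 1) = 0 := by
    rw [← sub_eq_zero] at h
    rw [← h]
    ring
  rcases mul_eq_zero.1 h1 with h2 | h2
  · left
    exact sub_eq_zero.1 h2
  · right
    exact eq_neg_of_add_eq_zero_left h2

private theorem f7b_mul (hc : CF ε) (a b : Γ) : ε (a + b) (a + b) = ε a a * ε b b := by
  have i1 := hc.inv a (a + b)
  have i2 := hc.inv b (a + b)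
  rw [hc.add a b a] at i1
  rw [hc.add a b b] at i2
  have i3 := hc.inv a b
  have i4 := hc.inv a a
  have i5 := hc.inv b b
  rw [hc.add a b (a + b)]
  calc ε a (a + b) * ε b (a + b)
      = ε a (a + b) * ε b (a + b) * (ε a a * ε a a) * (ε b b * ε b b) * (ε a b * ε b a) := by
        rw [i3, i4, i5]; ring
    _ = (ε a (a + b) * (ε a a * ε b a)) * (ε b (a + b) * (ε a b * ε b b)) * (ε a a * ε b b) := by
        ring
    _ = ε a a * ε b b := by rw [i1, i2]; ring

/-- [F7b] (`ε γ γ * ε γ γ = 1`, so `ε γ γ = 1` or `-1`, and these are different) -/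
theorem sg_add (hc : CF ε) (h2 : (2 : k) ≠ 0) (a b : Γ) : sg ε (a + b) = sg ε a * sg ε b := by
  have hne : (-1 : k) ≠ 1 := by
    intro h
    apply h2
    have : (2 : k) = 1 - (-1) := by ring
    rw [this, h, sub_self]
  unfold sg
  rw [f7b_mul hc]
  rcases f7b_cases hc a with h | h <;> rcases f7b_cases hc b with h' | h' <;> rw [h, h'] <;>
    simp [hne]

/-- [F7b] -/
theorem sg_sq (a : Γ) : sg ε a * sg ε a = 1 := by
  unfold sg
  split_ifs <;> norm_num

end


end GTC
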