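import Pool.Agent.GTC.F4

/-!
# [GTC-F7a] decomposition of the forms, signs
-/

set_option autoImplicit false

open CategoryTheory Module

namespace GTC

section
variable {k Γ A : Type} [Field k] [AddCommGroup Γ] [DecidableEq Γ] [Ring A] [Algebra k A]
  {𝒜 : Γ → Submodule k A} {ε : Γ → Γ → k} {w : Γ →+ ℤ}

/-- [F7a] PROOF. `β = (1/2)(β + swap β) + (1/2)(β - swap β)` (`swap hc X X δ`). -/
theorem Sf_add (hc : CF ε) (h2 : (2 : k) ≠ 0) (X : GM 𝒜) (δ : Γ) :
    finrank k (Sf ε 1 X δ) + finrank k (Sf ε (-1) X δ) = finrank k (Bf ε X X δ) := by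
  have hinf : Sf ε 1 X δ ⊓ Sf ε (-1) X δ = ⊥ := by
    rw [Submodule.eq_bot_iff]
    rintro β ⟨h1, h3⟩
    refine form_ext fun μ ν x y hx hy => ?_
    have h4 := h1.2 ν μ y x hy hx
    have h5 := h3.2 ν μ y x hy hx
    rw [LinearMap.zero_apply, LinearMap.zero_apply]
    have h6 : (2 : k) * β x y = 0 := by
      calc (2 : k) * β x y = β x y + β x y := two_mul _
        _ = 1 * ε μ ν * β y x + -1 * ε μ ν * β y x := by rw [← h4, ← h5]
        _ = 0 := by ring
    exact (mul_eq_zero.1 h6).resolve_left h2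
  have hsup : Sf ε 1 X δ ⊔ Sf ε (-1) X δ = Bf ε X X δ := by
    apply le_antisymm
    · exact sup_le (fun β h => h.1) (fun β h => h.1)
    · intro β hβ
      obtain ⟨S, hS⟩ := swap hc X X δ
      obtain ⟨hS1, hS2⟩ := hS β hβ
      rw [Submodule.mem_sup]
      refine ⟨(2 : k)⁻¹ • (β + S β), Submodule.smul_mem _ _ ⟨Submodule.add_mem _ hβ hS1, ?_⟩,
        (2 : k)⁻¹ • (β - S β), Submodule.smul_mem _ _
          ⟨Submodule.sub_mem (M := X.M →ₗ[k] X.M →ₗ[k] k) _ hβ hS1, ?_⟩, ?_⟩
      · intro μ ν x y hx hy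
        rw [LinearMap.add_apply, LinearMap.add_apply, LinearMap.add_apply, LinearMap.add_apply,
          hS2 μ ν x y hx hy, hS2 ν μ y x hy hx]
        have h3 := hc.inv ν μ
        linear_combination (-(β y x)) * h3
      · intro μ ν x y hx hy
        rw [LinearMap.sub_apply, LinearMap.sub_apply, LinearMap.sub_apply, LinearMap.sub_apply,
          hS2 μ ν x y hx hy, hS2 ν μ y x hy hx]
        have h3 := hc.inv ν μ
        linear_combination (-(β y x)) * h3
      · refine LinearMap.ext fun x => LinearMap.ext fun y => ?_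
        show (2 : k)⁻¹ * (β x y + S β x y) + (2 : k)⁻¹ * (β x y - S β x y) = β x y
        have h3 : (2 : k)⁻¹ * 2 = 1 := inv_mul_cancel₀ h2
        linear_combination (β x y) * h3
  have h3 := Submodule.finrank_sup_add_finrank_inf_eq (V := X.M →ₗ[k] X.M →ₗ[k] k)
    (Sf ε 1 X δ) (Sf ε (-1) X δ)
  rw [hinf, hsup, finrank_bot, add_zero] at h3
  exact h3.symm

end


end GTC
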