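import Pool.Agent.GTC.Q0

/-!
# [GTC-Q1] commutative graded algebras whose degree zero component is a field
-/

set_option autoImplicit false

open CategoryTheory

namespace GTC

private theorem q1_triv (K A : Type) [Field K] [CommRing A] [Algebra K A] [FiniteDimensional K A]
    (h2 : (2 : K) ≠ 0) [Subsingleton A] (s : ℕ) : Col s A := by
  refine ⟨K, inferInstance, inferInstance, ℤ, inferInstance, inferInstance, fun _ => ⊥,
    fun _ _ => 1, AddMonoidHom.id ℤ, inferInstance, h2, ?_, fun γ h => absurd rfl h⟩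
  exact
    { cf := ⟨fun a b c => (one_mul _).symm, fun a b => one_mul _⟩
      int := by
        refine ⟨fun x y _ => ?_, fun y => ⟨0, Subsingleton.elim _ _⟩⟩
        refine DFinsupp.ext fun i => ?_
        exact Subsingleton.elim _ _
      one := by
        rw [Subsingleton.elim (1 : A) 0]
        exact Submodule.zero_mem _
      mul := fun {α β a b} _ _ => by
        rw [Subsingleton.elim (a * b) 0]
        exact Submodule.zero_mem _
      comm := fun {α β a b} _ _ => Subsingleton.elim _ _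
      zero := fun a _ => ⟨0, Subsingleton.elim _ _⟩
      pos := fun γ _ h => absurd rfl h }

section
variable {K A k : Type} [Field K] [CommRing A] [Algebra K A] (𝒜 : ℕ → Submodule K A)
  [GradedAlgebra 𝒜] [Field k] [Algebra k A] (hf : ∀ a, a ∈ 𝒜 0 ↔ ∃ c : k, algebraMap k A c = a)

include hf in
private theorem q1_comp (c : k) (a : A) (m : ℕ) :
    ((DirectSum.decompose 𝒜 (c • a) m : 𝒜 m) : A) = c • ((DirectSum.decompose 𝒜 a m : 𝒜 m) : A) := by
  rw [Algebra.smul_def, Algebra.smul_def]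
  exact DirectSum.coe_decompose_mul_of_left_mem_zero 𝒜 ((hf _).2 ⟨c, rfl⟩)

/-- the projection to a component -/
private noncomputable def q1_P (m : ℕ) : A →ₗ[k] A where
  toFun a := ((DirectSum.decompose 𝒜 a m : 𝒜 m) : A)
  map_add' a b := by rw [DirectSum.decompose_add]; rfl
  map_smul' c a := q1_comp 𝒜 hf c a m

/-- the components over `k` -/
private noncomputable def q1_B (n : ℤ) : Submodule k A where
  carrier := {a | ∀ m : ℕ, (m : ℤ) ≠ n → q1_P 𝒜 hf m a = 0}
  zero_mem' m _ := map_zero _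
  add_mem' {a b} ha hb m hm := by rw [map_add, ha m hm, hb m hm, add_zero]
  smul_mem' c a ha m hm := by rw [map_smul, ha m hm, smul_zero]

private theorem q1_P_apply (m : ℕ) (a : A) :
    q1_P 𝒜 hf m a = ((DirectSum.decompose 𝒜 a m : 𝒜 m) : A) := rfl

private theorem q1_sum (a : A) (h : ∀ m, q1_P 𝒜 hf m a = 0) : a = 0 := by
  classical
  rw [← DirectSum.sum_support_decompose 𝒜 a]
  exact Finset.sum_eq_zero fun m _ => h m

private theorem q1_B_nat (m : ℕ) (a : A) : a ∈ q1_B 𝒜 hf (m : ℤ) ↔ a ∈ 𝒜 m := by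
  classical
  refine ⟨fun h => ?_, fun h j hj => ?_⟩
  · have h1 : a - q1_P 𝒜 hf m a = 0 := by
      refine q1_sum 𝒜 hf _ fun j => ?_
      rw [map_sub]
      by_cases hj : j = m
      · subst hj
        rw [q1_P_apply 𝒜 hf j (q1_P 𝒜 hf j a), q1_P_apply 𝒜 hf j a,
          DirectSum.decompose_coe, DirectSum.of_eq_same, sub_self]
      · rw [h j (by exact_mod_cast hj), q1_P_apply 𝒜 hf j (q1_P 𝒜 hf m a), q1_P_apply 𝒜 hf m a,
          DirectSum.decompose_coe, DirectSum.of_eq_of_ne _ _ _ hj]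
        simp
    rw [sub_eq_zero] at h1
    rw [h1]
    exact SetLike.coe_mem _
  · rw [q1_P_apply]
    exact DirectSum.decompose_of_mem_ne 𝒜 h (fun h' => hj (by rw [h']))

private theorem q1_B_neg {n : ℤ} (hn : n < 0) {a : A} (h : a ∈ q1_B 𝒜 hf n) : a = 0 :=
  q1_sum 𝒜 hf a fun m => h m (by omega)

private theorem q1_int : DirectSum.IsInternal (q1_B 𝒜 hf) := by
  classical
  rw [DirectSum.isInternal_submodule_iff_iSupIndep_and_iSup_eq_top]
  constructor
  · intro n
    rw [Submodule.disjoint_def]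
    intro x hx hx'
    by_cases hn : n < 0
    · exact q1_B_neg 𝒜 hf hn hx
    · obtain ⟨m, rfl⟩ : ∃ m : ℕ, (m : ℤ) = n := ⟨n.toNat, by omega⟩
      have h1 : (⨆ j, ⨆ (_ : j ≠ (m : ℤ)), q1_B 𝒜 hf j) ≤ LinearMap.ker (q1_P 𝒜 hf m) :=
        iSup_le fun j => iSup_le fun hj y hy => hy m (fun h => hj h.symm)
      have h2 : q1_P 𝒜 hf m x = 0 := h1 hx'
      refine q1_sum 𝒜 hf x fun j => ?_
      by_cases hj : j = m
      · rw [hj]; exact h2
      · exact hx j (by exact_mod_cast hj)
  · rw [eq_top_iff]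
    intro x _
    rw [← DirectSum.sum_support_decompose 𝒜 x]
    refine Submodule.sum_mem _ fun m _ => ?_
    have h1 : ((DirectSum.decompose 𝒜 x m : 𝒜 m) : A) ∈ q1_B 𝒜 hf (m : ℤ) :=
      (q1_B_nat 𝒜 hf m _).2 (SetLike.coe_mem _)
    exact Submodule.mem_iSup_of_mem (m : ℤ) h1

include hf in
private theorem q1_fin [FiniteDimensional K A] : FiniteDimensional k A := by
  obtain ⟨s, hs⟩ := (Module.Finite.fg_top : (⊤ : Submodule K A).FG)
  refine ⟨⟨s, ?_⟩⟩
  rw [eq_top_iff]
  intro x _
  have hx : x ∈ Submodule.span K (s : Set A) := by rw [hs]; trivial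
  induction hx using Submodule.span_induction with
  | mem y hy => exact Submodule.subset_span hy
  | zero => exact Submodule.zero_mem _
  | add y z _ _ hy hz => exact Submodule.add_mem _ (hy trivial) (hz trivial)
  | smul c y _ hy =>
    have h1 : algebraMap K A c ∈ 𝒜 0 := by
      rw [Algebra.algebraMap_eq_smul_one]
      exact Submodule.smul_mem _ _ SetLike.GradedOne.one_mem
    obtain ⟨d, hd⟩ := (hf _).1 h1
    rw [Algebra.smul_def, ← hd, ← Algebra.smul_def]
    exact Submodule.smul_mem _ _ (hy trivial)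

include hf in
private theorem q1_aux [FiniteDimensional K A] [Nontrivial A] (h2 : (2 : K) ≠ 0) (s : ℕ)
    (hs : ∀ n, s < n → 𝒜 n = ⊥) : Col s A := by
  refine ⟨k, inferInstance, inferInstance, ℤ, inferInstance, inferInstance, q1_B 𝒜 hf,
    fun _ _ => 1, AddMonoidHom.id ℤ, q1_fin 𝒜 hf, ?_, ?_, ?_⟩
  · intro h
    have h3 : algebraMap k A 2 = 0 := by rw [h, map_zero]
    rw [map_ofNat] at h3
    have h4 : algebraMap K A 2 = 0 := by rw [map_ofNat]; exact h3
    exact h2 ((map_eq_zero _).1 h4)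
  · exact
      { cf := ⟨fun a b c => (one_mul _).symm, fun a b => one_mul _⟩
        int := q1_int 𝒜 hf
        one := (q1_B_nat 𝒜 hf 0 1).2 SetLike.GradedOne.one_mem
        mul := fun {α β a b} ha hb => by
          by_cases hα : α < 0
          · rw [q1_B_neg 𝒜 hf hα ha, zero_mul]; exact Submodule.zero_mem _
          by_cases hβ : β < 0
          · rw [q1_B_neg 𝒜 hf hβ hb, mul_zero]; exact Submodule.zero_mem _
          obtain ⟨m, rfl⟩ : ∃ m : ℕ, (m : ℤ) = α := ⟨α.toNat, by omega⟩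
          obtain ⟨n, rfl⟩ : ∃ n : ℕ, (n : ℤ) = β := ⟨β.toNat, by omega⟩
          have h1 := SetLike.GradedMul.mul_mem ((q1_B_nat 𝒜 hf m a).1 ha)
            ((q1_B_nat 𝒜 hf n b).1 hb)
          have h3 := (q1_B_nat 𝒜 hf (m + n) (a * b)).2 h1
          rw [Nat.cast_add] at h3
          exact h3
        comm := fun {α β a b} _ _ => by rw [one_smul, mul_comm]
        zero := fun a ha => by
          obtain ⟨c, hc⟩ := (hf a).1 ((q1_B_nat 𝒜 hf 0 a).1 ha)
          exact ⟨c, hc.symm⟩
        pos := fun γ h0 h => by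
          by_contra h1
          have h3 : γ < 0 := by
            have h4 : ¬ (0 < γ) := h1
            omega
          exact h ((Submodule.eq_bot_iff _).2 fun a ha => q1_B_neg 𝒜 hf h3 ha) }
  · intro γ h
    by_contra h1
    have h3 : (s : ℤ) < γ := not_le.1 h1
    obtain ⟨m, rfl⟩ : ∃ m : ℕ, (m : ℤ) = γ := ⟨γ.toNat, by omega⟩
    refine h ((Submodule.eq_bot_iff _).2 fun a ha => ?_)
    have h4 := (q1_B_nat 𝒜 hf m a).1 ha
    rw [hs m (by exact_mod_cast h3)] at h4
    exact (Submodule.mem_bot K).1 h4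

end

/-- [Q1] PROOF. If `A = 0` take `k = K`, `Γ = ℤ`, all components `⊥`. Otherwise let `k = 𝒜 0` (Mathlib: `SetLike.GradeZero` instances: commutative ring, `A` is an algebra over it; a field by `hu`: the inverse of a homogeneous unit of degree zero can be chosen in degree zero: its component of degree zero is an inverse), `Γ = ℤ`, `ε = 1`, `w = id`,
the components `𝒜 n.toNat` for `n ≥ 0` (as subspaces over `k`) and `⊥` for `n < 0`. `A` is finite over `k` because it is finite over `K`. The image of `2` in `k` is not zero. -/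
theorem col_of_field (K A : Type) [Field K] [CommRing A] [Algebra K A] [FiniteDimensional K A]
    (𝒜 : ℕ → Submodule K A) [GradedAlgebra 𝒜] (h2 : (2 : K) ≠ 0)
    (hu : ∀ a ∈ 𝒜 0, a ≠ 0 → IsUnit a) (s : ℕ) (hs : ∀ n, s < n → 𝒜 n = ⊥) : Col s A := by
  classical
  rcases subsingleton_or_nontrivial A with hA | hA
  · exact q1_triv K A h2 s
  have h1 : IsField (SetLike.GradeZero.subring 𝒜) :=
    { exists_pair_ne := ⟨0, 1, zero_ne_one⟩
      mul_comm := mul_comm
      mul_inv_cancel := fun {a} ha => by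
        obtain ⟨b, hb⟩ := (hu a.1 a.2 (fun h => ha (Subtype.ext h))).exists_right_inv
        refine ⟨⟨((DirectSum.decompose 𝒜 b 0 : 𝒜 0) : A), SetLike.coe_mem _⟩, Subtype.ext ?_⟩
        show a.1 * ((DirectSum.decompose 𝒜 b 0 : 𝒜 0) : A) = 1
        rw [← DirectSum.coe_decompose_mul_of_left_mem_zero 𝒜 a.2, hb]
        exact DirectSum.decompose_of_mem_same 𝒜 SetLike.GradedOne.one_mem }
  let _ : Field (SetLike.GradeZero.subring 𝒜) := h1.toField
  let _ : Algebra (SetLike.GradeZero.subring 𝒜) A :=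
    RingHom.toAlgebra (SetLike.GradeZero.subring 𝒜).subtype
  exact q1_aux (k := SetLike.GradeZero.subring 𝒜) 𝒜
    (fun a => ⟨fun h => ⟨⟨a, h⟩, rfl⟩, fun ⟨c, hc⟩ => hc ▸ c.2⟩) h2 s hs

end GTC
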