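import Pool.Agent.GTC.Q2a

/-!
# [GTC-Q2b] commutative graded algebras with reduced degree zero component are products
-/

set_option autoImplicit false

open CategoryTheory

namespace GTC

private theorem q2b_adjoin {K A : Type} [Field K] [CommRing A] [Algebra K A]
    (𝒜 : ℕ → Submodule K A) [GradedAlgebra 𝒜] {a : A} (ha : a ∈ 𝒜 0) :
    ∀ x ∈ Algebra.adjoin K {a}, x ∈ 𝒜 0 := by
  intro x hx
  induction hx using Algebra.adjoin_induction with
  | mem x hx =>
    rw [Set.mem_singleton_iff] at hx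
    rw [hx]
    exact ha
  | algebraMap r => exact SetLike.algebraMap_mem_graded 𝒜 r
  | add x y _ _ hx hy => exact Submodule.add_mem _ hx hy
  | mul x y _ _ hx hy =>
    have h := SetLike.mul_mem_graded hx hy
    rwa [zero_add] at h

private theorem q2b_unit {K A : Type} [Field K] [CommRing A] [Algebra K A]
    [FiniteDimensional K A] (𝒜 : ℕ → Submodule K A) [GradedAlgebra 𝒜]
    (hr : ∀ a ∈ 𝒜 0, IsNilpotent a → a = 0)
    (hid : ∀ e ∈ 𝒜 0, e * e = e → e = 0 ∨ e = 1) (a : A) (ha : a ∈ 𝒜 0) (h0 : a ≠ 0) :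
    IsUnit a := by
  let S := Algebra.adjoin K {a}
  have hart : IsArtinianRing S := IsArtinianRing.of_finite K S
  let r : S := ⟨a, Algebra.self_mem_adjoin_singleton K a⟩
  obtain ⟨n, y, hy⟩ := IsArtinian.exists_pow_succ_smul_dvd (M := S) r (1 : S)
  have h1 : a ^ (n + 1) * (y : A) = a ^ n := by
    have h2 := congrArg (Subtype.val : S → A) hy
    simp only [smul_eq_mul, mul_one, Nat.succ_eq_add_one] at h2
    exact h2
  have h2 : ∀ k : ℕ, a ^ (n + 1) * (a * (y : A)) ^ k = a ^ (n + 1) := by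
    intro k
    induction k with
    | zero => rw [pow_zero, mul_one]
    | succ k ih =>
      calc a ^ (n + 1) * (a * (y : A)) ^ (k + 1)
          = (a ^ (n + 1) * (a * (y : A)) ^ k) * (a * (y : A)) := by ring
        _ = a * (a ^ (n + 1) * (y : A)) := by rw [ih]; ring
        _ = a ^ (n + 1) := by rw [h1]; ring
  have hyS : (a * (y : A)) ^ (n + 1) ∈ 𝒜 0 :=
    q2b_adjoin 𝒜 ha _ (Subalgebra.pow_mem _
      (Subalgebra.mul_mem _ (Algebra.self_mem_adjoin_singleton K a) y.2) _)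
  have hidem : (a * (y : A)) ^ (n + 1) * (a * (y : A)) ^ (n + 1) = (a * (y : A)) ^ (n + 1) := by
    have h3 := h2 (n + 1)
    calc (a * (y : A)) ^ (n + 1) * (a * (y : A)) ^ (n + 1)
        = (a ^ (n + 1) * (a * (y : A)) ^ (n + 1)) * (y : A) ^ (n + 1) := by ring
      _ = (a * (y : A)) ^ (n + 1) := by rw [h3]; ring
  rcases hid _ hyS hidem with h | h
  · exfalso
    have h3 := h2 (n + 1)
    rw [h, mul_zero] at h3
    exact h0 (hr a ha ⟨n + 1, h3.symm⟩)
  · refine IsUnit.of_mul_eq_one (a ^ n * (y : A) ^ (n + 1)) ?_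
    rw [← h]
    ring

private theorem q2b_quot {K A : Type} [Field K] [CommRing A] [Algebra K A]
    [FiniteDimensional K A] (𝒜 : ℕ → Submodule K A) [GradedAlgebra 𝒜]
    (hr : ∀ a ∈ 𝒜 0, IsNilpotent a → a = 0) (e : A) (he : e ∈ 𝒜 0) (hee : e * e = e)
    (h0 : e ≠ 0) :
    ∃ (_ : FiniteDimensional K (A ⧸ Ideal.span {e})) (ℬ : ℕ → Submodule K (A ⧸ Ideal.span {e}))
      (_ : GradedAlgebra ℬ), (∀ b ∈ ℬ 0, IsNilpotent b → b = 0) ∧
      Module.finrank K (A ⧸ Ideal.span {e}) < Module.finrank K A ∧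
      ∀ n, 𝒜 n = ⊥ → ℬ n = ⊥ := by
  let g : A →ₗ[K] A ⧸ Ideal.span {e} := (Ideal.Quotient.mkₐ K (Ideal.span {e})).toLinearMap
  have hg : Function.Surjective g := Ideal.Quotient.mk_surjective
  have hfd : FiniteDimensional K (A ⧸ Ideal.span {e}) := Module.Finite.of_surjective g hg
  obtain ⟨ℬ, hℬ, hℬ'⟩ := quot_graded K A 𝒜 e he hee
  refine ⟨hfd, ℬ, hℬ, ?_, ?_, fun n hn => by rw [hℬ' n, hn, Submodule.map_bot]⟩
  · intro b hb ⟨n, hn⟩
    rw [hℬ' 0] at hb
    obtain ⟨a, ha, rfl⟩ := hb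
    have hn' : a ^ n ∈ Ideal.span {e} := by
      rw [← Ideal.Quotient.eq_zero_iff_mem, map_pow]
      exact hn
    obtain ⟨c, hc⟩ := Ideal.mem_span_singleton'.mp hn'
    have hf : (1 - e) ∈ 𝒜 0 := Submodule.sub_mem _ (SetLike.one_mem_graded 𝒜) he
    have hff : (1 - e) * a ∈ 𝒜 0 := by
      have h := SetLike.mul_mem_graded hf ha
      rwa [zero_add] at h
    have hpow : ∀ k : ℕ, ((1 - e) * a) ^ (k + 1) = (1 - e) * a ^ (k + 1) := by
      intro k
      induction k with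
      | zero => ring
      | succ k ih =>
        calc ((1 - e) * a) ^ (k + 1 + 1) = ((1 - e) * a) ^ (k + 1) * ((1 - e) * a) := by ring
          _ = (1 - e - e + e * e) * a ^ (k + 1 + 1) := by rw [ih]; ring
          _ = _ := by rw [hee]; ring
    have hnil : ((1 - e) * a) ^ (n + 1) = 0 := by
      rw [hpow]
      calc (1 - e) * a ^ (n + 1) = (1 - e) * (c * e) * a := by rw [hc]; ring
        _ = c * a * (e - e * e) := by ring
        _ = 0 := by rw [hee]; ring
    have h1 := hr _ hff ⟨n + 1, hnil⟩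
    show g a = 0
    have h2 : a ∈ Ideal.span {e} := by
      rw [Ideal.mem_span_singleton']
      refine ⟨a, ?_⟩
      have h3 : (1 - e) * a = a - a * e := by ring
      rw [h3, sub_eq_zero] at h1
      exact h1.symm
    exact Ideal.Quotient.eq_zero_iff_mem.mpr h2
  · have h1 := LinearMap.finrank_range_add_finrank_ker g
    rw [LinearMap.range_eq_top.mpr hg, finrank_top] at h1
    have h2 : 0 < Module.finrank K (LinearMap.ker g) := by
      have : Nontrivial (LinearMap.ker g) := by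
        refine ⟨⟨⟨e, ?_⟩, 0, ?_⟩⟩
        · exact Ideal.Quotient.eq_zero_iff_mem.mpr (Ideal.subset_span rfl)
        · intro h
          exact h0 (congrArg Subtype.val h)
      exact Module.finrank_pos
    omega

private theorem q2b_prod {A : Type} [CommRing A] (e f : A) (hef : e + f = 1) (hee : e * e = e) :
    Nonempty (A ≃+* (A ⧸ Ideal.span {e}) × (A ⧸ Ideal.span {f})) := by
  have hf : f = 1 - e := by rw [← hef]; ring
  have hef0 : e * f = 0 := by rw [hf, mul_sub, hee]; ring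
  let φ : A →+* (A ⧸ Ideal.span {e}) × (A ⧸ Ideal.span {f}) :=
    (Ideal.Quotient.mk (Ideal.span {e})).prod (Ideal.Quotient.mk (Ideal.span {f}))
  refine ⟨RingEquiv.ofBijective φ ⟨?_, ?_⟩⟩
  · rw [injective_iff_map_eq_zero]
    intro a ha
    have h1 : a ∈ Ideal.span {e} := Ideal.Quotient.eq_zero_iff_mem.mp (congrArg Prod.fst ha)
    have h2 : a ∈ Ideal.span {f} := Ideal.Quotient.eq_zero_iff_mem.mp (congrArg Prod.snd ha)
    obtain ⟨x, hx⟩ := Ideal.mem_span_singleton'.mp h1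
    obtain ⟨y, hy⟩ := Ideal.mem_span_singleton'.mp h2
    calc a = x * (e * e) := by rw [hee, hx]
      _ = (x * e) * e := by ring
      _ = y * (e * f) := by rw [hx, ← hy]; ring
      _ = 0 := by rw [hef0, mul_zero]
  · rintro ⟨x, y⟩
    obtain ⟨x, rfl⟩ := Ideal.Quotient.mk_surjective x
    obtain ⟨y, rfl⟩ := Ideal.Quotient.mk_surjective y
    refine ⟨f * x + e * y, ?_⟩
    apply Prod.ext
    · show Ideal.Quotient.mk _ (f * x + e * y) = Ideal.Quotient.mk _ x
      rw [Ideal.Quotient.eq, Ideal.mem_span_singleton']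
      refine ⟨y - x, ?_⟩
      rw [hf]
      ring
    · show Ideal.Quotient.mk _ (f * x + e * y) = Ideal.Quotient.mk _ y
      rw [Ideal.Quotient.eq, Ideal.mem_span_singleton']
      refine ⟨x - y, ?_⟩
      rw [hf]
      ring

private def q2b_sum {K : Type} [Field K] {J₁ J₂ : Type} (B₁ : J₁ → CG K) (B₂ : J₂ → CG K) :
    ((∀ j, (B₁ j).B) × (∀ j, (B₂ j).B)) ≃+* ∀ j : J₁ ⊕ J₂, (Sum.elim B₁ B₂ j).B where
  toFun p j := match j with
    | Sum.inl j => p.1 j
    | Sum.inr j => p.2 j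
  invFun q := (fun j => q (Sum.inl j), fun j => q (Sum.inr j))
  left_inv p := rfl
  right_inv q := by
    funext j
    cases j <;> rfl
  map_mul' p q := by
    funext j
    cases j <;> rfl
  map_add' p q := by
    funext j
    cases j <;> rfl

private theorem q2b_main (K : Type) [Field K] (n : ℕ) : ∀ (A : Type) [CommRing A] [Algebra K A]
    [FiniteDimensional K A] (𝒜 : ℕ → Submodule K A) [GradedAlgebra 𝒜],
    (∀ a ∈ 𝒜 0, IsNilpotent a → a = 0) → Module.finrank K A = n →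
    ∃ (J : Type) (B : J → CG K), Nonempty (A ≃+* ∀ j, (B j).B) ∧
      ∀ j n, 𝒜 n = ⊥ → (B j).gr n = ⊥ := by
  induction n using Nat.strong_induction_on with
  | _ n ih =>
    intro A _ _ _ 𝒜 _ hr hn
    by_cases hid : ∀ e ∈ 𝒜 0, e * e = e → e = 0 ∨ e = 1
    · refine ⟨Unit, fun _ => { B := A, gr := 𝒜, unit := q2b_unit 𝒜 hr hid }, ⟨?_⟩,
        fun _ n hn => hn⟩
      exact
        { toFun := fun a _ => a
          invFun := fun g => g ()
          left_inv := fun a => rfl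
          right_inv := fun g => rfl
          map_mul' := fun a b => rfl
          map_add' := fun a b => rfl }
    · push Not at hid
      obtain ⟨e, he, hee, he0, he1⟩ := hid
      have hf : (1 - e) ∈ 𝒜 0 := Submodule.sub_mem _ (SetLike.one_mem_graded 𝒜) he
      have hff : (1 - e) * (1 - e) = 1 - e := by
        calc (1 - e) * (1 - e) = 1 - e - e + e * e := by ring
          _ = 1 - e := by rw [hee]; ring
      have hf0 : 1 - e ≠ 0 := fun h => he1 (sub_eq_zero.mp h).symm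
      obtain ⟨_, ℬ₁, _, hr₁, hn₁, hb₁⟩ := q2b_quot 𝒜 hr e he hee he0
      obtain ⟨_, ℬ₂, _, hr₂, hn₂, hb₂⟩ := q2b_quot 𝒜 hr (1 - e) hf hff hf0
      obtain ⟨J₁, B₁, ⟨φ₁⟩, hB₁⟩ := ih _ (hn ▸ hn₁) _ ℬ₁ hr₁ rfl
      obtain ⟨J₂, B₂, ⟨φ₂⟩, hB₂⟩ := ih _ (hn ▸ hn₂) _ ℬ₂ hr₂ rfl
      obtain ⟨φ⟩ := q2b_prod e (1 - e) (by ring) hee
      refine ⟨J₁ ⊕ J₂, Sum.elim B₁ B₂,
        ⟨φ.trans ((RingEquiv.prodCongr φ₁ φ₂).trans (q2b_sum B₁ B₂))⟩, ?_⟩
      rintro (j | j) n hn
      · exact hB₁ j n (hb₁ n hn)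
      · exact hB₂ j n (hb₂ n hn)

/-- [Q2b] PROOF. Strong induction on the dimension of `A`. If `A = 0` take `J = Empty`. If the only idempotents in `𝒜 0` are `0` and `1` then every `0 ≠ a ∈ 𝒜 0` is a unit: the ideals `a^n 𝒜 0` of the finite-dimensional algebra `𝒜 0` become constant, so `a^n = a^(2n) c` with `c ∈ 𝒜 0`, `n ≥ 1`, `a^n c` is an idempotent; it is not `0` (otherwise `a^n = 0`, so `a = 0` by `hr`), so it is `1`; take `J = Unit`.
Otherwise let `e ∈ 𝒜 0` be an idempotent, `e ≠ 0`, `e ≠ 1`, `f = 1 - e`. `A ≃ A/(e) × A/(f)` (Chinese remainder theorem), both factors are graded (`quot_graded`), of smaller dimension, and their degree zero component is reduced: if `a ∈ 𝒜 0` and `a^n ∈ (e)` then `(f a)^n = 0`, so `f a = 0` and `a = e a ∈ (e)`. Take `J = J₁ ⊕ J₂`. -/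
theorem exists_blocks (K : Type) [Field K] (A : Type) [CommRing A] [Algebra K A]
    [FiniteDimensional K A] (𝒜 : ℕ → Submodule K A) [GradedAlgebra 𝒜]
    (hr : ∀ a ∈ 𝒜 0, IsNilpotent a → a = 0) :
    ∃ (J : Type) (B : J → CG K), Nonempty (A ≃+* ∀ j, (B j).B) ∧
      ∀ j n, 𝒜 n = ⊥ → (B j).gr n = ⊥ := by
  exact q2b_main K _ A 𝒜 hr rfl

end GTC
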