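import Pool.Agent.GTC.P5
import Pool.Agent.GTC.Q1
import Pool.Agent.GTC.Q2b

/-!
# [GTC-Fin] products (complete)
-/

set_option autoImplicit false

open CategoryTheory Module

namespace GTC

theorem tc1_of_pi {R : Type} [Ring R] [HasExt.{1} (ModuleCat.{0} R)] {J : Type} (B : J → Type)
    [∀ j, Ring (B j)] (f : R ≃+* ∀ j, B j) (s : ℕ) (h : ∀ j, Col s (B j))
    (hT : TVanN (4 * s + 2) R) : Module.Injective R R := by
  refine inj_pi B f fun j => ?_
  obtain ⟨b, -⟩ := blk_pi B f j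
  obtain ⟨k, _, _, Γ, _, _, 𝒜, ε, w, h1, h2, hA, hs⟩ := h j
  exact core hA h2 s hs fun n hn g => hext_of_tvan b _ hT hA n hn g

theorem tc1_comm (K A : Type) [Field K] [CommRing A] [Algebra K A] [FiniteDimensional K A]
    [HasExt.{1} (ModuleCat.{0} A)] (𝒜 : ℕ → Submodule K A) [GradedAlgebra 𝒜] (h2 : (2 : K) ≠ 0)
    (hr : ∀ a ∈ 𝒜 0, IsNilpotent a → a = 0) (s : ℕ) (hs : ∀ n, s < n → 𝒜 n = ⊥)
    (hT : TVanN (4 * s + 2) A) : Module.Injective A A := by
  obtain ⟨J, B, ⟨f⟩, hB⟩ := exists_blocks K A 𝒜 hr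
  exact tc1_of_pi (fun j => (B j).B) f s
    (fun j => col_of_field K (B j).B (B j).gr h2 (B j).unit s fun n hn => hB j n (hs n hn)) hT

end GTC
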