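import Pool.Agent.GTC.Defs

/-!
# [GTC-G0] the group ring of `Γ` (definitions, complete, no row)
-/

set_option autoImplicit false

open AddMonoidAlgebra

namespace GTC

variable {Γ : Type} [AddCommGroup Γ]

open Classical in
/-- the element of the group ring with the given coefficients -/
noncomputable def el (f : Γ → ℤ) : AddMonoidAlgebra ℤ Γ :=
  AddMonoidAlgebra.ofCoeff
    (if h : (Function.support f).Finite then Finsupp.ofSupportFinite f h else 0)

theorem coeff_el {f : Γ → ℤ} (h : (Function.support f).Finite) (γ : Γ) : (el f).coeff γ = f γ := by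
  unfold el
  rw [dif_pos h]
  rfl

/-- the ring homomorphism `[γ] ↦ s γ [2 γ]` -/
noncomputable def psi (s : Γ → ℤ) (hs0 : s 0 = 1) (hs : ∀ a b, s (a + b) = s a * s b) :
    AddMonoidAlgebra ℤ Γ →ₐ[ℤ] AddMonoidAlgebra ℤ Γ :=
  AddMonoidAlgebra.lift ℤ (AddMonoidAlgebra ℤ Γ) Γ
    { toFun := fun g => AddMonoidAlgebra.single (g.toAdd + g.toAdd) (s g.toAdd)
      map_one' := by
        show AddMonoidAlgebra.single ((0 : Γ) + 0) (s 0) = 1
        rw [hs0, add_zero]
        rfl
      map_mul' := fun g h => by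
        show AddMonoidAlgebra.single ((g.toAdd + h.toAdd) + (g.toAdd + h.toAdd))
          (s (g.toAdd + h.toAdd)) = _
        rw [AddMonoidAlgebra.single_mul_single, hs]
        congr 1
        abel }

theorem psi_single (s : Γ → ℤ) (hs0 : s 0 = 1) (hs : ∀ a b, s (a + b) = s a * s b) (γ : Γ)
    (c : ℤ) : psi s hs0 hs (AddMonoidAlgebra.single γ c) =
      AddMonoidAlgebra.single (γ + γ) (c * s γ) := by
  unfold psi
  rw [AddMonoidAlgebra.lift_single]
  show c • AddMonoidAlgebra.single (γ + γ) (s γ) = _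
  rw [AddMonoidAlgebra.smul_single]
  rfl

/-- the ring homomorphism `[γ] ↦ [-γ]` -/
noncomputable def ng : AddMonoidAlgebra ℤ Γ →+* AddMonoidAlgebra ℤ Γ :=
  AddMonoidAlgebra.mapDomainRingHom ℤ (negAddMonoidHom : Γ →+ Γ)

/-- the sum of the coefficients -/
noncomputable def aug : AddMonoidAlgebra ℤ Γ →ₐ[ℤ] ℤ :=
  AddMonoidAlgebra.lift ℤ ℤ Γ 1

theorem aug_apply (x : AddMonoidAlgebra ℤ Γ) : aug x = x.coeff.sum fun _ c => c := by
  unfold aug
  rw [AddMonoidAlgebra.lift_apply]
  simp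

/-- the weights of `x` are at least `c` -/
def WB (w : Γ →+ ℤ) (c : ℤ) (x : AddMonoidAlgebra ℤ Γ) : Prop := ∀ γ, x.coeff γ ≠ 0 → c ≤ w γ

end GTC
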