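import Pool.Agent.GTC.G0

/-!
# [GTC-G1a] weights
-/

set_option autoImplicit false

open CategoryTheory Module

namespace GTC

section
variable {Γ : Type} [AddCommGroup Γ] {w : Γ →+ ℤ}

/-- [G1a] -/
theorem WB.mono {x : AddMonoidAlgebra ℤ Γ} {a b : ℤ} (h : WB w a x) (hb : b ≤ a) : WB w b x :=
  fun γ hγ => hb.trans (h γ hγ)

/-- [G1a] -/
theorem WB.add {x y : AddMonoidAlgebra ℤ Γ} {a : ℤ} (hx : WB w a x) (hy : WB w a y) :
    WB w a (x + y) := by
  intro γ hγ
  by_contra hlt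
  have h1 : x.coeff γ = 0 := by
    by_contra h; exact hlt (hx γ h)
  have h2 : y.coeff γ = 0 := by
    by_contra h; exact hlt (hy γ h)
  apply hγ
  rw [AddMonoidAlgebra.coeff_add, Finsupp.add_apply, h1, h2, add_zero]

/-- [G1a] -/
theorem WB.sub {x y : AddMonoidAlgebra ℤ Γ} {a : ℤ} (hx : WB w a x) (hy : WB w a y) :
    WB w a (x - y) := by
  intro γ hγ
  by_contra hlt
  have h1 : x.coeff γ = 0 := by
    by_contra h; exact hlt (hx γ h)
  have h2 : y.coeff γ = 0 := by
    by_contra h; exact hlt (hy γ h)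
  apply hγ
  rw [AddMonoidAlgebra.coeff_sub, Finsupp.sub_apply, h1, h2, sub_zero]

/-- [G1a] -/
theorem WB.mul {x y : AddMonoidAlgebra ℤ Γ} {a b : ℤ} (hx : WB w a x) (hy : WB w b y) :
    WB w (a + b) (x * y) := by
  classical
  intro γ hγ
  by_contra hlt
  apply hγ
  rw [AddMonoidAlgebra.coeff_mul, Finsupp.sum]
  refine Finset.sum_eq_zero fun g hg => ?_
  rw [Finsupp.sum]
  refine Finset.sum_eq_zero fun h hh => ?_
  rw [if_neg]
  intro hgh
  apply hlt
  rw [← hgh, map_add]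
  exact add_le_add (hx g (Finsupp.mem_support_iff.mp hg)) (hy h (Finsupp.mem_support_iff.mp hh))

end


end GTC
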