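import Pool.Agent.GTC.G1a

/-!
# [GTC-G1b] weights
-/

set_option autoImplicit false

open CategoryTheory Module

namespace GTC

section
variable {Γ : Type} [AddCommGroup Γ] {w : Γ →+ ℤ}

/-- [G1b] (`x` is the sum of the `single γ (x.coeff γ)`, `psi_single`) -/
theorem WB.psi {x : AddMonoidAlgebra ℤ Γ} {a : ℤ} (hx : WB w a x) (s : Γ → ℤ) (hs0 : s 0 = 1)
    (hs : ∀ a b, s (a + b) = s a * s b) : WB w (a + a) (psi s hs0 hs x) := by
  classical
  intro γ hγ
  have h1 : GTC.psi s hs0 hs x =
      ∑ g ∈ x.coeff.support, AddMonoidAlgebra.single (g + g) (x.coeff g * s g) := by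
    conv_lhs => rw [← AddMonoidAlgebra.sum_coeff_single x]
    unfold Finsupp.sum
    rw [map_sum]
    exact Finset.sum_congr rfl fun g _ => psi_single s hs0 hs g _
  rw [h1, AddMonoidAlgebra.coeff_sum, Finsupp.finsetSum_apply] at hγ
  obtain ⟨g, hg, hne⟩ := Finset.exists_ne_zero_of_sum_ne_zero hγ
  rw [AddMonoidAlgebra.coeff_single, Finsupp.single_apply] at hne
  have h2 : g + g = γ := by
    by_contra h3
    exact hne (if_neg h3)
  have h3 := hx g (Finsupp.mem_support_iff.1 hg)
  rw [← h2, map_add]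
  omega

/-- [G1b] PROOF. `z 0 = ± z n`, so `c + n ≤ w γ` for all `n` if the coefficient of `z 0` at `γ` is not zero. -/
theorem alt_zero (z : ℕ → AddMonoidAlgebra ℤ Γ) (hz : ∀ n, z (n + 1) + z n = 0) (c : ℤ)
    (hw : ∀ n : ℕ, WB w (c + n) (z n)) : z 0 = 0 := by
  refine AddMonoidAlgebra.ext (Finsupp.ext fun γ => ?_)
  by_contra hne
  have h1 : ∀ n, (z n).coeff γ ≠ 0 := by
    intro n
    induction n with
    | zero => exact hne
    | succ n ih =>
      have h2 : (z (n + 1) + z n).coeff γ = 0 := by rw [hz n]; rfl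
      rw [AddMonoidAlgebra.coeff_add, Finsupp.add_apply] at h2
      intro h3
      rw [h3, zero_add] at h2
      exact ih h2
  have h3 := hw (w γ - c + 1).toNat γ (h1 _)
  omega

end


end GTC
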