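import Pool.Agent.GTC.G1

/-!
# [GTC-G2] the alternating identities, finite form (complete)
-/

set_option autoImplicit false

open CategoryTheory Module

namespace GTC

section
variable {Γ : Type} [AddCommGroup Γ] {w : Γ →+ ℤ}

theorem alt_fin (z : ℕ → AddMonoidAlgebra ℤ Γ) (M : ℕ) (hz : ∀ n, n < M → z (n + 1) + z n = 0)
    {c d : ℤ} (h1 : WB w c (z M)) (h2 : WB (-w) (-d) (z 0)) (hcd : d < c) : z 0 = 0 := by
  refine AddMonoidAlgebra.ext (Finsupp.ext fun γ => ?_)
  by_contra hne
  have h3 : ∀ n, n ≤ M → (z n).coeff γ ≠ 0 := by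
    intro n
    induction n with
    | zero => exact fun _ => hne
    | succ n ih =>
      intro hn
      have h2 : (z (n + 1) + z n).coeff γ = 0 := by rw [hz n (by omega)]; rfl
      rw [AddMonoidAlgebra.coeff_add, Finsupp.add_apply] at h2
      intro h3
      rw [h3, zero_add] at h2
      exact ih (by omega) h2
  have h4 := h1 γ (h3 M le_rfl)
  have h5 := h2 γ hne
  rw [AddMonoidHom.neg_apply] at h5
  omega

theorem num1 (a : AddMonoidAlgebra ℤ Γ) (s : ℤ) (ha : WB w 0 a) (ha' : WB (-w) (-s) a)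
    (x b : ℕ → AddMonoidAlgebra ℤ Γ) (M : ℕ) (hM : 3 * s < M)
    (h1 : ∀ n, n < M → x (n + 1) + x n = a * x n)
    (h2 : ∀ n, n < M → b (n + 1) + b n = x n * x 0) (hx : WB w (-s + M) (x M))
    (hx0 : WB w (-s) (x 0)) (hx0' : WB (-w) 0 (x 0)) (hb : WB w (-s + M + -s) (b M))
    (hb' : WB (-w) 0 (b 0)) : a * b 0 = x 0 * x 0 := by
  have hs : 0 ≤ s ∨ a = 0 := by
    by_cases h : a = 0
    · exact Or.inr h
    · left
      have h3 : ∃ γ, a.coeff γ ≠ 0 := by
        by_contra h4
        push Not at h4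
        exact h (AddMonoidAlgebra.ext (Finsupp.ext h4))
      obtain ⟨γ, hγ⟩ := h3
      have h4 := ha γ hγ
      have h5 := ha' γ hγ
      rw [AddMonoidHom.neg_apply] at h5
      omega
  rcases hs with hs | hs
  swap
  · have h3 : ∀ n, n < M → x (n + 1) + x n = 0 := fun n hn => by rw [h1 n hn, hs, zero_mul]
    by_cases hM0 : M = 0
    · subst hM0
      have h4 : x 0 = 0 := by
        by_contra h
        have h3 : ∃ γ, (x 0).coeff γ ≠ 0 := by
          by_contra h4
          push Not at h4
          exact h (AddMonoidAlgebra.ext (Finsupp.ext h4))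
        obtain ⟨γ, hγ⟩ := h3
        have h4 := hx0 γ hγ
        have h5 := hx0' γ hγ
        rw [AddMonoidHom.neg_apply] at h5
        push_cast at hM
        omega
      rw [h4, hs, zero_mul, zero_mul]
    · have h4 : x 0 = 0 := alt_fin x M h3 (d := 0) hx (by simpa using hx0') (by
        by_contra h6
        have h7 : 0 < (M : ℤ) := by omega
        omega)
      rw [h4, hs, zero_mul, zero_mul]
  have key := alt_fin (w := w) (fun n => a * b n - x n * x 0) M (fun n hn => by
    have e1 : x (n + 1) = a * x n - x n := eq_sub_of_add_eq (h1 n hn)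
    have e2 : b (n + 1) = x n * x 0 - b n := eq_sub_of_add_eq (h2 n hn)
    show a * b (n + 1) - x (n + 1) * x 0 + (a * b n - x n * x 0) = 0
    rw [e1, e2]
    ring) (c := -s + M + -s) (d := s)
    (((ha.mul hb).mono (by omega)).sub ((hx.mul hx0).mono le_rfl))
    (((ha'.mul hb').mono (by omega)).sub ((hx0'.mul hx0').mono (by omega))) (by omega)
  exact sub_eq_zero.mp key

theorem num2 (e : Γ → ℤ) (he0 : e 0 = 1) (he : ∀ a b, e (a + b) = e a * e b)
    (a : AddMonoidAlgebra ℤ Γ) (s : ℤ) (hs : 0 ≤ s) (ha : WB w 0 a) (ha' : WB (-w) (-s) a)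
    (x t : ℕ → AddMonoidAlgebra ℤ Γ) (M : ℕ) (hM : 2 * s < M)
    (h1 : ∀ n, n < M → x (n + 1) + x n = a * x n)
    (h2 : ∀ n, n < M → t (n + 1) + t n = a * psi e he0 he (x n)) (hx : WB w (-s + M) (x M))
    (hx0' : WB (-w) 0 (x 0)) (ht : WB w (-s + M + (-s + M)) (t M)) (ht' : WB (-w) 0 (t 0)) :
    psi e he0 he a * t 0 = a * psi e he0 he (x 0) := by
  have key := alt_fin (w := w) (fun n => psi e he0 he a * t n - a * psi e he0 he (x n)) M
    (fun n hn => by
    have e1 : psi e he0 he (x (n + 1)) = psi e he0 he a * psi e he0 he (x n)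
        - psi e he0 he (x n) := by
      rw [← map_mul, ← map_sub, ← h1 n hn]
      congr 1
      ring
    have e2 : t (n + 1) = a * psi e he0 he (x n) - t n := eq_sub_of_add_eq (h2 n hn)
    show psi e he0 he a * t (n + 1) - a * psi e he0 he (x (n + 1))
      + (psi e he0 he a * t n - a * psi e he0 he (x n)) = 0
    rw [e1, e2]
    ring) (c := -s + M + (-s + M)) (d := s + s)
    ((((ha.psi e he0 he).mul ht).mono (by omega)).sub
      ((ha.mul (hx.psi e he0 he)).mono (by omega)))
    ((((ha'.psi e he0 he).mul ht').mono (by omega)).sub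
      ((ha'.mul (hx0'.psi e he0 he)).mono (by omega))) (by omega)
  exact sub_eq_zero.mp key

end

end GTC
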