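import Pool.Agent.GTC.G1

/-!
# [GTC-G5] the sum of the coefficients
-/

set_option autoImplicit false

open CategoryTheory Module

namespace GTC

section
variable {Γ : Type} [AddCommGroup Γ] {w : Γ →+ ℤ}

theorem ng_single (γ : Γ) (c : ℤ) :
    ng (AddMonoidAlgebra.single γ c) = AddMonoidAlgebra.single (-γ) c := by
  unfold ng
  rw [AddMonoidAlgebra.mapDomainRingHom_apply, AddMonoidAlgebra.mapDomain_single]
  rfl

theorem aug_single {G : Type} [AddCommGroup G] (γ : G) (c : ℤ) :
    aug (AddMonoidAlgebra.single γ c) = c := by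
  rw [aug_apply, AddMonoidAlgebra.coeff_single, Finsupp.sum_single_index rfl]

/-- [G5] -/
theorem ng_coeff (x : AddMonoidAlgebra ℤ Γ) (γ : Γ) : (ng x).coeff γ = x.coeff (-γ) := by
  classical
  induction x using AddMonoidAlgebra.induction_linear with
  | zero => simp
  | add x y hx hy => rw [map_add, AddMonoidAlgebra.coeff_add, AddMonoidAlgebra.coeff_add,
      Finsupp.add_apply, Finsupp.add_apply, hx, hy]
  | single a c =>
    rw [ng_single, AddMonoidAlgebra.coeff_single, AddMonoidAlgebra.coeff_single,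
      Finsupp.single_apply, Finsupp.single_apply]
    by_cases h : a = -γ
    · rw [if_pos h, if_pos (by rw [h, neg_neg])]
    · rw [if_neg h, if_neg (fun h' => h (by rw [← h', neg_neg]))]

/-- [G5] -/
theorem aug_ng (x : AddMonoidAlgebra ℤ Γ) : aug (ng x) = aug x := by
  induction x using AddMonoidAlgebra.induction_linear with
  | zero => rw [map_zero, map_zero]
  | add x y hx hy => rw [map_add, map_add, map_add, hx, hy]
  | single a c => rw [ng_single, aug_single, aug_single]

theorem ng_ng (x : AddMonoidAlgebra ℤ Γ) : ng (ng x) = x := by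
  induction x using AddMonoidAlgebra.induction_linear with
  | zero => rw [map_zero, map_zero]
  | add x y hx hy => rw [map_add, map_add, hx, hy]
  | single a c => rw [ng_single, ng_single, neg_neg]

theorem ng_psi (s : Γ → ℤ) (hs0 : s 0 = 1) (hs : ∀ a b, s (a + b) = s a * s b)
    (hs2 : ∀ a, s a * s a = 1) (x : AddMonoidAlgebra ℤ Γ) :
    ng (psi s hs0 hs x) = psi s hs0 hs (ng x) := by
  induction x using AddMonoidAlgebra.induction_linear with
  | zero => simp only [map_zero]
  | add x y hx hy => rw [map_add, map_add, map_add, map_add, hx, hy]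
  | single a c =>
    have h1 : s (-a) = s a := by
      have h2 := hs (-a) a
      rw [neg_add_cancel, hs0] at h2
      calc s (-a) = s (-a) * (s a * s a) := by rw [hs2, mul_one]
        _ = (s (-a) * s a) * s a := by ring
        _ = s a := by rw [← h2, one_mul]
    rw [ng_single, psi_single, psi_single, ng_single, h1, neg_add]

/-- the ring homomorphism given by the weights -/
noncomputable def Wh (w : Γ →+ ℤ) : AddMonoidAlgebra ℤ Γ →+* AddMonoidAlgebra ℤ ℤ :=
  AddMonoidAlgebra.mapDomainRingHom ℤ w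

theorem Wh_single (w : Γ →+ ℤ) (γ : Γ) (c : ℤ) :
    Wh w (AddMonoidAlgebra.single γ c) = AddMonoidAlgebra.single (w γ) c := by
  unfold Wh
  rw [AddMonoidAlgebra.mapDomainRingHom_apply, AddMonoidAlgebra.mapDomain_single]

theorem aug_Wh (x : AddMonoidAlgebra ℤ Γ) : aug (Wh w x) = aug x := by
  induction x using AddMonoidAlgebra.induction_linear with
  | zero => rw [map_zero, map_zero, map_zero]
  | add x y hx hy => rw [map_add, map_add, map_add, hx, hy]
  | single a c => rw [Wh_single, aug_single, aug_single]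

theorem Wh_psi_coeff (s : Γ → ℤ) (hs0 : s 0 = 1) (hs : ∀ a b, s (a + b) = s a * s b)
    (x : AddMonoidAlgebra ℤ Γ) : (Wh w (psi s hs0 hs x)).coeff 0 =
      x.coeff.sum fun γ c => if w γ = 0 then c * s γ else 0 := by
  classical
  induction x using AddMonoidAlgebra.induction_linear with
  | zero => simp
  | add x y hx hy =>
    rw [map_add, map_add, AddMonoidAlgebra.coeff_add, Finsupp.add_apply, hx, hy,
      AddMonoidAlgebra.coeff_add, Finsupp.sum_add_index']
    · intro a
      simp
    · intro a b c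
      split_ifs
      · ring
      · rfl
  | single a c =>
    rw [psi_single, Wh_single, AddMonoidAlgebra.coeff_single, AddMonoidAlgebra.coeff_single,
      Finsupp.single_apply, Finsupp.sum_single_index (by simp)]
    have h1 : w (a + a) = 0 ↔ w a = 0 := by
      rw [map_add]
      omega
    by_cases h : w a = 0
    · rw [if_pos h, if_pos (h1.2 h)]
    · rw [if_neg h, if_neg (fun h' => h (h1.1 h'))]

theorem Wh_psi_ne (s : Γ → ℤ) (hs0 : s 0 = 1) (hs : ∀ a b, s (a + b) = s a * s b)
    (x : AddMonoidAlgebra ℤ Γ) (h0 : x.coeff 0 = 1)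
    (h1 : ∀ γ, γ ≠ 0 → x.coeff γ ≠ 0 → w γ ≠ 0) : Wh w (psi s hs0 hs x) ≠ 0 := by
  intro h
  have h2 := Wh_psi_coeff (w := w) s hs0 hs x
  rw [h, Finsupp.sum, Finset.sum_eq_single 0] at h2
  · rw [if_pos (map_zero w), h0, hs0] at h2
    exact absurd h2 (by decide)
  · intro γ hγ hγ0
    rw [if_neg (h1 γ hγ0 (Finsupp.mem_support_iff.1 hγ))]
  · intro h3
    rw [Finsupp.mem_support_iff, not_not] at h3
    rw [h3] at h0
    exact absurd h0 (by decide)

theorem alg_aux {R : Type} [CommRing R] {p q t t' a a' : R} (h : p * t = a * q)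
    (h1 : q * t' = a' * p) : p * q * (t * t') = p * q * (a * a') := by
  linear_combination (q * t') * h + a * q * h1

theorem alg_aux2 {R : Type} [CommRing R] [NoZeroDivisors R] {p q x y : R} (hp : p ≠ 0)
    (hq : q ≠ 0) (h : p * q * x = p * q * y) : x = y := by
  exact mul_left_cancel₀ (mul_ne_zero hp hq) h

/-- [G5] -/
theorem aug_sq (s : Γ → ℤ) (hs0 : s 0 = 1) (hs : ∀ a b, s (a + b) = s a * s b)
    (hs2 : ∀ a, s a * s a = 1) (a t : AddMonoidAlgebra ℤ Γ) (ha0 : a.coeff 0 = 1)
    (ha1 : ∀ γ, γ ≠ 0 → a.coeff γ ≠ 0 → 0 < w γ)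
    (h : psi s hs0 hs a * t = a * psi s hs0 hs (ng a)) : aug t * aug t = aug a * aug a := by
  have h1 := congrArg ng h
  rw [map_mul, map_mul, ng_psi s hs0 hs hs2, ng_psi s hs0 hs hs2, ng_ng] at h1
  have h2 := alg_aux h h1
  have h3 := congrArg (Wh w) h2
  simp only [map_mul (Wh w)] at h3
  have n1 : Wh w (psi s hs0 hs a) ≠ 0 := Wh_psi_ne s hs0 hs a ha0 fun γ h4 h5 => (ha1 γ h4 h5).ne'
  have n2 : Wh w (psi s hs0 hs (ng a)) ≠ 0 := by
    refine Wh_psi_ne s hs0 hs (ng a) (by rw [ng_coeff, neg_zero, ha0]) fun γ h4 h5 => ?_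
    rw [ng_coeff] at h5
    have h6 := ha1 (-γ) (neg_ne_zero.2 h4) h5
    rw [map_neg] at h6
    omega
  have h4 := alg_aux2 n1 n2 h3
  have h5 := congrArg aug h4
  rw [map_mul, map_mul, aug_Wh, aug_Wh, aug_Wh, aug_Wh, aug_ng, aug_ng] at h5
  exact h5

end

end GTC
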