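import Pool.Agent.GTC.G1
import Pool.Agent.GTC.C9
import Pool.Agent.GTC.F4

/-!
# [GTC-G6a] Hilbert series (definitions complete; rows G6, G7)
-/

set_option autoImplicit false

open CategoryTheory Module

namespace GTC

section
variable {k Γ A : Type} [Field k] [AddCommGroup Γ] [DecidableEq Γ] [Ring A] [Algebra k A]
  {𝒜 : Γ → Submodule k A} {ε : Γ → Γ → k} {w : Γ →+ ℤ}

/-- the Hilbert series of `A` -/
noncomputable def HA (𝒜 : Γ → Submodule k A) : AddMonoidAlgebra ℤ Γ :=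
  el fun γ => (finrank k (𝒜 γ) : ℤ)

/-- the Hilbert series of a module -/
noncomputable def Hm (X : GM 𝒜) : AddMonoidAlgebra ℤ Γ := el fun γ => (finrank k (X.gr γ) : ℤ)

/-- the Hilbert series of the forms -/
noncomputable def Bt (ε : Γ → Γ → k) (X Y : GM 𝒜) : AddMonoidAlgebra ℤ Γ :=
  el fun δ => (finrank k (Bf ε X Y δ) : ℤ)

/-- the trace series -/
noncomputable def Tr (ε : Γ → Γ → k) (X : GM 𝒜) : AddMonoidAlgebra ℤ Γ := el (trI ε X)

omit [AddCommGroup Γ] [DecidableEq Γ] in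
private theorem g6_supp {V : Type} [AddCommGroup V] [Module k V] (𝒱 : Γ → Submodule k V)
    (h : {γ | 𝒱 γ ≠ ⊥}.Finite) : (Function.support fun γ => (finrank k (𝒱 γ) : ℤ)).Finite := by
  refine h.subset fun γ hγ h0 => hγ ?_
  show (finrank k (𝒱 γ) : ℤ) = 0
  rw [h0, finrank_bot]
  rfl

/-- [G6a] (`fin_ne`) -/
theorem HA_coeff (h : DirectSum.IsInternal 𝒜) [FiniteDimensional k A] (γ : Γ) :
    (HA 𝒜).coeff γ = (finrank k (𝒜 γ) : ℤ) :=
  coeff_el (g6_supp 𝒜 (fin_ne h)) γ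

/-- [G6a] (`fin_ne`) -/
theorem Hm_coeff (X : GM 𝒜) (γ : Γ) : (Hm X).coeff γ = (finrank k (X.gr γ) : ℤ) :=
  coeff_el (g6_supp X.gr (fin_ne X.int)) γ

theorem Bf_fin (ε : Γ → Γ → k) (X Y : GM 𝒜) : {δ | Bf ε X Y δ ≠ ⊥}.Finite := by
  have hX := fin_ne X.int
  have hY := fin_ne Y.int
  refine (Set.Finite.image2 (fun a b => a + b) hX hY).subset fun δ hδ => ?_
  obtain ⟨μ, ν, h1, h2, h3⟩ := Bf_supp hδ
  exact ⟨μ, h1, ν, h2, h3⟩

/-- [G6a] (`Bf_supp`, `fin_ne`: the support is in a sum of two finite sets) -/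
theorem Bt_coeff (X Y : GM 𝒜) (δ : Γ) : (Bt ε X Y).coeff δ = (finrank k (Bf ε X Y δ) : ℤ) := by
  unfold Bt
  rw [coeff_el]
  refine (Bf_fin ε X Y).subset fun γ hγ h0 => hγ ?_
  show (finrank k (Bf ε X Y γ) : ℤ) = 0
  rw [h0, finrank_bot, Nat.cast_zero]

/-- [G6a] (`Sf ≤ Bf`) -/
theorem Tr_coeff (X : GM 𝒜) (δ : Γ) : (Tr ε X).coeff δ = trI ε X δ := by
  unfold Tr
  rw [coeff_el]
  refine (Bf_fin ε X X).subset fun δ hδ h0 => hδ ?_
  have hs : ∀ c : k, Sf ε c X δ = ⊥ := fun c => by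
    rw [eq_bot_iff]
    intro β hβ
    have : β ∈ Bf ε X X δ := hβ.1
    rw [h0] at this
    exact this
  show trI ε X δ = 0
  unfold trI
  rw [hs, hs, finrank_bot]
  rfl

end


end GTC
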