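import Pool.Agent.GTC.G6a

/-!
# [GTC-G6b] Hilbert series (definitions complete; rows G6, G7)
-/

set_option autoImplicit false

open CategoryTheory Module

namespace GTC

section
variable {k Γ A : Type} [Field k] [AddCommGroup Γ] [DecidableEq Γ] [Ring A] [Algebra k A]
  {𝒜 : Γ → Submodule k A} {ε : Γ → Γ → k} {w : Γ →+ ℤ}

/-- [G6b] -/
theorem Hm_wb {X : GM 𝒜} {c : ℤ} (h : Wt w c X) : WB w c (Hm X) := by
  intro γ hγ
  rw [Hm_coeff] at hγ
  refine h γ fun h0 => hγ ?_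
  rw [h0, finrank_bot, Nat.cast_zero]

/-- [G6b] (`Bf_supp`) -/
theorem Bt_wb {X Y : GM 𝒜} {c d : ℤ} (h : Wt w c X) (h' : Wt w d Y) :
    WB w (c + d) (Bt ε X Y) := by
  intro δ hδ
  rw [Bt_coeff] at hδ
  have hne : Bf ε X Y δ ≠ ⊥ := fun h0 => hδ (by rw [h0, finrank_bot, Nat.cast_zero])
  obtain ⟨μ, ν, h1, h2, h3⟩ := Bf_supp hne
  rw [← h3, map_add]
  exact add_le_add (h μ h1) (h' ν h2)

/-- [G6b] -/
theorem Tr_wb {X : GM 𝒜} {c : ℤ} (h : Wt w c X) : WB w (c + c) (Tr ε X) := by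
  intro δ hδ
  rw [Tr_coeff] at hδ
  have hne : Bf ε X X δ ≠ ⊥ := fun h0 => hδ (by
    have hs : ∀ c : k, Sf ε c X δ = ⊥ := fun c => by
      rw [eq_bot_iff]
      intro β hβ
      have : β ∈ Bf ε X X δ := hβ.1
      rw [h0] at this
      exact this
    unfold trI
    rw [hs, hs, finrank_bot]
    rfl)
  obtain ⟨μ, ν, h1, h2, h3⟩ := Bf_supp hne
  rw [← h3, map_add]
  exact add_le_add (h μ h1) (h ν h2)

/-- [G6b] (`finrank_sum`) -/
theorem aug_Hm (X : GM 𝒜) : aug (Hm X) = (finrank k X.M : ℤ) := by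
  rw [aug_apply, Finsupp.sum]
  have h1 := finrank_sum X.int (Hm X).coeff.support fun γ hγ => by
    rw [Finsupp.mem_support_iff, Hm_coeff]
    intro h0
    exact hγ (Submodule.finrank_eq_zero.1 (by exact_mod_cast h0))
  rw [← h1, Nat.cast_sum]
  exact Finset.sum_congr rfl fun γ _ => Hm_coeff X γ

/-- [G6b] -/
theorem aug_HA (h : DirectSum.IsInternal 𝒜) [FiniteDimensional k A] :
    aug (HA 𝒜) = (finrank k A : ℤ) := by
  rw [aug_apply, Finsupp.sum]
  have h1 := finrank_sum h (HA 𝒜).coeff.support fun γ hγ => by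
    rw [Finsupp.mem_support_iff, HA_coeff h]
    intro h0
    exact hγ (Submodule.finrank_eq_zero.1 (by exact_mod_cast h0))
  rw [← h1, Nat.cast_sum]
  exact Finset.sum_congr rfl fun γ _ => HA_coeff h γ

end


end GTC
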