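import Pool.Agent.GTC.G6
import Pool.Agent.GTC.F6
import Pool.Agent.GTC.F7
import Pool.Agent.GTC.G2
import Pool.Agent.GTC.G5

/-!
# [GTC-G8a] the identities for a cover
-/

set_option autoImplicit false

open CategoryTheory Module

namespace GTC

section
variable {k Γ A : Type} [Field k] [AddCommGroup Γ] [DecidableEq Γ] [Ring A] [Algebra k A]
  {𝒜 : Γ → Submodule k A} {ε : Γ → Γ → k} {w : Γ →+ ℤ}

/-- [G8a] -/
theorem sum_single {n : ℕ} (φ : Fin n → Γ) (X : GM 𝒜)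
    (hc : ∀ γ, (Finset.univ.filter fun i => φ i = γ).card = finrank k (X.gr γ)) :
    ∑ i, AddMonoidAlgebra.single (φ i) (1 : ℤ) = Hm X := by
  apply AddMonoidAlgebra.coeff_injective
  ext γ
  rw [Hm_coeff, ← hc, AddMonoidAlgebra.coeff_sum, Finsupp.finsetSum_apply, Finset.card_filter,
    Nat.cast_sum]
  refine Finset.sum_congr rfl fun i _ => ?_
  rw [AddMonoidAlgebra.coeff_single, Finsupp.single_apply]
  split_ifs <;> simp

/-- [G8a] (`finrank_gr`, `finrank_fr`, `sum_single`, `AddMonoidAlgebra.coeff_single_mul_apply`) -/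
theorem Hm_cover (hA : GA 𝒜 ε w) [FiniteDimensional k A] {n : ℕ} {φ : Fin n → Γ} {X Y : GM 𝒜}
    (s : Ses Y (fr hA φ) X)
    (hc : ∀ γ, (Finset.univ.filter fun i => φ i = γ).card = finrank k (X.gr γ)) :
    Hm Y + Hm X = HA 𝒜 * Hm X := by
  have e : HA 𝒜 * Hm X = ∑ i, AddMonoidAlgebra.single (φ i) (1 : ℤ) * HA 𝒜 := by
    rw [← Finset.sum_mul, sum_single φ X hc, mul_comm]
  rw [e]
  apply AddMonoidAlgebra.coeff_injective
  ext γ
  rw [AddMonoidAlgebra.coeff_sum, Finsupp.finsetSum_apply, AddMonoidAlgebra.coeff_add,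
    Finsupp.add_apply, Hm_coeff, Hm_coeff]
  have h1 := finrank_gr s γ
  have h2 : finrank k ((fr hA φ).gr γ) = ∑ i, finrank k (𝒜 (γ - φ i)) := finrank_fr φ γ
  rw [h2] at h1
  rw [← Nat.cast_add, ← h1, Nat.cast_sum]
  refine Finset.sum_congr rfl fun i _ => ?_
  rw [AddMonoidAlgebra.coeff_single_mul_apply, one_mul, HA_coeff hA.int, neg_add_eq_sub]

/-- [G8a] (`finrank_omGr`, `ng_coeff`) -/
theorem Hm_om (hA : GA 𝒜 ε w) [FiniteDimensional k A] : Hm (om hA) = ng (HA 𝒜) := by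
  apply AddMonoidAlgebra.coeff_injective
  ext γ
  rw [Hm_coeff, ng_coeff, HA_coeff hA.int]
  exact_mod_cast finrank_omGr hA.int γ

end


end GTC
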