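import Pool.Agent.GTC.G8a

/-!
# [GTC-G8b] the identities for a cover
-/

set_option autoImplicit false

open CategoryTheory Module

namespace GTC

section
variable {k Γ A : Type} [Field k] [AddCommGroup Γ] [DecidableEq Γ] [Ring A] [Algebra k A]
  {𝒜 : Γ → Submodule k A} {ε : Γ → Γ → k} {w : Γ →+ ℤ}

/-- [G8b] (`finrank_add`, `finrank_Bf_fr`, `sum_single`) -/
theorem Bt_cover (hA : GA 𝒜 ε w) [FiniteDimensional k A] {n : ℕ} {φ : Fin n → Γ} {X Y : GM 𝒜}
    (s : Ses Y (fr hA φ) X)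
    (hc : ∀ γ, (Finset.univ.filter fun i => φ i = γ).card = finrank k (X.gr γ)) (Z : GM 𝒜)
    (hLE : LE ε s Z) : Bt ε Y Z + Bt ε X Z = Hm X * Hm Z := by
  rw [← sum_single φ X hc, Finset.sum_mul]
  apply AddMonoidAlgebra.coeff_injective
  ext δ
  rw [AddMonoidAlgebra.coeff_sum, Finsupp.finsetSum_apply, AddMonoidAlgebra.coeff_add,
    Finsupp.add_apply, Bt_coeff, Bt_coeff]
  have h1 := finrank_add s Z hLE δ
  rw [finrank_Bf_fr hA φ Z δ] at h1
  rw [← Nat.cast_add, ← h1, Nat.cast_sum]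
  refine Finset.sum_congr rfl fun i _ => ?_
  rw [AddMonoidAlgebra.coeff_single_mul_apply, one_mul, Hm_coeff, neg_add_eq_sub]

end


end GTC
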