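import Pool.Agent.GTC.G8b

/-!
# [GTC-G8c] the identities for a cover
-/

set_option autoImplicit false

open CategoryTheory Module

namespace GTC

section
variable {k Γ A : Type} [Field k] [AddCommGroup Γ] [DecidableEq Γ] [Ring A] [Algebra k A]
  {𝒜 : Γ → Submodule k A} {ε : Γ → Γ → k} {w : Γ →+ ℤ}

/-- [G8c] (`trI_add`, `fr_RE`, `tr_fr`, `sum_single`, `psi_single`) -/
theorem Tr_cover (hA : GA 𝒜 ε w) (h2 : (2 : k) ≠ 0) [FiniteDimensional k A] {n : ℕ}
    {φ : Fin n → Γ} {X Y : GM 𝒜} (s : Ses Y (fr hA φ) X)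
    (hc : ∀ γ, (Finset.univ.filter fun i => φ i = γ).card = finrank k (X.gr γ))
    (hY : LE ε s Y) (hX : LE ε s X) :
    Tr ε Y + Tr ε X =
      HA 𝒜 * psi (sg ε) (sg_zero hA.cf) (sg_add hA.cf h2) (Hm X) := by
  have h3 : HA 𝒜 * psi (sg ε) (sg_zero hA.cf) (sg_add hA.cf h2) (Hm X) =
      ∑ i, HA 𝒜 * AddMonoidAlgebra.single (φ i + φ i) (sg ε (φ i)) := by
    rw [← sum_single φ X hc, map_sum, Finset.mul_sum]
    refine Finset.sum_congr rfl fun i _ => ?_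
    rw [psi_single, one_mul]
  rw [h3]
  refine AddMonoidAlgebra.ext (Finsupp.ext fun δ => ?_)
  rw [AddMonoidAlgebra.coeff_add, Finsupp.add_apply, Tr_coeff, Tr_coeff,
    ← trI_add hA.cf h2 s hY hX (fr_RE hA φ s) δ, tr_fr hA h2 φ δ, AddMonoidAlgebra.coeff_sum,
    Finsupp.finsetSum_apply]
  refine Finset.sum_congr rfl fun i _ => ?_
  rw [AddMonoidAlgebra.coeff_mul_single_apply, HA_coeff hA.int, sub_eq_add_neg, mul_comm]

end


end GTC
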