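import Pool.Agent.NTC.D0

/-!
# [GTC-P0] blocks: restriction of scalars (definitions, complete, no row)
-/

set_option autoImplicit false

open CategoryTheory

namespace GTC

/-- `Ext^i(M, A) = 0` for `1 ≤ i ≤ N` and all finitely generated injective modules `M` -/
def TVanN (N : ℕ) (A : Type) [Ring A] [HasExt.{1} (ModuleCat.{0} A)] : Prop :=
  ∀ M : ModuleCat.{0} A, Module.Injective A M → Module.Finite A M →
    ∀ i : ℕ, 1 ≤ i → i ≤ N → Subsingleton (Abelian.Ext.{1} M (ModuleCat.of A A) i)

/-- `B` is a block of the ring `R` -/
structure Blk (R B : Type) [Ring R] [Ring B] where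
  /-- the projection -/
  π : R →+* B
  sur : Function.Surjective π
  /-- the idempotent -/
  e : R
  he : π e = 1
  hk : ∀ x, π x = 0 → x * e = 0 ∧ e * x = 0

/-- a `B`-module as an `R`-module -/
def Rs {R B : Type} [Ring R] [Ring B] (_ : Blk R B) (M : Type) : Type := M

section
variable {R B : Type} [Ring R] [Ring B] (b : Blk R B) (M : Type) [AddCommGroup M] [Module B M]

instance : AddCommGroup (Rs b M) := inferInstanceAs (AddCommGroup M)

instance : Module B (Rs b M) := inferInstanceAs (Module B M)

instance : Module R (Rs b M) := Module.compHom M b.π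

theorem rs_smul (r : R) (m : Rs b M) : r • m = b.π r • m := rfl

end

end GTC
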