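import Pool.Agent.GTC.P0

/-!
# [GTC-P1] injective modules over a block
-/

set_option autoImplicit false

open CategoryTheory

namespace GTC

private theorem p1_zero {R B : Type} [Ring R] [Ring B] (b : Blk R B) (Q : Type) [AddCommGroup Q]
    [Module B Q] (J : Ideal R) (g : J →ₗ[R] Rs b Q) (x : J) (hx : b.π x = 0) : g x = 0 := by
  have h1 : b.e • g x = g x := by
    rw [rs_smul, b.he, one_smul]
  have h2 : b.e • x = 0 := by
    apply Subtype.ext
    exact (b.hk x hx).2
  rw [← h1, ← map_smul, h2, map_zero]

private theorem p1_eq {R B : Type} [Ring R] [Ring B] (b : Blk R B) (Q : Type) [AddCommGroup Q]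
    [Module B Q] (J : Ideal R) (g : J →ₗ[R] Rs b Q) (x y : J) (hx : b.π x = b.π y) :
    g x = g y := by
  have h := p1_zero b Q J g (x - y) (by
    rw [Submodule.coe_sub, map_sub, hx, sub_self])
  rwa [map_sub, sub_eq_zero] at h

/-- [P1] PROOF. Baer's criterion (`Module.Baer.injective`): let `J` be a left ideal of `R` and `g : J → Q` linear. If `x ∈ J`, `b.π x = 0`, then `b.e * x = 0`, so `g x = g ((1 - b.e) * x) = b.π (1 - b.e) • g x = 0`. So `g` factors through the left ideal `b.π J` of `B`; extend to `B` (`Module.Baer.of_injective`) and compose with `b.π`. -/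
theorem rs_injective {R B : Type} [Ring R] [Ring B] (b : Blk R B) (Q : Type) [AddCommGroup Q]
    [Module B Q] (h : Module.Injective B Q) : Module.Injective R (Rs b Q) := by
  classical
  apply Module.Baer.injective
  intro J g
  have hB : Module.Baer B Q := Module.Baer.of_injective h
  let K : Ideal B :=
    { carrier := {y | ∃ x : J, b.π (x : R) = y}
      add_mem' := by
        rintro _ _ ⟨x, rfl⟩ ⟨y, rfl⟩
        exact ⟨x + y, by rw [Submodule.coe_add, map_add]⟩
      zero_mem' := ⟨0, by rw [Submodule.coe_zero, map_zero]⟩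
      smul_mem' := by
        rintro c _ ⟨x, rfl⟩
        obtain ⟨r, rfl⟩ := b.sur c
        exact ⟨r • x, by rw [Submodule.coe_smul, smul_eq_mul, map_mul, smul_eq_mul]⟩ }
  have hK : ∀ y : K, ∃ x : J, b.π (x : R) = (y : B) := fun y => y.2
  choose s hs using hK
  let g' : K →ₗ[B] Q :=
    { toFun := fun y => (g (s y) : Rs b Q)
      map_add' := by
        intro y z
        show g (s (y + z)) = g (s y) + g (s z)
        rw [← map_add]
        apply p1_eq
        rw [hs, Submodule.coe_add, Submodule.coe_add, map_add, hs, hs]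
      map_smul' := by
        intro c y
        obtain ⟨r, rfl⟩ := b.sur c
        show g (s (b.π r • y)) = r • g (s y)
        rw [← map_smul]
        apply p1_eq
        rw [hs, Submodule.coe_smul, Submodule.coe_smul, smul_eq_mul, smul_eq_mul, map_mul, hs] }
  obtain ⟨g2, hg2⟩ := hB K g'
  let G : R →ₗ[R] Rs b Q :=
    { toFun := fun r => (g2 (b.π r) : Q)
      map_add' := by
        intro x y
        show g2 (b.π (x + y)) = g2 (b.π x) + g2 (b.π y)
        rw [map_add, map_add]
      map_smul' := by
        intro r x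
        show g2 (b.π (r * x)) = b.π r • g2 (b.π x)
        rw [map_mul, ← smul_eq_mul, map_smul] }
  refine ⟨G, fun x hx => ?_⟩
  have hm : b.π x ∈ K := ⟨⟨x, hx⟩, rfl⟩
  show g2 (b.π x) = g ⟨x, hx⟩
  rw [hg2 (b.π x) hm]
  show g (s ⟨b.π x, hm⟩) = g ⟨x, hx⟩
  apply p1_eq
  rw [hs]

end GTC
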