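import Pool.Agent.GTC.P0

/-!
# [GTC-P2] finite and projective modules over a block
-/

set_option autoImplicit false

open CategoryTheory

namespace GTC

/-- [P2] -/
theorem rs_finite {R B : Type} [Ring R] [Ring B] (b : Blk R B) (Q : Type) [AddCommGroup Q]
    [Module B Q] (h : Module.Finite B Q) : Module.Finite R (Rs b Q) := by
  classical
  obtain ⟨S, hS⟩ := h.fg_top
  refine ⟨⟨S, ?_⟩⟩
  rw [eq_top_iff]
  intro x _
  have hx : (x : Q) ∈ Submodule.span B (S : Set Q) := by rw [hS]; trivial
  refine Submodule.span_induction (p := fun (y : Q) _ =>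
    (show Rs b Q from y) ∈ Submodule.span R (show Set (Rs b Q) from (S : Set Q))) ?_ ?_ ?_ ?_ hx
  · intro y hy
    exact Submodule.subset_span hy
  · exact Submodule.zero_mem _
  · intro y z _ _ hy hz
    exact Submodule.add_mem _ hy hz
  · intro c y _ hy
    obtain ⟨r, rfl⟩ := b.sur c
    exact Submodule.smul_mem (Submodule.span R (show Set (Rs b Q) from (S : Set Q))) r hy

/-- [P2] PROOF. `σ (b.π r) = r * b.e` is well defined (`b.hk`) and linear, `b.π ∘ σ = id` (`b.he`). -/
theorem rs_sec {R B : Type} [Ring R] [Ring B] (b : Blk R B) :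
    ∃ σ : Rs b B →ₗ[R] R, ∀ x : B, b.π (σ x) = x := by
  have hkey : ∀ r r' : R, b.π r = b.π r' → r * b.e = r' * b.e := by
    intro r r' h
    have h1 := (b.hk (r - r') (by rw [map_sub, h, sub_self])).1
    rw [sub_mul] at h1
    exact sub_eq_zero.1 h1
  choose g hg using b.sur
  have hadd : ∀ x y : B, g (x + y) * b.e = g x * b.e + g y * b.e := by
    intro x y
    rw [← add_mul]
    refine hkey _ _ ?_
    rw [map_add, hg, hg, hg]
  have hsm : ∀ (r : R) (x : B), g (b.π r * x) * b.e = r * (g x * b.e) := by
    intro r x
    rw [← mul_assoc]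
    refine hkey _ _ ?_
    rw [map_mul, hg, hg]
  refine ⟨{ toFun := fun x => g x * b.e, map_add' := fun x y => hadd x y,
            map_smul' := fun r x => hsm r x }, ?_⟩
  intro x
  change b.π (g x * b.e) = x
  rw [map_mul, hg, b.he, mul_one]

/-- [P2] (`Rs b (Fin n → B)` is a retract of `Fin n → R` by `rs_sec`) -/
theorem rs_projective {R B : Type} [Ring R] [Ring B] (b : Blk R B) (n : ℕ) :
    Module.Projective R (Rs b (Fin n → B)) := by
  obtain ⟨σ, hσ⟩ := rs_sec b
  let i : Rs b (Fin n → B) →ₗ[R] (Fin n → R) :=
    { toFun := fun f j => σ (show Rs b B from (show Fin n → B from f) j)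
      map_add' := fun f g => by
        funext j
        exact map_add σ _ _
      map_smul' := fun r f => by
        funext j
        exact map_smul σ r (show Rs b B from (show Fin n → B from f) j) }
  let s : (Fin n → R) →ₗ[R] Rs b (Fin n → B) :=
    { toFun := fun g => (show Fin n → B from fun j => b.π (g j))
      map_add' := fun f g => by
        funext j
        exact map_add b.π _ _
      map_smul' := fun r f => by
        funext j
        exact map_mul b.π _ _ }
  refine Module.Projective.of_split i s (LinearMap.ext fun f => ?_)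
  funext j
  exact hσ _

end GTC
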