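import Pool.Agent.GTC.P1

/-!
# [GTC-P4] products of rings
-/

set_option autoImplicit false

open CategoryTheory

namespace GTC

/-- [P4] PROOF. `π = eval j ∘ f`, `e = f.symm (Pi.single j 1)`. -/
theorem blk_pi {R : Type} [Ring R] {J : Type} (B : J → Type) [∀ j, Ring (B j)]
    (f : R ≃+* ∀ j, B j) (j : J) : ∃ b : Blk R (B j), ∀ r, b.π r = f r j := by
  classical
  have hπ : ∀ r, ((Pi.evalRingHom B j).comp (f : R →+* ∀ j, B j)) r = f r j := fun _ => rfl
  have he : ∀ x : R, f x j = 0 → x * f.symm (Pi.single j 1) = 0 ∧ f.symm (Pi.single j 1) * x = 0 := by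
    intro x hx
    constructor
    · apply f.injective
      rw [map_mul, f.apply_symm_apply, map_zero]
      funext i
      rw [Pi.mul_apply, Pi.zero_apply]
      by_cases hi : i = j
      · subst hi
        rw [hx, zero_mul]
      · rw [Pi.single_eq_of_ne hi, mul_zero]
    · apply f.injective
      rw [map_mul, f.apply_symm_apply, map_zero]
      funext i
      rw [Pi.mul_apply, Pi.zero_apply]
      by_cases hi : i = j
      · subst hi
        rw [hx, mul_zero]
      · rw [Pi.single_eq_of_ne hi, zero_mul]
  refine ⟨⟨(Pi.evalRingHom B j).comp (f : R →+* ∀ j, B j), fun y => ⟨f.symm (Pi.single j y), ?_⟩,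
    f.symm (Pi.single j 1), ?_, fun x hx => he x hx⟩, fun r => rfl⟩
  · rw [hπ, f.apply_symm_apply, Pi.single_eq_same]
  · rw [hπ, f.apply_symm_apply, Pi.single_eq_same]

/-- [P4] PROOF. `R` is isomorphic to the product of the `Rs (b j) (B j)` (`blk_pi`), these are injective by `rs_injective`; products of injective modules are injective. -/
theorem inj_pi {R : Type} [Ring R] {J : Type} (B : J → Type) [∀ j, Ring (B j)]
    (f : R ≃+* ∀ j, B j) (h : ∀ j, Module.Injective (B j) (B j)) : Module.Injective R R := by
  choose b hb using blk_pi B f
  have h1 : ∀ j, Module.Injective R (Rs (b j) (B j)) := fun j => rs_injective (b j) (B j) (h j)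
  have h2 : Module.Injective R (∀ j, Rs (b j) (B j)) :=
    Module.Injective.pi R (fun j => Rs (b j) (B j))
  let e : (∀ j, Rs (b j) (B j)) ≃ₗ[R] R :=
    LinearEquiv.symm
      { toFun := fun r j => f r j
        map_add' := fun x y => by
          funext j
          exact congrFun (map_add f x y) j
        map_smul' := fun r x => by
          funext j
          have h3 : f (r * x) j = (b j).π r * f x j := by
            rw [map_mul, Pi.mul_apply, hb]
          exact h3
        invFun := fun y => f.symm y
        left_inv := fun x => f.symm_apply_apply x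
        right_inv := fun y => f.apply_symm_apply y }
  exact ((Module.Baer.of_injective h2).of_equiv e).injective

end GTC
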