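import Pool.Agent.GTC.Core
import Pool.Agent.GTC.E5
import Pool.Agent.GTC.P2
import Pool.Agent.GTC.P4

/-!
# [GTC-P5] from the vanishing of `Ext` over a product of rings to the extension property (complete)
-/

set_option autoImplicit false

open CategoryTheory Module

namespace GTC

section
variable {k Γ A : Type} [Field k] [AddCommGroup Γ] [DecidableEq Γ] [Ring A] [Algebra k A]
  {𝒜 : Γ → Submodule k A} {ε : Γ → Γ → k} {w : Γ →+ ℤ}

/-- a linear map over a block -/
def rsMap {R B : Type} [Ring R] [Ring B] (b : Blk R B) {M N : Type} [AddCommGroup M] [Module B M]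
    [AddCommGroup N] [Module B N] (f : M →ₗ[B] N) : Rs b M →ₗ[R] Rs b N where
  toFun := f
  map_add' := f.map_add
  map_smul' r m := f.map_smul (b.π r) m

theorem hext_of_tvan {R : Type} [Ring R] [HasExt.{1} (ModuleCat.{0} R)] (b : Blk R A)
    (m : ℕ) (hT : TVanN m R) (hA : GA 𝒜 ε w) [FiniteDimensional k A] (n : ℕ) (hn : n + 1 ≤ m)
    (f : (ch hA (n + 1)).M →ₗ[A] A) :
    ∃ g : (fr hA (cov hA (ch hA n)).φ).M →ₗ[A] A, ∀ x, g ((sq hA n).i x) = f x := by
  obtain ⟨σ, hσ⟩ := rs_sec b
  have hinj : Module.Injective A (NTC.DD k A) := NTC.dd_injective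
  have hfin : Module.Finite A (NTC.DD k A) := NTC.dd_finite (inferInstance)
  have hinj' : Module.Injective R (Rs b (NTC.DD k A)) := rs_injective b (NTC.DD k A) hinj
  have hfin' : Module.Finite R (Rs b (NTC.DD k A)) := rs_finite b (NTC.DD k A) hfin
  have h0 : ∀ j : ℕ, 1 ≤ j → j ≤ m → Subsingleton (Abelian.Ext.{1}
      (ModuleCat.of R (Rs b (ch hA 0).M)) (ModuleCat.of R R) j) :=
    fun j hj hj' => hT (ModuleCat.of R (Rs b (NTC.DD k A))) hinj' hfin' j hj hj'
  let Z : ℕ → ModuleCat.{0} R := fun n => ModuleCat.of R (Rs b (ch hA n).M)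
  let F : ℕ → ModuleCat.{0} R := fun n =>
    ModuleCat.of R (Rs b (fr hA (cov hA (ch hA n)).φ).M)
  let i : ∀ n, Z (n + 1) →ₗ[R] F n := fun n =>
    rsMap b (M := (ch hA (n + 1)).M) (N := (fr hA (cov hA (ch hA n)).φ).M) (sq hA n).i
  let p : ∀ n, F n →ₗ[R] Z n := fun n =>
    rsMap b (M := (fr hA (cov hA (ch hA n)).φ).M) (N := (ch hA n).M) (sq hA n).p
  have hF : ∀ n, Module.Projective R (F n) := fun n => rs_projective b (cov hA (ch hA n)).n
  have hx : ∀ n, LinearMap.range (i n) = LinearMap.ker (p n) := fun n => by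
    ext x
    have h1 := (sq hA n).ex
    have h2 : x ∈ LinearMap.range (sq hA n).i ↔ x ∈ LinearMap.ker (sq hA n).p := by rw [h1]
    exact h2
  let f' : Z (n + 1) →ₗ[R] R :=
    σ ∘ₗ (rsMap b (M := (ch hA (n + 1)).M) (N := A) f : Rs b (ch hA (n + 1)).M →ₗ[R] Rs b A)
  obtain ⟨g, hg⟩ := chain_ext (R := R) R Z F i p (fun n => (sq hA n).inj)
    (fun n => (sq hA n).sur) hx hF m h0 n hn f'
  let g' : Rs b (fr hA (cov hA (ch hA n)).φ).M →ₗ[R] R := g
  refine ⟨{ toFun := fun x => b.π (g' x)
            map_add' := fun x y => by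
              have h3 : g' (x + y) = g' x + g' y := map_add g' _ _
              exact (congrArg b.π h3).trans (map_add b.π _ _)
            map_smul' := fun a x => by
              obtain ⟨r, rfl⟩ := b.sur a
              have h3 : g' (b.π r • x) = r * g' x := map_smul g' r _
              exact (congrArg b.π h3).trans (map_mul b.π _ _) }, fun x => ?_⟩
  have h4 : g' ((sq hA n).i x) = f' x := hg x
  show b.π (g' ((sq hA n).i x)) = f x
  exact (congrArg b.π h4).trans (hσ (f x))

end

end GTC
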