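import Pool.Agent.GTC.Defs

/-!
# [GTC-Q0] classes of algebras (definitions, complete, no row)
-/

set_option autoImplicit false

open CategoryTheory

namespace GTC

/-- connected graded colour commutative algebras with weights at most `s`, characteristic not two -/
def Col (s : ℤ) (A : Type) [Ring A] : Prop :=
  ∃ (k : Type) (_ : Field k) (_ : Algebra k A) (Γ : Type) (_ : AddCommGroup Γ)
    (_ : DecidableEq Γ) (𝒜 : Γ → Submodule k A) (ε : Γ → Γ → k) (w : Γ →+ ℤ),
    FiniteDimensional k A ∧ (2 : k) ≠ 0 ∧ GA 𝒜 ε w ∧ ∀ γ, 𝒜 γ ≠ ⊥ → w γ ≤ s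

/-- bundled commutative graded algebras such that the nonzero elements of degree zero are units -/
structure CG (K : Type) [Field K] where
  /-- the algebra -/
  B : Type
  [ring : CommRing B]
  [alg : Algebra K B]
  [fd : FiniteDimensional K B]
  /-- the components -/
  gr : ℕ → Submodule K B
  [ga : GradedAlgebra gr]
  unit : ∀ a ∈ gr 0, a ≠ 0 → IsUnit a

attribute [instance] CG.ring CG.alg CG.fd CG.ga

end GTC
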