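import Pool.Agent.GTC.Q0

/-!
# [GTC-Q2a] the quotient of a graded algebra by an idempotent of degree zero
-/

set_option autoImplicit false

open CategoryTheory

namespace GTC

open DirectSum in
private theorem q2a_aux (K A B : Type) [Field K] [CommRing A] [Algebra K A] [CommRing B]
    [Algebra K B] (𝒜 : ℕ → Submodule K A) [GradedAlgebra 𝒜] (π : A →ₐ[K] B)
    (ℬ : ℕ → Submodule K B) [SetLike.GradedMonoid ℬ] (h : ∀ i, ∀ a ∈ 𝒜 i, π a ∈ ℬ i) :
    ∃ f : A →ₐ[K] ⨁ i, ℬ i, ∀ (i : ℕ) (a : 𝒜 i),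
      f (a : A) = DirectSum.of (fun i => ℬ i) i ⟨π a, h i a a.2⟩ := by
  classical
  let φ : ∀ i, 𝒜 i →ₗ[K] ℬ i := fun i => π.toLinearMap.restrict (fun a ha => h i a ha)
  let F : (⨁ i, 𝒜 i) →ₐ[K] (⨁ i, ℬ i) :=
    DirectSum.toAlgebra K (fun i => 𝒜 i)
      (fun i => (DirectSum.lof K ℕ (fun i => ℬ i) i) ∘ₗ φ i)
      (by
        rw [LinearMap.comp_apply, DirectSum.lof_eq_of]
        change DirectSum.of _ _ _ = DirectSum.of _ 0 GradedMonoid.GOne.one
        congr 1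
        exact Subtype.ext (map_one π))
      (by
        intro i j a b
        rw [LinearMap.comp_apply, LinearMap.comp_apply, LinearMap.comp_apply,
          DirectSum.lof_eq_of, DirectSum.lof_eq_of, DirectSum.lof_eq_of, DirectSum.of_mul_of]
        congr 1
        exact Subtype.ext (map_mul π _ _))
  refine ⟨F.comp (DirectSum.decomposeAlgEquiv 𝒜).toAlgHom, fun i a => ?_⟩
  have h1 : (DirectSum.decomposeAlgEquiv 𝒜) (a : A) = DirectSum.of (fun i => 𝒜 i) i a :=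
    DirectSum.decompose_coe 𝒜 a
  change F ((DirectSum.decomposeAlgEquiv 𝒜) (a : A)) = _
  rw [h1]
  have h5 : F (DirectSum.of (fun i => 𝒜 i) i a) =
      (DirectSum.toModule K ℕ (DirectSum ℕ (fun i => ℬ i))
        (fun i => (DirectSum.lof K ℕ (fun i => ℬ i) i) ∘ₗ φ i))
        (DirectSum.lof K ℕ (fun i => 𝒜 i) i a) := rfl
  rw [h5, DirectSum.toModule_lof]
  rfl

/-- [Q2a] PROOF. `DirectSum.IsInternal` for the images: they span; if `∑ b_n ∈ (e)` with `b_n ∈ 𝒜 n` then `(1 - e) * ∑ b_n = 0`, so `(1 - e) * b_n = 0` for all `n` (it is homogeneous of degree `n`), so `b_n = e * b_n ∈ (e)`. -/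
theorem quot_graded (K A : Type) [Field K] [CommRing A] [Algebra K A]
    (𝒜 : ℕ → Submodule K A) [GradedAlgebra 𝒜] (e : A) (he : e ∈ 𝒜 0) (hee : e * e = e) :
    ∃ (ℬ : ℕ → Submodule K (A ⧸ Ideal.span {e})) (_ : GradedAlgebra ℬ),
      ∀ n, ℬ n = (𝒜 n).map (Ideal.Quotient.mkₐ K (Ideal.span {e})).toLinearMap := by
  classical
  let I := Ideal.span {e}
  let π : A →ₐ[K] A ⧸ I := Ideal.Quotient.mkₐ K I
  let ℬ : ℕ → Submodule K (A ⧸ I) := fun n => (𝒜 n).map π.toLinearMap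
  have inst : SetLike.GradedMonoid ℬ :=
    { one_mem := ⟨1, SetLike.GradedOne.one_mem, map_one π⟩
      mul_mem := by
        rintro i j _ _ ⟨a, ha, rfl⟩ ⟨b, hb, rfl⟩
        exact ⟨a * b, SetLike.GradedMul.mul_mem ha hb, map_mul π a b⟩ }
  obtain ⟨f₀, hf₀⟩ := q2a_aux K A (A ⧸ I) 𝒜 π ℬ (fun i a ha => ⟨a, ha, rfl⟩)
  have he0 : f₀ e = 0 := by
    have h1 := hf₀ 0 ⟨e, he⟩
    have h2 : (⟨π e, ⟨e, he, rfl⟩⟩ : ℬ 0) = 0 := by
      apply Subtype.ext
      exact Ideal.Quotient.eq_zero_iff_mem.2 (Ideal.mem_span_singleton_self e)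
    rw [h1]
    change DirectSum.of (fun i => ℬ i) 0 (⟨π e, ⟨e, he, rfl⟩⟩ : ℬ 0) = 0
    rw [h2, map_zero]
  let f : A ⧸ I →ₐ[K] DirectSum ℕ (fun i => ℬ i) := Ideal.Quotient.liftₐ I f₀ (fun a ha => by
    obtain ⟨b, rfl⟩ := Ideal.mem_span_singleton'.1 ha
    rw [map_mul, he0, mul_zero])
  have hf : ∀ a : A, f (π a) = f₀ a := fun a => rfl
  refine ⟨ℬ, GradedAlgebra.ofAlgHom ℬ f ?_ ?_, fun n => rfl⟩
  · apply AlgHom.ext
    intro x
    obtain ⟨a, rfl⟩ := Ideal.Quotient.mk_surjective x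
    change DirectSum.coeAlgHom ℬ (f (π a)) = π a
    rw [hf]
    have h3 : ((DirectSum.coeAlgHom ℬ).comp f₀).toLinearMap = π.toLinearMap := by
      have h4 : ∀ x : A, ((DirectSum.coeAlgHom ℬ).comp f₀) x = π x := by
        intro x
        induction x using DirectSum.Decomposition.inductionOn 𝒜 with
        | zero => rw [map_zero, map_zero]
        | @homogeneous i m =>
          rw [AlgHom.comp_apply, hf₀, DirectSum.coeAlgHom_of]
        | add m m' h h' => rw [map_add, map_add, h, h']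
      exact LinearMap.ext h4
    exact congrArg (fun g : A →ₗ[K] A ⧸ I => g a) h3
  · rintro i ⟨x, ⟨a, ha, rfl⟩⟩
    exact hf₀ i ⟨a, ha⟩

end GTC
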